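import Pool.Agent.CT96.Basic

/-!
Three explicit target densities, with their primitives and second moments.
-/

open MeasureTheory Set Filter Topology

namespace CT96

theorem le_of_forall_small {x y C : ℝ} (h : ∀ δ, 0 < δ → δ < 1 → x - C * δ ≤ y) : x ≤ y := by
  have h1 : Tendsto (fun δ : ℝ => x - C * δ) (𝓝[>] 0) (𝓝 (x - C * 0)) := by
    apply Tendsto.mono_left _ nhdsWithin_le_nhds
    exact (continuous_const.sub (continuous_const.mul continuous_id)).tendsto 0
  rw [mul_zero, sub_zero] at h1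
  refine le_of_tendsto h1 ?_
  filter_upwards [Ioo_mem_nhdsGT (show (0:ℝ) < 1 by norm_num)] with δ hδ
  exact h δ hδ.1 hδ.2

/-- A target density `G` with primitive `Φ` of total mass `1` and second moment `m`. -/
structure IsTarget (Φ G M : ℝ → ℝ) (m : ℝ) : Prop where
  cont : Continuous G
  pos : ∀ t, 0 < G t
  hΦ : ∀ t, HasDerivAt Φ (G t) t
  hM : ∀ t, HasDerivAt M (t ^ 2 * G t) t
  oddΦ : ∀ t, Φ (-t) = -Φ t
  oddM : ∀ t, M (-t) = -M t
  limΦ : Tendsto Φ atTop (𝓝 (1 / 2))
  limM : Tendsto M atTop (𝓝 (m / 2))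

theorem IsTarget.exists_transport {Φ G M : ℝ → ℝ} {m : ℝ} (h : IsTarget Φ G M m) {δ : ℝ}
    (hδ : 0 < δ) :
    ∃ R m₀ m₁ : ℝ, 0 < R ∧ 0 < m₀ ∧ 1 - δ ≤ m₀ ∧ m₀ ≤ 1 ∧ |m₁ - m| ≤ δ ∧
      ∀ (b : ℝ → ℝ) (p q : ℝ), Continuous b → (∀ y, 0 ≤ b y) → p ≤ q →
        (0 < ∫ y in p..q, b y) →
        ∃ T : ℝ → ℝ, Continuous T ∧ (∀ y ∈ Icc p q, |T y| ≤ R) ∧
          (∀ y ∈ Icc p q, HasDerivAt T (m₀ * (b y / ((∫ y in p..q, b y) * G (T y)))) y) ∧
          T p = -R ∧ T q = R ∧
          ∫ y in p..q, b y * T y ^ 2 = (∫ y in p..q, b y) * m₁ := by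
  have hmono : StrictMono Φ := by
    apply strictMono_of_deriv_pos
    intro t
    rw [(h.hΦ t).deriv]
    exact h.pos t
  have hΦ0 : Φ 0 = 0 := by
    have := h.oddΦ 0
    rw [neg_zero] at this
    linarith
  have hle : ∀ t, Φ t ≤ 1 / 2 := fun t => hmono.monotone.ge_of_tendsto h.limΦ t
  have hlim2 : Tendsto (fun t => M t / Φ t) atTop (𝓝 m) := by
    have := h.limM.div h.limΦ (by norm_num)
    have h3 : m / 2 / (1 / 2) = m := by ring
    rwa [h3] at this
  have h1 : ∀ᶠ R in atTop, 1 - δ ≤ 2 * Φ R := by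
    have h4 : Tendsto (fun t => 2 * Φ t) atTop (𝓝 (2 * (1 / 2))) := h.limΦ.const_mul 2
    have h5 : (2 : ℝ) * (1 / 2) = 1 := by norm_num
    rw [h5] at h4
    exact (h4.eventually (lt_mem_nhds (show 1 - δ < 1 by linarith))).mono fun _ h => h.le
  have h2 : ∀ᶠ R in atTop, |M R / Φ R - m| ≤ δ := by
    have h6 := (tendsto_order.1 ((hlim2.sub_const m).abs)).2 δ (by simpa using hδ)
    exact h6.mono fun _ h => h.le
  obtain ⟨R, hR1, hR2, hR3⟩ := (h1.and (h2.and (eventually_gt_atTop 0))).exists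
  refine ⟨R, 2 * Φ R, M R / Φ R, hR3, ?_, hR1, ?_, hR2, ?_⟩
  · have := hmono hR3
    rw [hΦ0] at this
    linarith
  · linarith [hle R]
  · intro b p q hb hb0 hpq hβ
    obtain ⟨T, hT1, hT2, hT3, hT4, hT5, hT6⟩ := transport Φ G M h.cont h.pos h.hΦ h.hM R hR3
      (h.oddΦ R) (h.oddM R) b hb hb0 p q hpq hβ
    refine ⟨T, hT1, hT2, ?_, hT4, hT5, hT6⟩
    intro y hy
    refine (hT3 y hy).congr_deriv ?_
    rw [mul_div_assoc]

theorem hasDerivAt_r1 (t : ℝ) :
    HasDerivAt (fun t : ℝ => t / (1 + t ^ 2)) ((1 - t ^ 2) / (1 + t ^ 2) ^ 2) t := by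
  have hpos : (1 + t ^ 2) ≠ 0 := by positivity
  have h1 : HasDerivAt (fun t : ℝ => 1 + t ^ 2) (2 * t) t := by
    simpa using (hasDerivAt_pow 2 t).const_add 1
  refine ((hasDerivAt_id t).div h1 hpos).congr_deriv ?_
  simp only [id]
  field_simp
  ring

theorem hasDerivAt_r2 (t : ℝ) :
    HasDerivAt (fun t : ℝ => t / (1 + t ^ 2) ^ 2) ((1 - 3 * t ^ 2) / (1 + t ^ 2) ^ 3) t := by
  have hpos : (1 + t ^ 2) ≠ 0 := by positivity
  have h1 : HasDerivAt (fun t : ℝ => 1 + t ^ 2) (2 * t) t := by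
    simpa using (hasDerivAt_pow 2 t).const_add 1
  refine ((hasDerivAt_id t).div (h1.pow 2) (pow_ne_zero 2 hpos)).congr_deriv ?_
  simp only [id, Pi.pow_apply]
  field_simp
  ring

theorem tendsto_r1 : Tendsto (fun t : ℝ => t / (1 + t ^ 2)) atTop (𝓝 0) := by
  have h : Tendsto (fun t : ℝ => 1 / t) atTop (𝓝 0) := by
    simpa using tendsto_inv_atTop_zero (𝕜 := ℝ)
  refine tendsto_of_tendsto_of_tendsto_of_le_of_le' tendsto_const_nhds h ?_ ?_
  · filter_upwards [eventually_gt_atTop 0] with t ht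
    positivity
  · filter_upwards [eventually_gt_atTop 0] with t ht
    rw [div_le_div_iff₀ (by positivity) ht]
    nlinarith

theorem tendsto_r2 : Tendsto (fun t : ℝ => t / (1 + t ^ 2) ^ 2) atTop (𝓝 0) := by
  refine tendsto_of_tendsto_of_tendsto_of_le_of_le' tendsto_const_nhds tendsto_r1 ?_ ?_
  · filter_upwards [eventually_gt_atTop 0] with t ht
    positivity
  · filter_upwards [eventually_gt_atTop 0] with t ht
    apply div_le_div_of_nonneg_left ht.le (by positivity)
    nlinarith [sq_nonneg t, sq_nonneg (t ^ 2)]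

theorem tendsto_arctan' : Tendsto Real.arctan atTop (𝓝 (Real.pi / 2)) :=
  Real.tendsto_arctan_atTop.mono_right nhdsWithin_le_nhds

/-- The density `8/(3π) (1+t²)^{-3}`. -/
theorem isTarget4 : IsTarget
    (fun t => 1 / Real.pi * (Real.arctan t + t / (1 + t ^ 2) + 2 / 3 * (t / (1 + t ^ 2) ^ 2)))
    (fun t => 8 / (3 * Real.pi) / (1 + t ^ 2) ^ 3)
    (fun t => 1 / (3 * Real.pi) *
      (Real.arctan t + t / (1 + t ^ 2) - 2 * (t / (1 + t ^ 2) ^ 2))) (1 / 3) where
  cont := by
    apply Continuous.div continuous_const (by fun_prop)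
    intro t
    positivity
  pos := by
    intro t
    positivity
  hΦ := by
    intro t
    have hpos : (1 + t ^ 2) ≠ 0 := by positivity
    have hpi := Real.pi_pos
    refine ((((Real.hasDerivAt_arctan t).add (hasDerivAt_r1 t)).add
      ((hasDerivAt_r2 t).const_mul (2 / 3))).const_mul (1 / Real.pi)).congr_deriv ?_
    field_simp
    ring
  hM := by
    intro t
    have hpos : (1 + t ^ 2) ≠ 0 := by positivity
    have hpi := Real.pi_pos
    refine ((((Real.hasDerivAt_arctan t).add (hasDerivAt_r1 t)).sub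
      ((hasDerivAt_r2 t).const_mul 2)).const_mul (1 / (3 * Real.pi))).congr_deriv ?_
    field_simp
    ring
  oddΦ := by
    intro t
    simp only [Real.arctan_neg, neg_sq, neg_div]
    ring
  oddM := by
    intro t
    simp only [Real.arctan_neg, neg_sq, neg_div]
    ring
  limΦ := by
    have h := ((tendsto_arctan'.add tendsto_r1).add (tendsto_r2.const_mul (2 / 3))).const_mul
      (1 / Real.pi)
    convert h using 2
    have hpi := Real.pi_pos
    field_simp
    ring
  limM := by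
    have h := ((tendsto_arctan'.add tendsto_r1).sub (tendsto_r2.const_mul 2)).const_mul
      (1 / (3 * Real.pi))
    convert h using 2
    have hpi := Real.pi_pos
    field_simp
    ring

/-- The density `(2/π) (1+t²)^{-2}`. -/
theorem isTarget2 : IsTarget
    (fun t => 1 / Real.pi * (Real.arctan t + t / (1 + t ^ 2)))
    (fun t => 2 / Real.pi / (1 + t ^ 2) ^ 2)
    (fun t => 1 / Real.pi * (Real.arctan t - t / (1 + t ^ 2))) 1 where
  cont := by
    apply Continuous.div continuous_const (by fun_prop)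
    intro t
    positivity
  pos := by
    intro t
    positivity
  hΦ := by
    intro t
    have hpos : (1 + t ^ 2) ≠ 0 := by positivity
    have hpi := Real.pi_pos
    refine (((Real.hasDerivAt_arctan t).add (hasDerivAt_r1 t)).const_mul
      (1 / Real.pi)).congr_deriv ?_
    field_simp
    ring
  hM := by
    intro t
    have hpos : (1 + t ^ 2) ≠ 0 := by positivity
    have hpi := Real.pi_pos
    refine (((Real.hasDerivAt_arctan t).sub (hasDerivAt_r1 t)).const_mul
      (1 / Real.pi)).congr_deriv ?_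
    field_simp
    ring
  oddΦ := by
    intro t
    simp only [Real.arctan_neg, neg_sq, neg_div]
    ring
  oddM := by
    intro t
    simp only [Real.arctan_neg, neg_sq, neg_div]
    ring
  limΦ := by
    have h := (tendsto_arctan'.add tendsto_r1).const_mul (1 / Real.pi)
    convert h using 2
    have hpi := Real.pi_pos
    field_simp
    ring
  limM := by
    have h := (tendsto_arctan'.sub tendsto_r1).const_mul (1 / Real.pi)
    convert h using 2
    have hpi := Real.pi_pos
    field_simp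
    ring

theorem hasDerivAt_v (t : ℝ) :
    HasDerivAt (fun t : ℝ => √(1 + t ^ 2)) (t / √(1 + t ^ 2)) t := by
  have hpos : (1 + t ^ 2) ≠ 0 := by positivity
  have h1 : HasDerivAt (fun t : ℝ => 1 + t ^ 2) (2 * t) t := by
    simpa using (hasDerivAt_pow 2 t).const_add 1
  refine (h1.sqrt hpos).congr_deriv ?_
  ring

theorem hasDerivAt_u (t : ℝ) :
    HasDerivAt (fun t : ℝ => t / √(1 + t ^ 2)) (1 / √(1 + t ^ 2) ^ 3) t := by
  have hv : 0 < √(1 + t ^ 2) := Real.sqrt_pos.2 (by positivity)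
  have hv2 : √(1 + t ^ 2) ^ 2 = 1 + t ^ 2 := Real.sq_sqrt (by positivity)
  refine ((hasDerivAt_id t).div (hasDerivAt_v t) hv.ne').congr_deriv ?_
  simp only [id]
  field_simp
  rw [hv2]
  ring

theorem tendsto_u : Tendsto (fun t : ℝ => t / √(1 + t ^ 2)) atTop (𝓝 1) := by
  have h1 : Tendsto (fun t : ℝ => t ^ 2 / (1 + t ^ 2)) atTop (𝓝 1) := by
    have h2 : Tendsto (fun t : ℝ => 1 - (1 + t ^ 2)⁻¹) atTop (𝓝 (1 - 0)) := by
      apply Tendsto.sub tendsto_const_nhds
      apply tendsto_inv_atTop_zero.comp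
      apply tendsto_atTop_add_const_left
      exact tendsto_pow_atTop (by norm_num)
    rw [sub_zero] at h2
    refine h2.congr ?_
    intro t
    have hpos : (1 + t ^ 2) ≠ 0 := by positivity
    field_simp
    ring
  have h3 := (Real.continuous_sqrt.tendsto 1).comp h1
  rw [Real.sqrt_one] at h3
  refine h3.congr' ?_
  filter_upwards [eventually_gt_atTop 0] with t ht
  simp only [Function.comp]
  rw [Real.sqrt_div (by positivity), Real.sqrt_sq ht.le]

/-- The density `(3/4) (1+t²)^{-5/2}`. -/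
theorem isTarget3 : IsTarget
    (fun t => 3 / 4 * (t / √(1 + t ^ 2) - 1 / 3 * (t / √(1 + t ^ 2)) ^ 3))
    (fun t => 3 / 4 / √(1 + t ^ 2) ^ 5)
    (fun t => 1 / 4 * (t / √(1 + t ^ 2)) ^ 3) (1 / 2) where
  cont := by
    apply Continuous.div continuous_const (by fun_prop)
    intro t
    positivity
  pos := by
    intro t
    positivity
  hΦ := by
    intro t
    have hv : 0 < √(1 + t ^ 2) := Real.sqrt_pos.2 (by positivity)
    have hv2 : √(1 + t ^ 2) ^ 2 = 1 + t ^ 2 := Real.sq_sqrt (by positivity)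
    refine (((hasDerivAt_u t).sub (((hasDerivAt_u t).pow 3).const_mul (1 / 3))).const_mul
      (3 / 4)).congr_deriv ?_
    generalize √(1 + t ^ 2) = v at *
    have ht : t ^ 2 = v ^ 2 - 1 := by linarith
    have h31 : (3 : ℕ) - 1 = 2 := rfl
    simp only [h31]
    field_simp
    rw [ht]
    ring
  hM := by
    intro t
    have hv : 0 < √(1 + t ^ 2) := Real.sqrt_pos.2 (by positivity)
    have hv2 : √(1 + t ^ 2) ^ 2 = 1 + t ^ 2 := Real.sq_sqrt (by positivity)
    refine (((hasDerivAt_u t).pow 3).const_mul (1 / 4)).congr_deriv ?_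
    generalize √(1 + t ^ 2) = v at *
    have h31 : (3 : ℕ) - 1 = 2 := rfl
    simp only [h31]
    field_simp
    push_cast
    ring
  oddΦ := by
    intro t
    simp only [neg_sq, neg_div]
    ring
  oddM := by
    intro t
    simp only [neg_sq, neg_div]
    ring
  limΦ := by
    have h := (tendsto_u.sub ((tendsto_u.pow 3).const_mul (1 / 3))).const_mul (3 / 4)
    convert h using 2
    norm_num
  limM := by
    have h := (tendsto_u.pow 3).const_mul (1 / 4)
    convert h using 2
    norm_num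

end CT96
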