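import Pool.Agent.CT96.Split

/-!
The inequality `(8 ∫_D |∇w|² + 2 ∮ w²) ∫_D w⁴ ≥ 8 π c₀ ∫_D w⁶` on the unit disc.
-/

open MeasureTheory Set Filter Topology

namespace CT96

theorem PD_integrable {f : ℝ × ℝ → ℝ} (hf : Continuous f) : IntegrableOn f PD := by
  apply (hf.continuousOn.integrableOn_compact (compact_annulus 0 1 zero_le_one)).mono_set
  intro x hx
  exact ⟨hx.1.le, by rw [one_pow]; exact hx.2.le⟩

theorem PD_finite : volume PD < ⊤ := by
  refine lt_of_le_of_lt (measure_mono (t := {y : ℝ × ℝ | 0 ≤ nsq y ∧ nsq y ≤ 1 ^ 2}) ?_)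
    (compact_annulus 0 1 zero_le_one).measure_lt_top
  intro x hx
  exact ⟨hx.1.le, by rw [one_pow]; exact hx.2.le⟩

theorem integral_PD (f : ℝ × ℝ → ℝ) :
    ∫ x in PD, f x = ∫ x in {x : ℝ × ℝ | nsq x < 1}, f x :=
  setIntegral_congr_set PD_ae

/-- derivative of `cz` -/
noncomputable def cz' (t : ℝ) : ℝ :=
  145 / 1000 - 162 / 1000 * t - 318 / 1000 * t ^ 2 + 216 / 1000 * t ^ 3

theorem hasDerivAt_cz (t : ℝ) : HasDerivAt cz (cz' t) t := by
  have h := (((((hasDerivAt_id t).const_mul (145 / 1000 : ℝ)).const_add (366 / 1000 : ℝ)).sub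
    ((hasDerivAt_pow 2 t).const_mul (81 / 1000 : ℝ))).sub
    ((hasDerivAt_pow 3 t).const_mul (106 / 1000 : ℝ))).add
    ((hasDerivAt_pow 4 t).const_mul (54 / 1000 : ℝ))
  refine h.congr_deriv ?_
  unfold cz'
  push_cast
  ring

theorem sqrt_pow_four {a : ℝ} (ha : 0 ≤ a) : √a ^ 4 = a ^ 2 := by
  rw [show √a ^ 4 = (√a ^ 2) ^ 2 by ring, Real.sq_sqrt ha]

theorem sqrt_pow_six {a : ℝ} (ha : 0 ≤ a) : √a ^ 6 = a ^ 3 := by
  rw [show √a ^ 6 = (√a ^ 2) ^ 3 by ring, Real.sq_sqrt ha]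

theorem sqrt_pow_five_le {a : ℝ} (ha : 0 ≤ a) (ha1 : a ≤ 1) : √a ^ 5 ≤ a ^ 2 := by
  have h1 : √a ≤ 1 := by
    rw [Real.sqrt_le_left zero_le_one, one_pow]; exact ha1
  have h2 : √a ^ 5 = √a ^ 4 * √a := by ring
  rw [h2, sqrt_pow_four ha]
  exact mul_le_of_le_one_right (sq_nonneg a) h1

/-- pointwise bound for fourth powers -/
theorem four_le {w : ℝ × ℝ → ℝ} (h0 : ∀ x, 0 ≤ w x) (ε : ℝ) {x : ℝ × ℝ} (hx : x ∈ PD) :
    cJ1 (nsq x) * ph ε (Wt w (rmap m1 x)) ^ 4 +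
      cJ2 (nsq x) / nsq x ^ 2 * ph ε (Wt w (rmap m2 x)) ^ 4 ≤ 122 / 125 * w x ^ 4 := by
  have hx' : nsq x ∈ Icc (0 : ℝ) 1 := Ioo_subset_Icc_self hx
  have ht : 0 < nsq x := hx.1
  have hJ := cJ1_pos' hx'
  have hgp := cg_pos' hx'
  have hJ2 := cJ2_pos' (nsq x)
  have hHp := cH_pos' hx'
  have hw0 := h0 x
  have a1 : ph ε (Wt w (rmap m1 x)) ^ 4 ≤ cg (nsq x) ^ 2 * w x ^ 4 := by
    have h1 := Wt_nonneg h0 (rmap m1 x)
    have h2 := pow_le_pow_left₀ (ph_nonneg (ε := ε) h1) (ph_le h1) 4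
    refine h2.trans (le_of_eq ?_)
    rw [Wt_rmap1 w hx, mul_pow, sqrt_pow_four hgp.le]
  have a2 : ph ε (Wt w (rmap m2 x)) ^ 4 ≤ (nsq x * cH (nsq x)) ^ 2 * w x ^ 4 := by
    have h1 := Wt_nonneg h0 (rmap m2 x)
    have h2 := pow_le_pow_left₀ (ph_nonneg (ε := ε) h1) (ph_le h1) 4
    refine h2.trans (le_of_eq ?_)
    rw [Wt_rmap2 w hx, mul_pow, sqrt_pow_four (by positivity)]
  have c2 := cert2 hx'.1 hx'.2
  calc cJ1 (nsq x) * ph ε (Wt w (rmap m1 x)) ^ 4 +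
      cJ2 (nsq x) / nsq x ^ 2 * ph ε (Wt w (rmap m2 x)) ^ 4
      ≤ cJ1 (nsq x) * (cg (nsq x) ^ 2 * w x ^ 4) +
        cJ2 (nsq x) / nsq x ^ 2 * ((nsq x * cH (nsq x)) ^ 2 * w x ^ 4) :=
        add_le_add (mul_le_mul_of_nonneg_left a1 hJ.le)
          (mul_le_mul_of_nonneg_left a2 (by positivity))
    _ = (cg (nsq x) ^ 2 * cJ1 (nsq x) + cH (nsq x) ^ 2 * cJ2 (nsq x)) * w x ^ 4 := by
        field_simp
    _ ≤ 122 / 125 * w x ^ 4 := mul_le_mul_of_nonneg_right c2 (by positivity)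

/-- pointwise bound for sixth powers -/
theorem six_ge {w : ℝ × ℝ → ℝ} (h0 : ∀ x, 0 ≤ w x) {ε K : ℝ} (hε : 0 < ε) {x : ℝ × ℝ}
    (hx : x ∈ PD) (hK : w x ≤ K) :
    6193 / 10000 * w x ^ 6 - 36 * ε * K ^ 5 ≤
    cJ1 (nsq x) * ph ε (Wt w (rmap m1 x)) ^ 6 +
      cJ2 (nsq x) / nsq x ^ 2 * ph ε (Wt w (rmap m2 x)) ^ 6 := by
  have hx' : nsq x ∈ Icc (0 : ℝ) 1 := Ioo_subset_Icc_self hx
  have ht : 0 < nsq x := hx.1
  have ht1 : nsq x ≤ 1 := hx'.2
  have hJ := cJ1_pos' hx'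
  have hgp := cg_pos' hx'
  have hJ2 := cJ2_pos' (nsq x)
  have hHp := cH_pos' hx'
  have hw0 := h0 x
  have hK5 : w x ^ 5 ≤ K ^ 5 := pow_le_pow_left₀ hw0 hK 5
  have hg1 : cg (nsq x) ≤ 1 := by unfold cg; nlinarith
  have hH1 : cH (nsq x) ≤ 1 := by unfold cH; nlinarith
  have hJle : cJ1 (nsq x) ≤ 2 := by unfold cJ1; nlinarith
  have hJ2le : cJ2 (nsq x) ≤ 1 := by unfold cJ2; nlinarith
  have htH : nsq x * cH (nsq x) ≤ 1 := by
    calc nsq x * cH (nsq x) ≤ 1 * 1 := mul_le_mul ht1 hH1 hHp.le zero_le_one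
      _ = 1 := by norm_num
  have htH0 : 0 ≤ nsq x * cH (nsq x) := by positivity
  have a1 : cg (nsq x) ^ 3 * w x ^ 6 - 12 * ε * w x ^ 5 ≤ ph ε (Wt w (rmap m1 x)) ^ 6 := by
    have h1 := ph_pow_six hε (Wt_nonneg h0 (rmap m1 x))
    refine le_trans ?_ h1
    rw [Wt_rmap1 w hx, mul_pow, mul_pow, sqrt_pow_six hgp.le]
    have h2 : √(cg (nsq x)) ^ 5 ≤ 1 :=
      (sqrt_pow_five_le hgp.le hg1).trans (pow_le_one₀ hgp.le hg1)
    have h3 : 12 * ε * (√(cg (nsq x)) ^ 5 * w x ^ 5) ≤ 12 * ε * (1 * w x ^ 5) := by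
      apply mul_le_mul_of_nonneg_left _ (by positivity)
      exact mul_le_mul_of_nonneg_right h2 (by positivity)
    linarith
  have a2 : (nsq x * cH (nsq x)) ^ 3 * w x ^ 6 -
      12 * ε * ((nsq x * cH (nsq x)) ^ 2 * w x ^ 5) ≤ ph ε (Wt w (rmap m2 x)) ^ 6 := by
    have h1 := ph_pow_six hε (Wt_nonneg h0 (rmap m2 x))
    refine le_trans ?_ h1
    rw [Wt_rmap2 w hx, mul_pow √(nsq x * cH (nsq x)) (w x) 6,
      mul_pow √(nsq x * cH (nsq x)) (w x) 5, sqrt_pow_six htH0]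
    have h2 := sqrt_pow_five_le htH0 htH
    have h3 : 12 * ε * (√(nsq x * cH (nsq x)) ^ 5 * w x ^ 5) ≤
        12 * ε * ((nsq x * cH (nsq x)) ^ 2 * w x ^ 5) := by
      apply mul_le_mul_of_nonneg_left _ (by positivity)
      exact mul_le_mul_of_nonneg_right h2 (by positivity)
    linarith
  have c3 := cert3 hx'.1 hx'.2
  have b1 := mul_le_mul_of_nonneg_left a1 hJ.le
  have b2 := mul_le_mul_of_nonneg_left a2 (show 0 ≤ cJ2 (nsq x) / nsq x ^ 2 by positivity)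
  have e2 : cJ2 (nsq x) / nsq x ^ 2 * ((nsq x * cH (nsq x)) ^ 3 * w x ^ 6 -
      12 * ε * ((nsq x * cH (nsq x)) ^ 2 * w x ^ 5)) =
      nsq x * cH (nsq x) ^ 3 * cJ2 (nsq x) * w x ^ 6 -
        12 * ε * (cJ2 (nsq x) * cH (nsq x) ^ 2 * w x ^ 5) := by
    field_simp
  rw [e2] at b2
  have b3 : 6193 / 10000 * w x ^ 6 ≤
      (cg (nsq x) ^ 3 * cJ1 (nsq x) + nsq x * cH (nsq x) ^ 3 * cJ2 (nsq x)) * w x ^ 6 :=
    mul_le_mul_of_nonneg_right c3 (by positivity)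
  have b4 : 12 * ε * (cJ1 (nsq x) * w x ^ 5) ≤ 12 * ε * (2 * K ^ 5) := by
    apply mul_le_mul_of_nonneg_left _ (by positivity)
    exact mul_le_mul hJle hK5 (by positivity) (by norm_num)
  have b5 : 12 * ε * (cJ2 (nsq x) * cH (nsq x) ^ 2 * w x ^ 5) ≤ 12 * ε * (1 * K ^ 5) := by
    apply mul_le_mul_of_nonneg_left _ (by positivity)
    have h4 : cJ2 (nsq x) * cH (nsq x) ^ 2 ≤ 1 := by
      calc cJ2 (nsq x) * cH (nsq x) ^ 2 ≤ 1 * 1 :=
            mul_le_mul hJ2le (pow_le_one₀ hHp.le hH1) (by positivity) zero_le_one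
        _ = 1 := by norm_num
    exact mul_le_mul h4 hK5 (by positivity) zero_le_one
  have e3 : cJ1 (nsq x) * (cg (nsq x) ^ 3 * w x ^ 6 - 12 * ε * w x ^ 5) =
      cg (nsq x) ^ 3 * cJ1 (nsq x) * w x ^ 6 - 12 * ε * (cJ1 (nsq x) * w x ^ 5) := by ring
  rw [e3] at b1
  rw [add_mul] at b3
  linarith

/-- pointwise bound for the energy -/
theorem energy_le (w : ℝ × ℝ → ℝ) (ε : ℝ) {x : ℝ × ℝ} (hx : x ∈ PD) :
    cJ1 (nsq x) * ((th ε (Wt w (rmap m1 x)) * G1 w (rmap m1 x)) ^ 2 +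
        (th ε (Wt w (rmap m1 x)) * G2 w (rmap m1 x)) ^ 2) +
      cJ2 (nsq x) / nsq x ^ 2 * ((th ε (Wt w (rmap m2 x)) * G1 w (rmap m2 x)) ^ 2 +
        (th ε (Wt w (rmap m2 x)) * G2 w (rmap m2 x)) ^ 2) ≤
      121 / 80 * (d1 w x ^ 2 + d2 w x ^ 2) +
      (2 * (cz (nsq x) + nsq x * cz' (nsq x)) * w x ^ 2 +
        2 * cz (nsq x) * w x * (x.1 * d1 w x + x.2 * d2 w x)) := by
  have hx' : nsq x ∈ Icc (0 : ℝ) 1 := Ioo_subset_Icc_self hx
  have ht : 0 < nsq x := hx.1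
  have hJ := cJ1_pos' hx'
  have hJ2 := cJ2_pos' (nsq x)
  have h1 := grad1 w hx
  have h2 := grad2 w hx
  have h3 := I_le w hx
  have aux : ∀ (j τ a b : ℝ), 0 ≤ j → 0 ≤ τ → τ ≤ 1 →
      j * ((τ * a) ^ 2 + (τ * b) ^ 2) ≤ j * (a ^ 2 + b ^ 2) := by
    intro j τ a b hj hτ hτ1
    apply mul_le_mul_of_nonneg_left _ hj
    have h4 : τ ^ 2 ≤ 1 := pow_le_one₀ hτ hτ1
    nlinarith [sq_nonneg a, sq_nonneg b]
  have h5 := aux (cJ1 (nsq x)) (th ε (Wt w (rmap m1 x))) (G1 w (rmap m1 x)) (G2 w (rmap m1 x))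
    hJ.le (th_nonneg _ _) (th_le_one _ _)
  have h6 := aux (cJ2 (nsq x) / nsq x ^ 2) (th ε (Wt w (rmap m2 x))) (G1 w (rmap m2 x))
    (G2 w (rmap m2 x)) (by positivity) (th_nonneg _ _) (th_le_one _ _)
  have h7 : cZ1 (nsq x) = cz (nsq x) + nsq x * cz' (nsq x) := by
    unfold cZ1 cz cz'; ring
  rw [h1] at h5
  rw [h2] at h6
  rw [h7] at h3
  have h8 : dr w x = x.1 * d1 w x + x.2 * d2 w x := rfl
  rw [h8] at h3
  linarith

theorem disc_ineq (w : ℝ × ℝ → ℝ) (hw : ContDiff ℝ 1 w) (h0 : ∀ x, 0 ≤ w x) :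
    8 * Real.pi * (839 / 2000) * ∫ x in {x : ℝ × ℝ | x.1 ^ 2 + x.2 ^ 2 < 1}, w x ^ 6 ≤
      (8 * (∫ x in {x : ℝ × ℝ | x.1 ^ 2 + x.2 ^ 2 < 1},
          ((fderiv ℝ w x (1, 0)) ^ 2 + (fderiv ℝ w x (0, 1)) ^ 2)) +
        2 * ∫ θ in -Real.pi..Real.pi, w (Real.cos θ, Real.sin θ) ^ 2) *
      ∫ x in {x : ℝ × ℝ | x.1 ^ 2 + x.2 ^ 2 < 1}, w x ^ 4 := by
  change 8 * Real.pi * (839 / 2000) * ∫ x in {x : ℝ × ℝ | nsq x < 1}, w x ^ 6 ≤
      (8 * (∫ x in {x : ℝ × ℝ | nsq x < 1}, (d1 w x ^ 2 + d2 w x ^ 2)) +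
        2 * ∫ θ in -Real.pi..Real.pi, w (Real.cos θ, Real.sin θ) ^ 2) *
      ∫ x in {x : ℝ × ℝ | nsq x < 1}, w x ^ 4
  have hpi := Real.pi_pos
  have hwc := hw.continuous
  have h1c := continuous_d1 hw
  have h2c := continuous_d2 hw
  have hnc := continuous_nsq
  have hzc := cz_cont
  have hz'c : Continuous cz' := by unfold cz'; fun_prop
  set Dir := ∫ x in {x : ℝ × ℝ | nsq x < 1}, (d1 w x ^ 2 + d2 w x ^ 2) with hDir
  set Bd := ∫ θ in -Real.pi..Real.pi, w (Real.cos θ, Real.sin θ) ^ 2 with hBd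
  set a := ∫ x in {x : ℝ × ℝ | nsq x < 1}, w x ^ 4 with ha
  set b := ∫ x in {x : ℝ × ℝ | nsq x < 1}, w x ^ 6 with hb
  have hDir0 : 0 ≤ Dir := integral_nonneg fun x => by positivity
  have hBd0 : 0 ≤ Bd := intervalIntegral.integral_nonneg (by linarith) fun x _ => sq_nonneg _
  have ha0 : 0 ≤ a := integral_nonneg fun x => by positivity
  have hb0 : 0 ≤ b := integral_nonneg fun x => by
    have := h0 x
    positivity
  -- bound of `w` on the disc
  obtain ⟨K, hK⟩ := (compact_annulus 0 1 zero_le_one).exists_bound_of_continuousOn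
    hwc.continuousOn
  have hK' : ∀ x ∈ PD, w x ≤ K := by
    intro x hx
    have := hK x ⟨hx.1.le, by rw [one_pow]; exact hx.2.le⟩
    rw [Real.norm_eq_abs] at this
    exact (le_abs_self _).trans this
  -- right-hand side of the energy estimate
  have hRHSc : Continuous fun x : ℝ × ℝ => 121 / 80 * (d1 w x ^ 2 + d2 w x ^ 2) +
      (2 * (cz (nsq x) + nsq x * cz' (nsq x)) * w x ^ 2 +
        2 * cz (nsq x) * w x * (x.1 * d1 w x + x.2 * d2 w x)) := by fun_prop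
  have hRHS : ∫ x in PD, (121 / 80 * (d1 w x ^ 2 + d2 w x ^ 2) +
      (2 * (cz (nsq x) + nsq x * cz' (nsq x)) * w x ^ 2 +
        2 * cz (nsq x) * w x * (x.1 * d1 w x + x.2 * d2 w x))) ≤
      121 / 640 * (8 * Dir + 2 * Bd) := by
    rw [integral_add (PD_integrable (by fun_prop)) (PD_integrable (by fun_prop)),
      integral_const_mul, integral_PD, integral_PD,
      div_identity hw cz cz' hasDerivAt_cz hz'c, ← hDir, ← hBd]
    have : cz 1 = 378 / 1000 := by unfold cz; norm_num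
    rw [this]
    nlinarith
  have main : ∀ ε, 0 < ε → ε < 1 → Real.pi * (6193 / 10000) * b -
      (Real.pi * 36 * K ^ 5 * (volume PD).toReal) * ε ≤
      (121 / 640 * (8 * Dir + 2 * Bd)) * (122 / 125 * a) := by
    intro ε hε hε1
    obtain ⟨L, hL, hdec⟩ := Wt_decay hwc hε
    have hL0 : 0 < L := by linarith
    have hWc : Continuous fun y => ph ε (Wt w y) := (ph_cont ε).comp (Wt_cont hwc)
    have hzero : ∀ p : ℝ × ℝ, L ^ 2 ≤ nsq p → ph ε (Wt w p) = 0 := fun p hp =>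
      ph_zero hε (Wt_nonneg h0 p) (hdec p hp)
    have hB1 := BM_G1 hw hε hL hdec
    have hB2 := BM_G2 hw hε hL hdec
    have hBW := BM_W hwc h0 hε hL hdec
    have hpl := plane_ineq (fun y => ph ε (Wt w y)) (fun y => th ε (Wt w y) * G1 w y)
      (fun y => th ε (Wt w y) * G2 w y) L hL0 hWc (fun p => ph_nonneg (Wt_nonneg h0 p))
      (fun y => hzero _ (by unfold nsq; nlinarith [sq_nonneg y]))
      (fun y => hzero _ (by unfold nsq; nlinarith [sq_nonneg y]))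
      (fun y => hzero _ (by unfold nsq; nlinarith [sq_nonneg y]))
      (fun y => hzero _ (by unfold nsq; nlinarith [sq_nonneg y]))
      hB1 hB2 ?_ ?_
    · obtain ⟨i6, s6⟩ := box_split (fun y => ph ε (Wt w y) ^ 6) (hBW.pow 6) L hL0
        (fun p hp => by simp only [hzero p hp]; norm_num)
      obtain ⟨i4, s4⟩ := box_split (fun y => ph ε (Wt w y) ^ 4) (hBW.pow 4) L hL0
        (fun p hp => by simp only [hzero p hp]; norm_num)
      obtain ⟨iE, sE⟩ := box_split (fun y => (th ε (Wt w y) * G1 w y) ^ 2 +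
          (th ε (Wt w y) * G2 w y) ^ 2) ((hB1.pow 2).add (hB2.pow 2)) L hL0
        (fun p hp => by simp only [th_zero hε (hdec p hp)]; norm_num)
      rw [s6, s4, sE] at hpl
      rw [← integral_add (split_integrable1 _ i6) (split_integrable2 _ i6),
        ← integral_add (split_integrable1 _ i4) (split_integrable2 _ i4),
        ← integral_add (split_integrable1 _ iE) (split_integrable2 _ iE)] at hpl
      -- energy
      have kE : (∫ x in PD, (cJ1 (nsq x) * ((th ε (Wt w (rmap m1 x)) * G1 w (rmap m1 x)) ^ 2 +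
          (th ε (Wt w (rmap m1 x)) * G2 w (rmap m1 x)) ^ 2) +
          cJ2 (nsq x) / nsq x ^ 2 * ((th ε (Wt w (rmap m2 x)) * G1 w (rmap m2 x)) ^ 2 +
          (th ε (Wt w (rmap m2 x)) * G2 w (rmap m2 x)) ^ 2))) ≤
          121 / 640 * (8 * Dir + 2 * Bd) :=
        (setIntegral_mono_on ((split_integrable1 _ iE).add (split_integrable2 _ iE))
          (PD_integrable hRHSc) measurableSet_PD (fun x hx => energy_le w ε hx)).trans hRHS
      have k4 : (∫ x in PD, (cJ1 (nsq x) * ph ε (Wt w (rmap m1 x)) ^ 4 +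
          cJ2 (nsq x) / nsq x ^ 2 * ph ε (Wt w (rmap m2 x)) ^ 4)) ≤ 122 / 125 * a := by
        have h := setIntegral_mono_on ((split_integrable1 _ i4).add (split_integrable2 _ i4))
          (PD_integrable (show Continuous fun x => 122 / 125 * w x ^ 4 by fun_prop))
          measurableSet_PD (fun x hx => four_le h0 ε hx)
        refine h.trans (le_of_eq ?_)
        rw [integral_const_mul, integral_PD]
      have k6 : 6193 / 10000 * b - (volume PD).toReal * (36 * ε * K ^ 5) ≤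
          ∫ x in PD, (cJ1 (nsq x) * ph ε (Wt w (rmap m1 x)) ^ 6 +
          cJ2 (nsq x) / nsq x ^ 2 * ph ε (Wt w (rmap m2 x)) ^ 6) := by
        have h := setIntegral_mono_on
          (PD_integrable (show Continuous fun x => 6193 / 10000 * w x ^ 6 - 36 * ε * K ^ 5 by
            fun_prop))
          ((split_integrable1 _ i6).add (split_integrable2 _ i6))
          measurableSet_PD (fun x hx => six_ge h0 hε hx (hK' x hx))
        refine le_trans (le_of_eq ?_) h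
        rw [integral_sub (PD_integrable (by fun_prop)) (PD_integrable (by fun_prop)),
          integral_const_mul, integral_PD, ← hb, setIntegral_const, smul_eq_mul]
        rfl
      have k40 : 0 ≤ ∫ x in PD, (cJ1 (nsq x) * ph ε (Wt w (rmap m1 x)) ^ 4 +
          cJ2 (nsq x) / nsq x ^ 2 * ph ε (Wt w (rmap m2 x)) ^ 4) := by
        apply setIntegral_nonneg measurableSet_PD
        intro x hx
        have hx' : nsq x ∈ Icc (0 : ℝ) 1 := Ioo_subset_Icc_self hx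
        have := cJ1_pos' hx'
        have := cJ2_pos' (nsq x)
        positivity
      have hX0 : 0 ≤ 121 / 640 * (8 * Dir + 2 * Bd) := by positivity
      have k7 := mul_le_mul kE k4 k40 hX0
      have k8 := mul_le_mul_of_nonneg_left k6 hpi.le
      refine le_trans (le_of_eq ?_) (k8.trans (hpl.trans k7))
      ring
    · intro y
      refine ⟨{s : ℝ | s ^ 2 + y ^ 2 = 1}, finite_sol _, ?_⟩
      intro x hx
      exact (ph_hasDerivAt ε _).comp x (Wt_deriv1 hw x y hx.2)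
    · intro x
      refine ⟨{s : ℝ | s ^ 2 + x ^ 2 = 1}, finite_sol _, ?_⟩
      intro y hy
      exact (ph_hasDerivAt ε _).comp y (Wt_deriv2 hw x y (by
        intro h
        apply hy.2
        show y ^ 2 + x ^ 2 = 1
        linarith))
  have fin := le_of_forall_small main
  have h9 : 8 * Real.pi * (839 / 2000) * b ≤ 8 * Real.pi * (6193 / 14762) * b := by
    apply mul_le_mul_of_nonneg_right _ hb0
    nlinarith
  refine h9.trans ?_
  have h10 : 8 * Real.pi * (6193 / 14762) * b =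
      (640 * 125 / (121 * 122)) * (Real.pi * (6193 / 10000) * b) := by ring
  rw [h10]
  have h11 := mul_le_mul_of_nonneg_left fin (show (0 : ℝ) ≤ 640 * 125 / (121 * 122) by norm_num)
  refine h11.trans (le_of_eq ?_)
  ring

end CT96
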