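import Mathlib

/-!
Auxiliary real analysis: inverse of a function with positive derivative on a compact interval,
and monotone transport of a density on an interval to a truncated target density.
-/

open MeasureTheory Set Filter Topology

namespace CT96

/-- Inverse of a function with continuous positive derivative on `[a,b]`. -/
theorem exists_inv (φ φ' : ℝ → ℝ) (a b : ℝ) (hab : a ≤ b)
    (hd : ∀ t ∈ Icc a b, HasDerivAt φ (φ' t) t) (hc : ContinuousOn φ' (Icc a b))
    (hpos : ∀ t ∈ Icc a b, 0 < φ' t) :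
    ∃ ψ : ℝ → ℝ, Continuous ψ ∧ (∀ t ∈ Icc a b, ψ (φ t) = t) ∧
      (∀ y ∈ Icc (φ a) (φ b), ψ y ∈ Icc a b ∧ φ (ψ y) = y ∧ HasDerivAt ψ (φ' (ψ y))⁻¹ y) ∧
      Monotone ψ := by
  obtain ⟨t₀, ht₀, hmin⟩ := isCompact_Icc.exists_isMinOn (nonempty_Icc.2 hab) hc
  set δ := φ' t₀ with hδ
  have hδ0 : 0 < δ := hpos t₀ ht₀
  set g : ℝ → ℝ := fun t => φ' (projIcc a b hab t) with hg
  have hgc : Continuous g := by
    have : g = IccExtend hab (fun t : Icc a b => φ' t) := rfl
    rw [this]
    exact (continuousOn_iff_continuous_domRestrict.1 hc).Icc_extend'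
  have hgδ : ∀ t, δ ≤ g t := fun t => hmin (projIcc a b hab t).2
  have hg_eq : ∀ t ∈ Icc a b, g t = φ' t := by
    intro t ht
    simp only [hg]
    rw [projIcc_of_mem hab ht]
  set Φ : ℝ → ℝ := fun t => φ a + ∫ u in a..t, g u with hΦ
  have hΦd : ∀ t, HasDerivAt Φ (g t) t := by
    intro t
    have := intervalIntegral.integral_hasDerivAt_right (hgc.intervalIntegrable a t)
      (hgc.stronglyMeasurableAtFilter _ _) hgc.continuousAt
    exact this.const_add (φ a)
  have hΦc : Continuous Φ := continuous_iff_continuousAt.2 fun t => (hΦd t).continuousAt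
  have hΦm : StrictMono Φ := by
    apply strictMono_of_deriv_pos
    intro t
    rw [(hΦd t).deriv]
    exact hδ0.trans_le (hgδ t)
  have hgrow : ∀ s t, s ≤ t → δ * (t - s) ≤ Φ t - Φ s := by
    intro s t hst
    have h1 : Φ t - Φ s = ∫ u in s..t, g u := by
      simp only [hΦ]
      rw [add_sub_add_left_eq_sub, intervalIntegral.integral_interval_sub_left]
      · exact hgc.intervalIntegrable _ _
      · exact hgc.intervalIntegrable _ _
    rw [h1]
    have h2 : ∫ u in s..t, δ ≤ ∫ u in s..t, g u :=
      intervalIntegral.integral_mono_on hst (by simp) (hgc.intervalIntegrable _ _)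
        (fun u _ => hgδ u)
    simpa [mul_comm] using h2
  have hΦs : Function.Surjective Φ := by
    apply hΦc.surjective
    · apply tendsto_atTop_mono' atTop (f₁ := fun t => δ * (t - a) + Φ a)
      · filter_upwards [eventually_ge_atTop a] with t ht
        have := hgrow a t ht
        linarith
      · apply tendsto_atTop_add_const_right
        apply Tendsto.const_mul_atTop hδ0
        exact tendsto_atTop_add_const_right _ _ tendsto_id
    · have h5 : Φ ≤ᶠ[atBot] fun t => Φ a + δ * (t - a) := by
        filter_upwards [eventually_le_atBot a] with t ht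
        have := hgrow t a ht
        linarith
      refine tendsto_atBot_mono' atBot h5 ?_
      · apply tendsto_atBot_add_const_left
        apply Tendsto.const_mul_atBot hδ0
        exact tendsto_atBot_add_const_right _ _ tendsto_id
  have hΦeq : ∀ t ∈ Icc a b, Φ t = φ t := by
    intro t ht
    have h1 : ∫ u in a..t, g u = φ t - φ a := by
      rw [intervalIntegral.integral_congr (g := φ')]
      · apply intervalIntegral.integral_eq_sub_of_hasDerivAt
        · intro u hu
          rw [uIcc_of_le ht.1] at hu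
          exact hd u ⟨hu.1, hu.2.trans ht.2⟩
        · apply ContinuousOn.intervalIntegrable
          rw [uIcc_of_le ht.1]
          exact hc.mono (Icc_subset_Icc_right ht.2)
      · intro u hu
        rw [uIcc_of_le ht.1] at hu
        exact hg_eq u ⟨hu.1, hu.2.trans ht.2⟩
    simp only [hΦ, h1]
    ring
  set e : ℝ ≃o ℝ := hΦm.orderIsoOfSurjective Φ hΦs with he
  have he_apply : ∀ t, e t = Φ t := fun t => rfl
  refine ⟨e.symm, e.symm.continuous, ?_, ?_, e.symm.monotone⟩
  · intro t ht
    rw [← hΦeq t ht, ← he_apply, e.symm_apply_apply]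
  · intro y hy
    have ha : e a = φ a := by rw [he_apply, hΦeq a (left_mem_Icc.2 hab)]
    have hb : e b = φ b := by rw [he_apply, hΦeq b (right_mem_Icc.2 hab)]
    have hmem : e.symm y ∈ Icc a b := by
      constructor
      · rw [e.le_symm_apply, ha]; exact hy.1
      · rw [e.symm_apply_le, hb]; exact hy.2
    have hval : φ (e.symm y) = y := by
      rw [← hΦeq _ hmem, ← he_apply, e.apply_symm_apply]
    refine ⟨hmem, hval, ?_⟩
    have h3 : HasDerivAt Φ (g (e.symm y)) (e.symm y) := hΦd _
    rw [hg_eq _ hmem] at h3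
    exact HasDerivAt.of_local_left_inverse e.symm.continuous.continuousAt h3
      (hpos _ hmem).ne' (Eventually.of_forall fun z => e.apply_symm_apply z)

/-- Monotone transport of the density `b` on `[p,q]` onto the truncation to `[-R,R]` of a
density `G` with primitive `Φ`; `M` is a primitive of `t ^ 2 * G t`. -/
theorem transport (Φ G M : ℝ → ℝ) (hG : Continuous G) (hG0 : ∀ t, 0 < G t)
    (hΦ : ∀ t, HasDerivAt Φ (G t) t) (hM : ∀ t, HasDerivAt M (t ^ 2 * G t) t)
    (R : ℝ) (hR : 0 < R) (hΦR : Φ (-R) = -Φ R) (hMR : M (-R) = -M R)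
    (b : ℝ → ℝ) (hb : Continuous b) (hb0 : ∀ y, 0 ≤ b y) (p q : ℝ) (hpq : p ≤ q)
    (hβ : 0 < ∫ y in p..q, b y) :
    ∃ T : ℝ → ℝ, Continuous T ∧ (∀ y ∈ Icc p q, |T y| ≤ R) ∧
      (∀ y ∈ Icc p q, HasDerivAt T (2 * Φ R * b y / ((∫ y in p..q, b y) * G (T y))) y) ∧
      T p = -R ∧ T q = R ∧
      ∫ y in p..q, b y * T y ^ 2 = (∫ y in p..q, b y) * (M R / Φ R) := by
  set β := ∫ y in p..q, b y with hβdef
  have hΦpos : 0 < Φ R := by
    have hm : StrictMono Φ := by
      apply strictMono_of_deriv_pos
      intro t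
      rw [(hΦ t).deriv]
      exact hG0 t
    have := hm (show -R < R by linarith)
    rw [hΦR] at this
    linarith
  obtain ⟨ψ, hψc, hψl, hψr, hψm⟩ := exists_inv Φ G (-R) R (by linarith)
    (fun t _ => hΦ t) hG.continuousOn (fun t _ => hG0 t)
  set S : ℝ → ℝ := fun y => ∫ u in p..y, b u with hS
  have hSd : ∀ y, HasDerivAt S (b y) y := fun y =>
    intervalIntegral.integral_hasDerivAt_right (hb.intervalIntegrable p y)
      (hb.stronglyMeasurableAtFilter _ _) hb.continuousAt
  have hSc : Continuous S := continuous_iff_continuousAt.2 fun t => (hSd t).continuousAt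
  have hSm : Monotone S := by
    apply monotone_of_deriv_nonneg (fun y => (hSd y).differentiableAt)
    intro y
    rw [(hSd y).deriv]
    exact hb0 y
  have hSp : S p = 0 := by simp [hS]
  have hSq : S q = β := rfl
  set σ : ℝ → ℝ := fun y => 2 * Φ R / β * S y - Φ R with hσ
  have hσd : ∀ y, HasDerivAt σ (2 * Φ R / β * b y) y := fun y =>
    ((hSd y).const_mul _).sub_const _
  have hσmem : ∀ y ∈ Icc p q, σ y ∈ Icc (Φ (-R)) (Φ R) := by
    intro y hy
    have h1 : 0 ≤ S y := by rw [← hSp]; exact hSm hy.1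
    have h2 : S y ≤ β := by rw [← hSq]; exact hSm hy.2
    rw [hΦR]
    constructor
    · have : 0 ≤ 2 * Φ R / β * S y := by positivity
      simp only [hσ]; linarith
    · have : 2 * Φ R / β * S y ≤ 2 * Φ R / β * β :=
        mul_le_mul_of_nonneg_left h2 (by positivity)
      rw [div_mul_cancel₀ _ hβ.ne'] at this
      simp only [hσ]; linarith
  have hTd : ∀ y ∈ Icc p q,
      HasDerivAt (ψ ∘ σ) (2 * Φ R * b y / (β * G ((ψ ∘ σ) y))) y := by
    intro y hy
    have h1 := (hψr (σ y) (hσmem y hy)).2.2
    have h2 := HasDerivAt.comp y h1 (hσd y)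
    refine h2.congr_deriv ?_
    have := hG0 ((ψ ∘ σ) y)
    have h7 : G (ψ (σ y)) = G ((ψ ∘ σ) y) := rfl
    rw [h7]
    field_simp
  refine ⟨ψ ∘ σ, hψc.comp ((continuous_const.mul hSc).sub continuous_const), ?_, hTd, ?_, ?_, ?_⟩
  · intro y hy
    have := (hψr (σ y) (hσmem y hy)).1
    rw [abs_le]
    exact this
  · have : σ p = Φ (-R) := by simp only [hσ, hSp, hΦR]; ring
    simp only [Function.comp, this]
    exact hψl _ (left_mem_Icc.2 (by linarith))
  · have : σ q = Φ R := by
      simp only [hσ, hSq]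
      rw [div_mul_cancel₀ _ hβ.ne']; ring
    simp only [Function.comp, this]
    exact hψl _ (right_mem_Icc.2 (by linarith))
  · have hTp : (ψ ∘ σ) p = -R := by
      have : σ p = Φ (-R) := by simp only [hσ, hSp, hΦR]; ring
      simp only [Function.comp, this]
      exact hψl _ (left_mem_Icc.2 (by linarith))
    have hTq : (ψ ∘ σ) q = R := by
      have : σ q = Φ R := by
        simp only [hσ, hSq]
        rw [div_mul_cancel₀ _ hβ.ne']; ring
      simp only [Function.comp, this]
      exact hψl _ (right_mem_Icc.2 (by linarith))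
    have h1 : ∫ y in p..q, 2 * Φ R / β * (b y * (ψ ∘ σ) y ^ 2) =
        M ((ψ ∘ σ) q) - M ((ψ ∘ σ) p) := by
      apply intervalIntegral.integral_eq_sub_of_hasDerivAt (f := fun y => M ((ψ ∘ σ) y))
      · intro y hy
        rw [uIcc_of_le hpq] at hy
        have h2 := HasDerivAt.comp y (hM ((ψ ∘ σ) y)) (hTd y hy)
        refine h2.congr_deriv ?_
        have := hG0 ((ψ ∘ σ) y)
        field_simp
      · apply Continuous.intervalIntegrable
        exact continuous_const.mul (hb.mul
          ((hψc.comp ((continuous_const.mul hSc).sub continuous_const)).pow 2))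
    rw [intervalIntegral.integral_const_mul, hTp, hTq, hMR] at h1
    have h3 : ∫ y in p..q, b y * (ψ ∘ σ) y ^ 2 = (M R - -M R) / (2 * Φ R / β) := by
      rw [← h1]
      field_simp
    rw [h3, div_div_eq_mul_div]
    field_simp
    ring

end CT96
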