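import Mathlib

/-!
Iterated interval integrals of bounded measurable functions.
-/

open MeasureTheory Set Filter Topology

namespace CT96

/-- Bounded on compact boxes and measurable. -/
def BM (F : ℝ × ℝ → ℝ) : Prop := Measurable F ∧ ∃ K, ∀ p, |F p| ≤ K

theorem BM.integrable {F : ℝ × ℝ → ℝ} (hF : BM F) (s t : Set ℝ) (hs : volume s < ⊤)
    (ht : volume t < ⊤) : IntegrableOn F (s ×ˢ t) := by
  obtain ⟨hm, K, hK⟩ := hF
  refine Measure.integrableOn_of_bounded (M := K) ?_ hm.aestronglyMeasurable ?_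
  · rw [Measure.volume_eq_prod, Measure.prod_prod]
    exact (ENNReal.mul_lt_top hs ht).ne
  · exact ae_of_all _ fun p => by rw [Real.norm_eq_abs]; exact hK p

theorem BM.swap {F : ℝ × ℝ → ℝ} (hF : BM F) (a b c d : ℝ) :
    ∫ x in a..b, ∫ y in c..d, F (x, y) = ∫ y in c..d, ∫ x in a..b, F (x, y) := by
  apply intervalIntegral_intervalIntegral_swap (F := fun x y => F (x, y))
  apply hF.integrable
  · exact measure_Ioc_lt_top
  · exact measure_Ioc_lt_top

theorem BM.slice_left {F : ℝ × ℝ → ℝ} (hF : BM F) (y a b : ℝ) :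
    IntervalIntegrable (fun x => F (x, y)) volume a b := by
  obtain ⟨hm, K, hK⟩ := hF
  constructor <;>
  · refine Measure.integrableOn_of_bounded (M := K) measure_Ioc_lt_top.ne
      (hm.comp (measurable_id.prodMk measurable_const)).aestronglyMeasurable ?_
    exact ae_of_all _ fun p => by rw [Real.norm_eq_abs]; exact hK _

theorem BM.slice_right {F : ℝ × ℝ → ℝ} (hF : BM F) (x a b : ℝ) :
    IntervalIntegrable (fun y => F (x, y)) volume a b := by
  obtain ⟨hm, K, hK⟩ := hF
  constructor <;>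
  · refine Measure.integrableOn_of_bounded (M := K) measure_Ioc_lt_top.ne
      (hm.comp (measurable_const.prodMk measurable_id)).aestronglyMeasurable ?_
    exact ae_of_all _ fun p => by rw [Real.norm_eq_abs]; exact hK _

theorem BM.comp_swap {F : ℝ × ℝ → ℝ} (hF : BM F) : BM (fun p => F (p.2, p.1)) :=
  ⟨hF.1.comp (measurable_snd.prodMk measurable_fst), hF.2.imp fun _ h p => h _⟩

theorem BM.inner {F : ℝ × ℝ → ℝ} (hF : BM F) (a b c d : ℝ) (hab : a ≤ b) :
    IntervalIntegrable (fun y => ∫ x in a..b, F (x, y)) volume c d := by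
  obtain ⟨hm, K, hK⟩ := hF
  have hmeas : StronglyMeasurable (fun y => ∫ x in a..b, F (x, y)) := by
    simp_rw [intervalIntegral.integral_of_le hab]
    apply StronglyMeasurable.integral_prod_left'
    exact hm.stronglyMeasurable
  constructor <;>
  · refine Measure.integrableOn_of_bounded (M := K * |b - a|) measure_Ioc_lt_top.ne
      hmeas.aestronglyMeasurable ?_
    exact ae_of_all _ fun y =>
      intervalIntegral.norm_integral_le_of_norm_le_const fun x _ => hK _

theorem BM.pow {F : ℝ × ℝ → ℝ} (hF : BM F) (n : ℕ) : BM (fun p => F p ^ n) := by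
  obtain ⟨hm, K, hK⟩ := hF
  refine ⟨hm.pow_const n, K ^ n, fun p => ?_⟩
  rw [abs_pow]
  exact pow_le_pow_left₀ (abs_nonneg _) (hK p) n

theorem BM.add {F G : ℝ × ℝ → ℝ} (hF : BM F) (hG : BM G) : BM (fun p => F p + G p) := by
  obtain ⟨hm, K, hK⟩ := hF
  obtain ⟨hm', K', hK'⟩ := hG
  exact ⟨hm.add hm', K + K', fun p => (abs_add_le _ _).trans (add_le_add (hK p) (hK' p))⟩

theorem BM.mul {F G : ℝ × ℝ → ℝ} (hF : BM F) (hG : BM G) : BM (fun p => F p * G p) := by
  obtain ⟨hm, K, hK⟩ := hF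
  obtain ⟨hm', K', hK'⟩ := hG
  refine ⟨hm.mul hm', K * K', fun p => ?_⟩
  rw [abs_mul]
  exact mul_le_mul (hK p) (hK' p) (abs_nonneg _) ((abs_nonneg _).trans (hK p))

end CT96
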