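import Mathlib

/-!
The explicit polynomials of the two-sheet transplantation (in the variable `t = |x|²`).
-/

namespace CT96

/-- `R`, sheet 1 is `|y|² = t R t`. -/
noncomputable def cR (t : ℝ) : ℝ := 620 / 1000 + 284 / 1000 * t + 96 / 1000 * t ^ 2
/-- derivative of `R` -/
noncomputable def cR' (t : ℝ) : ℝ := 284 / 1000 + 192 / 1000 * t
/-- `J₁ = R + t R'` -/
noncomputable def cJ1 (t : ℝ) : ℝ := 620 / 1000 + 568 / 1000 * t + 288 / 1000 * t ^ 2
/-- `S`, sheet 2 is `|y|² = S t / t`. -/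
noncomputable def cS (t : ℝ) : ℝ := 677 / 1000 + 533 / 1000 * t - 210 / 1000 * t ^ 2
/-- derivative of `S` -/
noncomputable def cS' (t : ℝ) : ℝ := 533 / 1000 - 420 / 1000 * t
/-- `J₂ = S - t S'` -/
noncomputable def cJ2 (t : ℝ) : ℝ := 677 / 1000 + 210 / 1000 * t ^ 2
/-- square of the weight of sheet 1 -/
noncomputable def cg (t : ℝ) : ℝ := 1 - 447 / 1000 * t + 87 / 1000 * t ^ 2
/-- derivative of `g` -/
noncomputable def cg' (t : ℝ) : ℝ := -447 / 1000 + 174 / 1000 * t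
/-- the square of the weight of sheet 2 is `t H t` -/
noncomputable def cH (t : ℝ) : ℝ := 725 / 1000 - 29 / 1000 * t - 56 / 1000 * t ^ 2
/-- derivative of `t H t` -/
noncomputable def cH1 (t : ℝ) : ℝ := 725 / 1000 - 58 / 1000 * t - 168 / 1000 * t ^ 2
/-- the multiplier `ζ` -/
noncomputable def cz (t : ℝ) : ℝ :=
  366 / 1000 + 145 / 1000 * t - 81 / 1000 * t ^ 2 - 106 / 1000 * t ^ 3 + 54 / 1000 * t ^ 4
/-- derivative of `t ζ t` -/
noncomputable def cZ1 (t : ℝ) : ℝ :=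
  366 / 1000 + 290 / 1000 * t - 243 / 1000 * t ^ 2 - 424 / 1000 * t ^ 3 + 270 / 1000 * t ^ 4

end CT96
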