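import Pool.Agent.CT96.Trans
import Pool.Agent.CT9.Cert

/-!
Pointwise energy comparison for the two-sheet transplantation.
-/

open MeasureTheory Set Filter Topology

namespace CT96

theorem energy1 {t r s g' R' p q W J : ℝ} (ht : 0 < t) (hr : 0 < r) (hs : 0 < s)
    (hJ : J = r ^ 2 + t * R') (hJ0 : 0 < J) :
    J * (((2 * (t * r ^ 2) * (g' / (2 * s) * J⁻¹) * W + s * (r⁻¹ + 2 * (t * r ^ 2) *
      (-(R' / (2 * r ^ 3)) * J⁻¹)) * (r * p)) ^ 2 + (s * r⁻¹ * (r * q)) ^ 2) / (t * r ^ 2)) =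
    (r ^ 2 / J) * (t * g' ^ 2 * W ^ 2 / s ^ 2 + 2 * g' * W * p + s ^ 2 * (p ^ 2 / t)) +
      (J / r ^ 2) * s ^ 2 * (q ^ 2 / t) := by
  have hR : R' = (J - r ^ 2) / t := by
    rw [hJ]; field_simp; ring
  subst hR
  field_simp
  ring

theorem energy2 {t r s H H1 S' p q W J : ℝ} (ht : 0 < t) (hr : 0 < r) (hs : 0 < s)
    (hH : 0 < H) (hsH : s ^ 2 = t * H) (hJ : J = r ^ 2 - t * S') (hJ0 : 0 < J) :
    J / t ^ 2 * (((2 * (r ^ 2 / t) * (H1 / (2 * s) * (-(t ^ 2 / J))) * W + s * (t / r +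
      2 * (r ^ 2 / t) * ((2 * r ^ 2 - t * S') / (2 * r ^ 3) * (-(t ^ 2 / J)))) *
      (r / t * p)) ^ 2 + (s * (t / r) * (r / t * q)) ^ 2) / (r ^ 2 / t)) =
    (r ^ 2 / J) * (H1 ^ 2 * W ^ 2 / H + 2 * H1 * W * p + H * p ^ 2) + (J / r ^ 2) * H * q ^ 2 := by
  have hS : S' = (r ^ 2 - J) / t := by
    rw [hJ]; field_simp; ring
  have hH' : H = s ^ 2 / t := by rw [hsH]; field_simp
  subst hS
  subst hH'
  field_simp
  ring

/-- radial derivative of `w` -/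
noncomputable def dr (w : ℝ × ℝ → ℝ) (x : ℝ × ℝ) : ℝ := x.1 * d1 w x + x.2 * d2 w x
/-- angular derivative of `w` -/
noncomputable def da (w : ℝ × ℝ → ℝ) (x : ℝ × ℝ) : ℝ := x.1 * d2 w x - x.2 * d1 w x

/-- pulled back energy density of sheet 1 -/
noncomputable def I1 (w : ℝ × ℝ → ℝ) (x : ℝ × ℝ) : ℝ :=
  (cR (nsq x) / cJ1 (nsq x)) * (nsq x * cg' (nsq x) ^ 2 * w x ^ 2 / cg (nsq x) +
    2 * cg' (nsq x) * w x * dr w x + cg (nsq x) * (dr w x ^ 2 / nsq x)) +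
    (cJ1 (nsq x) / cR (nsq x)) * cg (nsq x) * (da w x ^ 2 / nsq x)

/-- pulled back energy density of sheet 2 -/
noncomputable def I2 (w : ℝ × ℝ → ℝ) (x : ℝ × ℝ) : ℝ :=
  (cS (nsq x) / cJ2 (nsq x)) * (cH1 (nsq x) ^ 2 * w x ^ 2 / cH (nsq x) +
    2 * cH1 (nsq x) * w x * dr w x + cH (nsq x) * dr w x ^ 2) +
    (cJ2 (nsq x) / cS (nsq x)) * cH (nsq x) * da w x ^ 2

/-- The gradient of the transplanted function, first component. -/
noncomputable def G1 (w : ℝ × ℝ → ℝ) (y : ℝ × ℝ) : ℝ :=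
  if nsq y ≤ 1 then D1 w (Ga1 (nsq y)) (Ga1' (nsq y)) (nu1 (nsq y)) (nu1' (nsq y)) y
  else D1 w (Ga2 (nsq y)) (Ga2' (nsq y)) (nu2 (nsq y)) (nu2' (nsq y)) y

/-- The gradient of the transplanted function, second component. -/
noncomputable def G2 (w : ℝ × ℝ → ℝ) (y : ℝ × ℝ) : ℝ :=
  if nsq y ≤ 1 then D2 w (Ga1 (nsq y)) (Ga1' (nsq y)) (nu1 (nsq y)) (nu1' (nsq y)) y
  else D2 w (Ga2 (nsq y)) (Ga2' (nsq y)) (nu2 (nsq y)) (nu2' (nsq y)) y

theorem grad1 (w : ℝ × ℝ → ℝ) {x : ℝ × ℝ} (hx : x ∈ PD) :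
    cJ1 (nsq x) * (G1 w (rmap m1 x) ^ 2 + G2 w (rmap m1 x) ^ 2) = I1 w x := by
  have hx' : nsq x ∈ Icc (0 : ℝ) 1 := Ioo_subset_Icc_self hx
  have h1 : nsq (rmap m1 x) ≤ 1 := by rw [nsq1 hx]; exact (tcR_lt hx).le
  unfold G1 G2
  rw [if_pos h1, if_pos h1]
  have hg := grad_sq w (Ga1 (nsq (rmap m1 x))) (Ga1' (nsq (rmap m1 x)))
    (nu1 (nsq (rmap m1 x))) (nu1' (nsq (rmap m1 x))) (rmap m1 x)
  rw [nu1_rmap hx] at hg
  have ht := hx.1
  have hR := cR_pos' hx'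
  have hJ := cJ1_pos' hx'
  have hgp := cg_pos' hx'
  have hr : 0 < √(cR (nsq x)) := Real.sqrt_pos.2 hR
  have hr2 : √(cR (nsq x)) ^ 2 = cR (nsq x) := Real.sq_sqrt hR.le
  have hs : 0 < √(cg (nsq x)) := Real.sqrt_pos.2 hgp
  have hs2 : √(cg (nsq x)) ^ 2 = cg (nsq x) := Real.sq_sqrt hgp.le
  have e1 : Ga1 (nsq (rmap m1 x)) = √(cg (nsq x)) := by unfold Ga1; rw [tau_nsq1 hx]
  have e2 : Ga1' (nsq (rmap m1 x)) = cg' (nsq x) / (2 * √(cg (nsq x))) * (cJ1 (nsq x))⁻¹ := by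
    unfold Ga1'; rw [tau_nsq1 hx]
  have e3 : nu1 (nsq (rmap m1 x)) = (√(cR (nsq x)))⁻¹ := by unfold nu1; rw [tau_nsq1 hx]
  have e4 : nu1' (nsq (rmap m1 x)) =
      -(cR' (nsq x) / (2 * √(cR (nsq x)) ^ 3)) * (cJ1 (nsq x))⁻¹ := by
    unfold nu1'; rw [tau_nsq1 hx]
  have e5 : (rmap m1 x).1 * d1 w x + (rmap m1 x).2 * d2 w x = √(cR (nsq x)) * dr w x := by
    simp only [rmap, m1, dr]; ring
  have e6 : (rmap m1 x).1 * d2 w x - (rmap m1 x).2 * d1 w x = √(cR (nsq x)) * da w x := by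
    simp only [rmap, m1, da]; ring
  have e7 : nsq (rmap m1 x) = nsq x * √(cR (nsq x)) ^ 2 := by rw [nsq1 hx, hr2]
  rw [e1, e2, e3, e4, e5, e6] at hg
  have hpos : 0 < nsq (rmap m1 x) := by rw [nsq1 hx]; positivity
  have hg2 := (eq_div_iff hpos.ne').2 ((mul_comm _ _).trans hg)
  rw [e1, e2, e3, e4, hg2, e7]
  have := energy1 (t := nsq x) (r := √(cR (nsq x))) (s := √(cg (nsq x))) (g' := cg' (nsq x))
    (R' := cR' (nsq x)) (p := dr w x) (q := da w x) (W := w x) (J := cJ1 (nsq x)) ht hr hs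
    (by rw [hr2]; unfold cJ1 cR cR'; ring) hJ
  rw [this, hr2, hs2]
  rfl

theorem grad2 (w : ℝ × ℝ → ℝ) {x : ℝ × ℝ} (hx : x ∈ PD) :
    cJ2 (nsq x) / nsq x ^ 2 * (G1 w (rmap m2 x) ^ 2 + G2 w (rmap m2 x) ^ 2) = I2 w x := by
  have hx' : nsq x ∈ Icc (0 : ℝ) 1 := Ioo_subset_Icc_self hx
  have ht := hx.1
  have h1' : 1 < nsq (rmap m2 x) := by
    rw [nsq2 hx, lt_div_iff₀ hx.1, one_mul]
    exact lt_cS hx
  have h1 : ¬ nsq (rmap m2 x) ≤ 1 := not_le.2 h1'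
  unfold G1 G2
  rw [if_neg h1, if_neg h1]
  have hg := grad_sq w (Ga2 (nsq (rmap m2 x))) (Ga2' (nsq (rmap m2 x)))
    (nu2 (nsq (rmap m2 x))) (nu2' (nsq (rmap m2 x))) (rmap m2 x)
  rw [nu2_rmap hx] at hg
  have hS := cS_pos' hx'
  have hJ := cJ2_pos' (nsq x)
  have hHp := cH_pos' hx'
  have hr : 0 < √(cS (nsq x)) := Real.sqrt_pos.2 hS
  have hr2 : √(cS (nsq x)) ^ 2 = cS (nsq x) := Real.sq_sqrt hS.le
  have hs : 0 < √(nsq x * cH (nsq x)) := Real.sqrt_pos.2 (by positivity)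
  have hs2 : √(nsq x * cH (nsq x)) ^ 2 = nsq x * cH (nsq x) := Real.sq_sqrt (by positivity)
  have e1 : Ga2 (nsq (rmap m2 x)) = √(nsq x * cH (nsq x)) := by unfold Ga2; rw [tau_nsq2 hx]
  have e2 : Ga2' (nsq (rmap m2 x)) = cH1 (nsq x) / (2 * √(nsq x * cH (nsq x))) *
      (-(nsq x ^ 2 / cJ2 (nsq x))) := by
    unfold Ga2'; rw [tau_nsq2 hx]
  have e3 : nu2 (nsq (rmap m2 x)) = nsq x / √(cS (nsq x)) := by unfold nu2; rw [tau_nsq2 hx]
  have e4 : nu2' (nsq (rmap m2 x)) =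
      (2 * √(cS (nsq x)) ^ 2 - nsq x * cS' (nsq x)) / (2 * √(cS (nsq x)) ^ 3) *
        (-(nsq x ^ 2 / cJ2 (nsq x))) := by
    unfold nu2'; rw [tau_nsq2 hx, hr2]
  have e5 : (rmap m2 x).1 * d1 w x + (rmap m2 x).2 * d2 w x =
      √(cS (nsq x)) / nsq x * dr w x := by
    simp only [rmap, m2, dr]; ring
  have e6 : (rmap m2 x).1 * d2 w x - (rmap m2 x).2 * d1 w x =
      √(cS (nsq x)) / nsq x * da w x := by
    simp only [rmap, m2, da]; ring
  have e7 : nsq (rmap m2 x) = √(cS (nsq x)) ^ 2 / nsq x := by rw [nsq2 hx, hr2]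
  rw [e1, e2, e3, e4, e5, e6] at hg
  have hpos : 0 < nsq (rmap m2 x) := by linarith
  have hg2 := (eq_div_iff hpos.ne').2 ((mul_comm _ _).trans hg)
  rw [e1, e2, e3, e4, hg2, e7]
  have := energy2 (t := nsq x) (r := √(cS (nsq x))) (s := √(nsq x * cH (nsq x)))
    (H := cH (nsq x)) (H1 := cH1 (nsq x)) (S' := cS' (nsq x)) (p := dr w x) (q := da w x)
    (W := w x) (J := cJ2 (nsq x)) ht hr hs hHp hs2
    (by rw [hr2]; unfold cJ2 cS cS'; ring) hJ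
  rw [this, hr2]
  rfl

/-- The pointwise comparison given by the certificate. -/
theorem I_le (w : ℝ × ℝ → ℝ) {x : ℝ × ℝ} (hx : x ∈ PD) :
    I1 w x + I2 w x ≤ 121 / 80 * (d1 w x ^ 2 + d2 w x ^ 2) +
      (2 * cZ1 (nsq x) * w x ^ 2 + 2 * cz (nsq x) * w x * dr w x) := by
  have hx' : nsq x ∈ Icc (0 : ℝ) 1 := Ioo_subset_Icc_self hx
  have ht : 0 < nsq x := hx.1
  have hR := cR_pos' hx'
  have hJ := cJ1_pos' hx'
  have hgp := cg_pos' hx'
  have hS := cS_pos' hx'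
  have hJ2 := cJ2_pos' (nsq x)
  have hHp := cH_pos' hx'
  have hgrad : d1 w x ^ 2 + d2 w x ^ 2 = dr w x ^ 2 / nsq x + da w x ^ 2 / nsq x := by
    rw [← add_div, eq_div_iff ht.ne']
    simp only [dr, da, nsq]
    ring
  have c1 := cert1 hx'.1 hx'.2
  have cP := certP_nonneg hx'.1 hx'.2
  have cN := certN_nonneg hx'.1 hx'.2
  have c4 := cert4 hx'.1 hx'.2
  rw [hgrad]
  -- difference as a quadratic form
  have key : 121 / 80 * (dr w x ^ 2 / nsq x + da w x ^ 2 / nsq x) +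
      (2 * cZ1 (nsq x) * w x ^ 2 + 2 * cz (nsq x) * w x * dr w x) - (I1 w x + I2 w x) =
      (121 / 80 - (cg (nsq x) * cJ1 (nsq x) / cR (nsq x) +
        nsq x * cH (nsq x) * cJ2 (nsq x) / cS (nsq x))) * (da w x ^ 2 / nsq x) +
      (certP (nsq x) * (dr w x ^ 2 / nsq x) + 2 * (cz (nsq x) - certM (nsq x)) * w x * dr w x +
        certN (nsq x) * w x ^ 2) := by
    unfold I1 I2 certP certM certN
    field_simp
    ring
  have k1 : 0 ≤ (121 / 80 - (cg (nsq x) * cJ1 (nsq x) / cR (nsq x) +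
        nsq x * cH (nsq x) * cJ2 (nsq x) / cS (nsq x))) * (da w x ^ 2 / nsq x) :=
    mul_nonneg (by linarith) (by positivity)
  have k2 : 0 ≤ certP (nsq x) * (dr w x ^ 2 / nsq x) +
      2 * (cz (nsq x) - certM (nsq x)) * w x * dr w x + certN (nsq x) * w x ^ 2 := by
    generalize certP (nsq x) = P at *
    generalize certN (nsq x) = N at *
    generalize certM (nsq x) = M at *
    generalize cz (nsq x) = z at *
    generalize nsq x = t at *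
    generalize dr w x = p at *
    generalize w x = W at *
    rcases cP.eq_or_lt with h | h
    · rw [← h, zero_mul] at c4
      have h3 : (M - z) ^ 2 = 0 := by
        have h4 : 0 ≤ t * (M - z) ^ 2 := by positivity
        have h5 : t * (M - z) ^ 2 = 0 := le_antisymm c4 h4
        rcases mul_eq_zero.1 h5 with h6 | h6
        · exact absurd h6 ht.ne'
        · exact h6
      have h4 : z - M = 0 := by
        have := pow_eq_zero_iff (two_ne_zero) |>.1 h3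
        linarith
      rw [← h, h4]
      have : 0 ≤ N * W ^ 2 := by positivity
      linarith
    · have h1 : P * (P * (p ^ 2 / t) + 2 * (z - M) * W * p + N * W ^ 2) =
          (P * p + t * (z - M) * W) ^ 2 / t + (P * N - t * (M - z) ^ 2) * W ^ 2 := by
        field_simp
        ring
      have h2 : 0 ≤ (P * p + t * (z - M) * W) ^ 2 / t + (P * N - t * (M - z) ^ 2) * W ^ 2 :=
        add_nonneg (by positivity) (mul_nonneg (by linarith) (sq_nonneg _))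
      rw [← h1] at h2
      exact nonneg_of_mul_nonneg_right h2 h
  linarith

end CT96
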