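import Pool.Agent.CT.Solid

/-!
# The region `C` is bounded by the stereographic image of the Clifford torus
-/

namespace Pool.Agent.CT

open MeasureTheory Metric Set Filter Topology Real
open scoped ContDiff

lemma norm_invStereo (p : E3) :
    ‖(invStereo p).1‖ ^ 2 = 4 * (p 0 ^ 2 + p 1 ^ 2) / (1 + ‖p‖ ^ 2) ^ 2 ∧
    ‖(invStereo p).2‖ ^ 2 = (4 * p 2 ^ 2 + (‖p‖ ^ 2 - 1) ^ 2) / (1 + ‖p‖ ^ 2) ^ 2 := by
  have h1 : 0 < 1 + ‖p‖ ^ 2 := by positivity
  set n := ‖p‖ ^ 2 with hndef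
  constructor
  · rw [Complex.sq_norm, Complex.normSq_apply]
    simp only [invStereo]
    field_simp
    ring
  · rw [Complex.sq_norm, Complex.normSq_apply]
    simp only [invStereo]
    field_simp
    ring

lemma mem_cliffordImage_iff (p : E3) :
    p ∈ cliffordImage ↔ (√(p 0 ^ 2 + p 1 ^ 2) - √2) ^ 2 + p 2 ^ 2 = 1 := by
  have h1 : 0 < 1 + ‖p‖ ^ 2 := by positivity
  have hn := norm_sq_E3 p
  obtain ⟨e1, e2⟩ := norm_invStereo p
  set n := ‖p‖ ^ 2 with hndef
  set s := √(p 0 ^ 2 + p 1 ^ 2) with hs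
  have hs2 : s ^ 2 = p 0 ^ 2 + p 1 ^ 2 := Real.sq_sqrt (by positivity)
  have hs0 : 0 ≤ s := Real.sqrt_nonneg _
  have h2 : (√2) ^ 2 = 2 := Real.sq_sqrt (by norm_num)
  have h20 : 0 < √2 := by positivity
  rw [← hs2] at e1 hn
  have hsum : ‖(invStereo p).1‖ ^ 2 + ‖(invStereo p).2‖ ^ 2 = 1 := by
    rw [e1, e2, hn]; field_simp; ring
  have hhalf : (1 / √2) ^ 2 = 1 / 2 := by rw [div_pow, h2, one_pow]
  have key : p ∈ cliffordImage ↔ ‖(invStereo p).1‖ ^ 2 = ‖(invStereo p).2‖ ^ 2 := by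
    constructor
    · rintro ⟨a, b⟩
      rw [a, b]
    · intro h
      have ha : ‖(invStereo p).1‖ ^ 2 = (1 / √2) ^ 2 := by rw [hhalf]; linarith
      have hb : ‖(invStereo p).2‖ ^ 2 = (1 / √2) ^ 2 := by rw [hhalf]; linarith
      exact ⟨(sq_eq_sq₀ (norm_nonneg _) (by positivity)).1 ha,
        (sq_eq_sq₀ (norm_nonneg _) (by positivity)).1 hb⟩
  rw [key, e1, e2, div_left_inj' (by positivity)]
  have h3 : (4 * s ^ 2 = 4 * p 2 ^ 2 + (n - 1) ^ 2) ↔ (1 + n) ^ 2 = (2 * √2 * s) ^ 2 := by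
    have : (2 * √2 * s) ^ 2 = 8 * s ^ 2 := by ring_nf; rw [h2]; ring
    rw [this]
    constructor <;> intro h <;> nlinarith [hn, hs2]
  rw [h3, sq_eq_sq₀ h1.le (by positivity)]
  constructor <;> intro h <;> nlinarith [hn, hs2, h2]

lemma frontier_torus {L : ℝ} (hL : 1 < L) :
    frontier (torus L) = {p | (√(p 0 ^ 2 + p 1 ^ 2) - L) ^ 2 + p 2 ^ 2 = 1} := by
  rw [frontier, closure_torus hL, isOpen_torus.interior_eq]
  ext p
  simp only [torusC, torus, Set.mem_sdiff, mem_ofPred_eq, not_lt]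
  constructor
  · rintro ⟨h1, h2⟩
    exact le_antisymm h1 h2
  · intro h
    exact ⟨h.le, h.ge⟩

lemma one_lt_sqrt_two : 1 < √2 := by
  rw [Real.lt_sqrt zero_le_one]
  norm_num

/-- `C` is a smooth bounded domain whose closure is a solid torus and whose boundary is the image
of the Clifford torus. -/
theorem clifford_facts : IsSmoothBoundedDomain cliffordRegion ∧
    IsSolidTorus (closure cliffordRegion) ∧ frontier cliffordRegion = cliffordImage := by
  rw [cliffordRegion_eq]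
  refine ⟨isSmoothBoundedDomain_torus one_lt_sqrt_two, isSolidTorus_torus one_lt_sqrt_two, ?_⟩
  rw [frontier_torus one_lt_sqrt_two]
  ext p
  rw [mem_cliffordImage_iff]
  rfl

end Pool.Agent.CT
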