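import Pool.Agent.CT96.Targets

/-!
The sharp one-dimensional inequality `(∫ f'^2) (∫ f^4)^4 ≥ (4 π² / 27) (∫ f^6)^3`
for nonnegative functions vanishing at the ends of an interval.
-/

open MeasureTheory Set Filter Topology

namespace CT96

/-- Pointwise inequality used for the line: with `P = (1+T²) f²`. -/
theorem line_pointwise {a b F P : ℝ} (ha : 0 < a) (hb : 0 < b) (hF : 0 ≤ F) (hP : 0 ≤ P) :
    2 * Real.pi ^ 2 / 3 * (b ^ 2 / a ^ 4) * (P * F) ≤
      Real.pi ^ 2 / 8 * (P ^ 3 * F) / a ^ 2 + 16 * Real.pi ^ 2 / 27 * (b ^ 3 / a ^ 5) * F := by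
  have key : 0 ≤ (a * P - 4 * b / 3) ^ 2 * (a * P + 8 * b / 3) / 8 := by positivity
  have h1 : Real.pi ^ 2 / 8 * (P ^ 3 * F) / a ^ 2 + 16 * Real.pi ^ 2 / 27 * (b ^ 3 / a ^ 5) * F -
      2 * Real.pi ^ 2 / 3 * (b ^ 2 / a ^ 4) * (P * F) =
      Real.pi ^ 2 * F / a ^ 5 * ((a * P - 4 * b / 3) ^ 2 * (a * P + 8 * b / 3) / 8) := by
    field_simp
    ring
  have h2 : 0 ≤ Real.pi ^ 2 * F / a ^ 5 * ((a * P - 4 * b / 3) ^ 2 * (a * P + 8 * b / 3) / 8) := by
    positivity
  linarith

/-- Lower bound for the Dirichlet energy of `f` by a transport `T`. -/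
theorem ibp_bound (f f' T T' : ℝ → ℝ) (L lam : ℝ) (hL : 0 < L) (hf : Continuous f)
    (hl : f (-L) = 0) (hr : f L = 0) (S : Set ℝ) (hS : S.Countable)
    (hd : ∀ x ∈ Ioo (-L) L \ S, HasDerivAt f (f' x) x)
    (hi1 : IntervalIntegrable f' volume (-L) L)
    (hi2 : IntervalIntegrable (fun x => f' x ^ 2) volume (-L) L)
    (hTc : Continuous T) (hT'c : Continuous T') (hTd' : ∀ y ∈ Icc (-L) L, HasDerivAt T (T' y) y) :
    (∫ x in -L..L, (lam / 2 * (f x ^ 4 * T' x) - lam ^ 2 * (f x ^ 6 * T x ^ 2))) ≤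
      ∫ x in -L..L, f' x ^ 2 := by
  have hLL : -L ≤ L := by linarith
  set h : ℝ → ℝ := fun x => -(lam / 2) * (f x ^ 4 * T x) with hh
  set h' : ℝ → ℝ := fun x => -(lam / 2) * (4 * f x ^ 3 * f' x * T x + f x ^ 4 * T' x) with hh'
  have hh'i : IntervalIntegrable h' volume (-L) L := by
    have e1 : h' = fun x => (-(lam / 2) * (4 * f x ^ 3 * T x)) * f' x +
        (-(lam / 2) * (f x ^ 4 * T' x)) := by
      funext x; simp only [hh']; ring
    rw [e1]
    apply IntervalIntegrable.add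
    · apply IntervalIntegrable.continuousOn_mul hi1
      fun_prop
    · apply Continuous.intervalIntegrable
      fun_prop
  have hibp : ∫ x in -L..L, h' x = 0 := by
    rw [integral_eq_of_hasDerivAt_off_countable_of_le h h' hLL hS
      (by simp only [hh]; fun_prop) ?_ hh'i]
    · simp [hh, hl, hr]
    · intro x hx
      have h1 := hd x hx
      have h2 := hTd' x (Ioo_subset_Icc_self hx.1)
      refine (((h1.pow 4).mul h2).const_mul (-(lam / 2))).congr_deriv ?_
      simp only [hh']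
      push_cast
      simp only [Pi.pow_apply]
  have hpt : ∀ x, h' x + lam / 2 * (f x ^ 4 * T' x) - lam ^ 2 * (f x ^ 6 * T x ^ 2) ≤
      f' x ^ 2 := by
    intro x
    have := sq_nonneg (f' x + lam * f x ^ 3 * T x)
    simp only [hh']
    nlinarith [this]
  have h3 : ∫ x in -L..L, (h' x + (lam / 2 * (f x ^ 4 * T' x) -
      lam ^ 2 * (f x ^ 6 * T x ^ 2))) ≤ ∫ x in -L..L, f' x ^ 2 := by
    apply intervalIntegral.integral_mono_on hLL
    · apply hh'i.add
      apply Continuous.intervalIntegrable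
      fun_prop
    · exact hi2
    · intro x _
      have := hpt x
      linarith
  rw [intervalIntegral.integral_add hh'i, hibp, zero_add] at h3
  · exact h3
  · apply Continuous.intervalIntegrable
    fun_prop

/-- The integral of `f ^ 4` is positive if that of `f ^ 6` is. -/
theorem pos_of_pos6 (f : ℝ → ℝ) (L : ℝ) (hL : 0 < L) (hf : Continuous f) (hf0 : ∀ x, 0 ≤ f x)
    (hb : 0 < ∫ x in -L..L, f x ^ 6) : 0 < ∫ x in -L..L, f x ^ 4 := by
  have hLL : -L ≤ L := by linarith
  have ha0 : 0 ≤ ∫ x in -L..L, f x ^ 4 :=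
    intervalIntegral.integral_nonneg hLL fun x _ => by positivity
  rcases ha0.eq_or_lt with h | h
  · exfalso
    obtain ⟨K, hK⟩ := (isCompact_Icc (a := -L) (b := L)).exists_bound_of_continuousOn
      (hf.continuousOn)
    have h1 : ∫ x in -L..L, f x ^ 6 ≤ ∫ x in -L..L, K ^ 2 * f x ^ 4 := by
      apply intervalIntegral.integral_mono_on hLL
      · exact (hf.pow 6).intervalIntegrable _ _
      · exact (continuous_const.mul (hf.pow 4)).intervalIntegrable _ _
      · intro x hx
        have h2 := hK x hx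
        rw [Real.norm_eq_abs, abs_of_nonneg (hf0 x)] at h2
        have h3 : f x ^ 2 ≤ K ^ 2 := pow_le_pow_left₀ (hf0 x) h2 2
        calc f x ^ 6 = f x ^ 2 * f x ^ 4 := by ring
          _ ≤ K ^ 2 * f x ^ 4 := mul_le_mul_of_nonneg_right h3 (by positivity)
    rw [intervalIntegral.integral_const_mul, ← h, mul_zero] at h1
    linarith
  · exact h

theorem line_ineq (f f' : ℝ → ℝ) (L : ℝ) (hL : 0 < L) (hf : Continuous f) (hf0 : ∀ x, 0 ≤ f x)
    (hl : f (-L) = 0) (hr : f L = 0) (S : Set ℝ) (hS : S.Countable)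
    (hd : ∀ x ∈ Ioo (-L) L \ S, HasDerivAt f (f' x) x)
    (hi1 : IntervalIntegrable f' volume (-L) L)
    (hi2 : IntervalIntegrable (fun x => f' x ^ 2) volume (-L) L) :
    4 * Real.pi ^ 2 / 27 * (∫ x in -L..L, f x ^ 6) ^ 3 ≤
      (∫ x in -L..L, f' x ^ 2) * (∫ x in -L..L, f x ^ 4) ^ 4 := by
  have hLL : -L ≤ L := by linarith
  set a := ∫ x in -L..L, f x ^ 4 with ha_def
  set b := ∫ x in -L..L, f x ^ 6 with hb_def
  set e := ∫ x in -L..L, f' x ^ 2 with he_def
  have he0 : 0 ≤ e := intervalIntegral.integral_nonneg hLL fun x _ => sq_nonneg _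
  have ha0 : 0 ≤ a := intervalIntegral.integral_nonneg hLL fun x _ => by positivity
  have hb0 : 0 ≤ b := intervalIntegral.integral_nonneg hLL fun x _ => by
    have := hf0 x
    positivity
  rcases hb0.eq_or_lt with hb | hb
  · rw [← hb]
    have : 0 ≤ e * a ^ 4 := by positivity
    simpa using this
  have ha : 0 < a := pos_of_pos6 f L hL hf hf0 hb
  set lam := 2 * Real.pi / 3 * (b / a ^ 2) with hlam
  set mu := 16 * Real.pi ^ 2 / 27 * (b ^ 3 / a ^ 5) with hmu
  -- the main estimate for each truncated transport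
  have main : ∀ δ, 0 < δ → δ < 1 → 4 * Real.pi ^ 2 / 27 * b ^ 3 -
      (20 * Real.pi ^ 2 * b ^ 3) * δ ≤ e * a ^ 4 := by
    intro δ hδ hδ1
    obtain ⟨R, m₀, m₁, hR, hm0, hm0', hm0'', hm1, hT⟩ := isTarget4.exists_transport hδ
    obtain ⟨T, hTc, hTR, hTd, hTp, hTq, hTm⟩ := hT (fun x => f x ^ 6) (-L) L (hf.pow 6)
      (fun y => by have := hf0 y; positivity) hLL hb
    rw [← hb_def] at hTm
    -- derivative of `T`
    set T' : ℝ → ℝ := fun y =>
      m₀ * (f y ^ 6 / (b * (8 / (3 * Real.pi) / (1 + T y ^ 2) ^ 3))) with hT'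
    have hT'c : Continuous T' := by
      apply continuous_const.mul
      apply (hf.pow 6).div
      · apply continuous_const.mul
        apply continuous_const.div (by fun_prop)
        intro x; positivity
      · intro x
        have := Real.pi_pos
        positivity
    have hTd' : ∀ y ∈ Icc (-L) L, HasDerivAt T (T' y) y := hTd
    have hint1 := ibp_bound f f' T T' L lam hL hf hl hr S hS hd hi1 hi2 hTc hT'c hTd'
    rw [← he_def] at hint1
    have hpt2 : ∀ x, m₀ * (2 * Real.pi ^ 2 / 3 * (b ^ 2 / a ^ 4)) * (f x ^ 6 + f x ^ 6 * T x ^ 2) -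
        lam ^ 2 * (f x ^ 6 * T x ^ 2) - mu * f x ^ 4 ≤
        lam / 2 * (f x ^ 4 * T' x) - lam ^ 2 * (f x ^ 6 * T x ^ 2) := by
      intro x
      have h4 := line_pointwise ha hb (F := f x ^ 4) (P := (1 + T x ^ 2) * f x ^ 2)
        (by positivity) (by positivity)
      have h5 : lam / 2 * (f x ^ 4 * T' x) =
          m₀ * (Real.pi ^ 2 / 8 * (((1 + T x ^ 2) * f x ^ 2) ^ 3 * f x ^ 4) / a ^ 2) := by
        have hpi := Real.pi_pos
        simp only [hT', hlam]
        field_simp
      have h6 : m₀ * (mu * f x ^ 4) ≤ 1 * (mu * f x ^ 4) := by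
        apply mul_le_mul_of_nonneg_right hm0''
        have := Real.pi_pos
        positivity
      rw [h5]
      have h7 := mul_le_mul_of_nonneg_left h4 hm0.le
      have h8 : (1 + T x ^ 2) * f x ^ 2 * f x ^ 4 = f x ^ 6 + f x ^ 6 * T x ^ 2 := by ring
      rw [h8] at h7
      rw [mul_add, ← hmu] at h7
      nlinarith [h7, h6]
    have hint2 : m₀ * (2 * Real.pi ^ 2 / 3 * (b ^ 2 / a ^ 4)) * (b + b * m₁) -
        lam ^ 2 * (b * m₁) - mu * a ≤ e := by
      refine le_trans ?_ hint1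
      have h9 : m₀ * (2 * Real.pi ^ 2 / 3 * (b ^ 2 / a ^ 4)) * (b + b * m₁) -
        lam ^ 2 * (b * m₁) - mu * a = ∫ x in -L..L,
          (m₀ * (2 * Real.pi ^ 2 / 3 * (b ^ 2 / a ^ 4)) * (f x ^ 6 + f x ^ 6 * T x ^ 2) -
          lam ^ 2 * (f x ^ 6 * T x ^ 2) - mu * f x ^ 4) := by
        rw [intervalIntegral.integral_sub, intervalIntegral.integral_sub,
          intervalIntegral.integral_const_mul, intervalIntegral.integral_const_mul,
          intervalIntegral.integral_const_mul, intervalIntegral.integral_add, hTm, ← ha_def,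
          ← hb_def]
        all_goals apply Continuous.intervalIntegrable; fun_prop
      rw [h9]
      apply intervalIntegral.integral_mono_on hLL
      · apply Continuous.intervalIntegrable; fun_prop
      · apply Continuous.intervalIntegrable; fun_prop
      · intro x _
        exact hpt2 x
    -- conclusion
    have hpi := Real.pi_pos
    have ha4 : 0 < a ^ 4 := by positivity
    have h10 := mul_le_mul_of_nonneg_right hint2 ha4.le
    have h11 : (m₀ * (2 * Real.pi ^ 2 / 3 * (b ^ 2 / a ^ 4)) * (b + b * m₁) -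
        lam ^ 2 * (b * m₁) - mu * a) * a ^ 4 =
        Real.pi ^ 2 * b ^ 3 * (2 / 3 * m₀ * (1 + m₁) - 4 / 9 * m₁ - 16 / 27) := by
      simp only [hlam, hmu]
      field_simp
      ring
    rw [h11] at h10
    refine le_trans ?_ h10
    obtain ⟨h12, h13⟩ := abs_le.1 hm1
    have h14 : 4 / 27 - 20 * δ ≤ 2 / 3 * m₀ * (1 + m₁) - 4 / 9 * m₁ - 16 / 27 := by
      have h15 : (1 - δ) * (4 / 3 - δ) ≤ m₀ * (1 + m₁) := by
        apply mul_le_mul hm0' (by linarith) (by linarith) hm0.le
      nlinarith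
    have h16 : 0 < Real.pi ^ 2 * b ^ 3 := by positivity
    calc 4 * Real.pi ^ 2 / 27 * b ^ 3 - (20 * Real.pi ^ 2 * b ^ 3) * δ
        = Real.pi ^ 2 * b ^ 3 * (4 / 27 - 20 * δ) := by ring
      _ ≤ _ := mul_le_mul_of_nonneg_left h14 h16.le
  exact le_of_forall_small main

end CT96
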