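import Pool.Agent.CT96.Line
import Pool.Agent.CT96.Box

/-!
The sharp planar inequality `(∫ |∇W|²) (∫ W⁴) ≥ π ∫ W⁶` for nonnegative functions supported in a
square.
-/

open MeasureTheory Set Filter Topology

namespace CT96

theorem amgm5 {X Y Z Q : ℝ} (hX : 0 ≤ X) (hY : 0 ≤ Y) (hZ : 0 ≤ Z) (hQ : 0 ≤ Q)
    (h : Q ^ 5 ≤ X * Y ^ 2 * Z ^ 2) : 5 * Q ≤ X + 2 * Y + 2 * Z := by
  have h1 := Real.geom_mean_le_arith_mean3_weighted (w₁ := 1 / 5) (w₂ := 2 / 5) (w₃ := 2 / 5)
    (by norm_num) (by norm_num) (by norm_num) hX hY hZ (by norm_num)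
  have h2 : Q ≤ X ^ (1 / 5 : ℝ) * Y ^ (2 / 5 : ℝ) * Z ^ (2 / 5 : ℝ) := by
    have h3 : Q = (Q ^ 5) ^ (1 / 5 : ℝ) := by
      rw [← Real.rpow_natCast, ← Real.rpow_mul hQ]
      norm_num
    have h4 : X ^ (1 / 5 : ℝ) * Y ^ (2 / 5 : ℝ) * Z ^ (2 / 5 : ℝ) =
        (X * Y ^ 2 * Z ^ 2) ^ (1 / 5 : ℝ) := by
      have e1 : (Y ^ 2) ^ (1 / 5 : ℝ) = Y ^ (2 / 5 : ℝ) := by
        rw [← Real.rpow_natCast Y 2, ← Real.rpow_mul hY]; norm_num
      have e2 : (Z ^ 2) ^ (1 / 5 : ℝ) = Z ^ (2 / 5 : ℝ) := by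
        rw [← Real.rpow_natCast Z 2, ← Real.rpow_mul hZ]; norm_num
      rw [Real.mul_rpow (by positivity) (by positivity), Real.mul_rpow hX (by positivity),
        e1, e2]
    rw [h4, h3]
    exact Real.rpow_le_rpow (by positivity) h (by norm_num)
  linarith

/-- Pointwise inequality used for the second slicing. -/
theorem plane_pointwise {e a b α β v : ℝ} (he : 0 ≤ e) (ha : 0 ≤ a) (hb : 0 ≤ b) (hα : 0 < α)
    (hβ : 0 < β) (hv : 0 < v) (h : 4 * Real.pi ^ 2 / 27 * b ^ 3 ≤ e * a ^ 4) :
    5 * Real.pi / (3 * α) * (v ^ 2 * b) ≤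
      e + √(Real.pi / α) / 2 * (a * (b / (β * (3 / 4 / v ^ 5)))) +
        Real.pi * β / α ^ 2 * a := by
  have hpi := Real.pi_pos
  have hl : 0 < √(Real.pi / α) := Real.sqrt_pos.2 (by positivity)
  have hl2 : √(Real.pi / α) ^ 2 = Real.pi / α := Real.sq_sqrt (by positivity)
  set l := √(Real.pi / α) with hl_def
  have key := amgm5 (X := e) (Y := l / 4 * (a * (b / (β * (3 / 4 / v ^ 5)))))
    (Z := Real.pi * β / α ^ 2 * a / 2) (Q := Real.pi * v ^ 2 * b / (3 * α)) he
    (by positivity) (by positivity) (by positivity) ?_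
  · have e1 : 5 * (Real.pi * v ^ 2 * b / (3 * α)) = 5 * Real.pi / (3 * α) * (v ^ 2 * b) := by
      ring
    rw [e1] at key
    linarith
  · have e2 : e * (l / 4 * (a * (b / (β * (3 / 4 / v ^ 5))))) ^ 2 *
        (Real.pi * β / α ^ 2 * a / 2) ^ 2 =
        (e * a ^ 4) * (b ^ 2 * v ^ 10 * Real.pi ^ 2 * l ^ 2 / (36 * α ^ 4)) := by
      field_simp
      ring
    rw [e2, hl2]
    have e3 : (Real.pi * v ^ 2 * b / (3 * α)) ^ 5 = (4 * Real.pi ^ 2 / 27 * b ^ 3) *
        (b ^ 2 * v ^ 10 * Real.pi ^ 2 * (Real.pi / α) / (36 * α ^ 4)) := by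
      field_simp
      ring
    rw [e3]
    exact mul_le_mul_of_nonneg_right h (by positivity)

theorem plane_ineq (W Wx Wy : ℝ × ℝ → ℝ) (L : ℝ) (hL : 0 < L) (hW : Continuous W)
    (hW0 : ∀ p, 0 ≤ W p) (hv1 : ∀ y, W (-L, y) = 0) (hv2 : ∀ y, W (L, y) = 0)
    (hv3 : ∀ x, W (x, -L) = 0) (hv4 : ∀ x, W (x, L) = 0)
    (hmx : BM Wx) (hmy : BM Wy)
    (hdx : ∀ y, ∃ S : Set ℝ, S.Countable ∧
      ∀ x ∈ Ioo (-L) L \ S, HasDerivAt (fun x => W (x, y)) (Wx (x, y)) x)
    (hdy : ∀ x, ∃ S : Set ℝ, S.Countable ∧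
      ∀ y ∈ Ioo (-L) L \ S, HasDerivAt (fun y => W (x, y)) (Wy (x, y)) y) :
    Real.pi * (∫ y in -L..L, ∫ x in -L..L, W (x, y) ^ 6) ≤
      (∫ y in -L..L, ∫ x in -L..L, (Wx (x, y) ^ 2 + Wy (x, y) ^ 2)) *
        (∫ y in -L..L, ∫ x in -L..L, W (x, y) ^ 4) := by
  have hLL : -L ≤ L := by linarith
  have hpi := Real.pi_pos
  -- slices
  set a : ℝ → ℝ := fun y => ∫ x in -L..L, W (x, y) ^ 4 with ha_def
  set b : ℝ → ℝ := fun y => ∫ x in -L..L, W (x, y) ^ 6 with hb_def
  set e : ℝ → ℝ := fun y => ∫ x in -L..L, Wx (x, y) ^ 2 with he_def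
  have hWx : ∀ y, Continuous fun x => W (x, y) := fun y => by fun_prop
  have hWy : ∀ x, Continuous fun y => W (x, y) := fun x => by fun_prop
  have hac : Continuous a := by
    apply intervalIntegral.continuous_parametric_intervalIntegral_of_continuous'
      (f := fun y x => W (x, y) ^ 4)
    show Continuous fun p : ℝ × ℝ => W (p.2, p.1) ^ 4
    fun_prop
  have hbc : Continuous b := by
    apply intervalIntegral.continuous_parametric_intervalIntegral_of_continuous'
      (f := fun y x => W (x, y) ^ 6)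
    show Continuous fun p : ℝ × ℝ => W (p.2, p.1) ^ 6
    fun_prop
  have ha0 : ∀ y, 0 ≤ a y := fun y =>
    intervalIntegral.integral_nonneg hLL fun x _ => by positivity
  have hb0 : ∀ y, 0 ≤ b y := fun y =>
    intervalIntegral.integral_nonneg hLL fun x _ => by
      have := hW0 (x, y)
      positivity
  have he0 : ∀ y, 0 ≤ e y := fun y =>
    intervalIntegral.integral_nonneg hLL fun x _ => sq_nonneg _
  have hei : IntervalIntegrable e volume (-L) L := (hmx.pow 2).inner _ _ _ _ hLL
  set α := ∫ y in -L..L, a y with hα_def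
  set β := ∫ y in -L..L, b y with hβ_def
  have hα0 : 0 ≤ α := intervalIntegral.integral_nonneg hLL fun y _ => ha0 y
  have hβ0 : 0 ≤ β := intervalIntegral.integral_nonneg hLL fun y _ => hb0 y
  -- energies
  have hE : (∫ y in -L..L, ∫ x in -L..L, (Wx (x, y) ^ 2 + Wy (x, y) ^ 2)) =
      (∫ y in -L..L, e y) + ∫ x in -L..L, ∫ y in -L..L, Wy (x, y) ^ 2 := by
    rw [(hmy.pow 2).swap, ← intervalIntegral.integral_add hei ((hmy.pow 2).inner _ _ _ _ hLL)]
    apply intervalIntegral.integral_congr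
    intro y _
    simp only [he_def]
    rw [← intervalIntegral.integral_add ((hmx.pow 2).slice_left _ _ _)
      ((hmy.pow 2).slice_left _ _ _)]
  rw [hE]
  have hE1 : 0 ≤ ∫ y in -L..L, e y := intervalIntegral.integral_nonneg hLL fun y _ => he0 y
  have hE2 : 0 ≤ ∫ x in -L..L, ∫ y in -L..L, Wy (x, y) ^ 2 :=
    intervalIntegral.integral_nonneg hLL fun x _ =>
      intervalIntegral.integral_nonneg hLL fun y _ => sq_nonneg _
  rcases hβ0.eq_or_lt with hβ | hβ
  · rw [← hβ, mul_zero]
    positivity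
  -- line inequality
  have hline : ∀ y, 4 * Real.pi ^ 2 / 27 * b y ^ 3 ≤ e y * a y ^ 4 := by
    intro y
    obtain ⟨S, hS, hd⟩ := hdx y
    exact line_ineq (fun x => W (x, y)) (fun x => Wx (x, y)) L hL (hWx y) (fun x => hW0 _)
      (hv1 y) (hv2 y) S hS hd (hmx.slice_left y _ _) ((hmx.pow 2).slice_left y _ _)
  -- `α > 0`
  have hα : 0 < α := by
    rcases hα0.eq_or_lt with h | h
    · exfalso
      obtain ⟨K, hK⟩ := ((isCompact_Icc (a := -L) (b := L)).prod
        (isCompact_Icc (a := -L) (b := L))).exists_bound_of_continuousOn (hW.continuousOn)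
      have h1 : β ≤ ∫ y in -L..L, K ^ 2 * a y := by
        apply intervalIntegral.integral_mono_on hLL
        · exact hbc.intervalIntegrable _ _
        · exact (continuous_const.mul hac).intervalIntegrable _ _
        · intro y hy
          simp only [ha_def, hb_def]
          rw [← intervalIntegral.integral_const_mul]
          apply intervalIntegral.integral_mono_on hLL
          · exact ((hWx y).pow 6).intervalIntegrable _ _
          · exact (continuous_const.mul ((hWx y).pow 4)).intervalIntegrable _ _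
          · intro x hx
            have h2 := hK (x, y) ⟨hx, hy⟩
            rw [Real.norm_eq_abs, abs_of_nonneg (hW0 _)] at h2
            have h3 : W (x, y) ^ 2 ≤ K ^ 2 := pow_le_pow_left₀ (hW0 _) h2 2
            calc W (x, y) ^ 6 = W (x, y) ^ 2 * W (x, y) ^ 4 := by ring
              _ ≤ K ^ 2 * W (x, y) ^ 4 := mul_le_mul_of_nonneg_right h3 (by positivity)
      rw [intervalIntegral.integral_const_mul, ← hα_def, ← h, mul_zero] at h1
      linarith
    · exact h
  set lam := √(Real.pi / α) with hlam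
  have hlam0 : 0 < lam := Real.sqrt_pos.2 (by positivity)
  have hlam2 : lam ^ 2 = Real.pi / α := Real.sq_sqrt (by positivity)
  set mu := Real.pi * β / α ^ 2 with hmu
  set E := (∫ y in -L..L, e y) + ∫ x in -L..L, ∫ y in -L..L, Wy (x, y) ^ 2 with hE_def
  have main : ∀ δ, 0 < δ → δ < 1 → Real.pi * β - (20 * Real.pi * β) * δ ≤ E * α := by
    intro δ hδ hδ1
    obtain ⟨R, m₀, m₁, hR, hm0, hm0', hm0'', hm1, hT⟩ := isTarget3.exists_transport hδ
    obtain ⟨T, hTc, hTR, hTd, hTp, hTq, hTm⟩ := hT b (-L) L hbc hb0 hLL hβ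
    rw [← hβ_def] at hTm
    set T' : ℝ → ℝ := fun y => m₀ * (b y / (β * (3 / 4 / √(1 + T y ^ 2) ^ 5))) with hT'
    have hT'c : Continuous T' := by
      apply continuous_const.mul
      apply hbc.div
      · apply continuous_const.mul
        apply continuous_const.div (by fun_prop)
        intro x; positivity
      · intro x
        positivity
    have hTd' : ∀ y ∈ Icc (-L) L, HasDerivAt T (T' y) y := hTd
    -- y direction
    have hy : ∀ x, (∫ y in -L..L, (lam / 2 * (W (x, y) ^ 4 * T' y) -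
        lam ^ 2 * (W (x, y) ^ 6 * T y ^ 2))) ≤ ∫ y in -L..L, Wy (x, y) ^ 2 := by
      intro x
      obtain ⟨S, hS, hd⟩ := hdy x
      exact ibp_bound (fun y => W (x, y)) (fun y => Wy (x, y)) T T' L lam hL (hWy x)
        (hv3 x) (hv4 x) S hS hd (hmy.slice_right x _ _) ((hmy.pow 2).slice_right x _ _)
        hTc hT'c hTd'
    have hcont : Continuous fun p : ℝ × ℝ => (lam / 2 * (W (p.1, p.2) ^ 4 * T' p.2) -
        lam ^ 2 * (W (p.1, p.2) ^ 6 * T p.2 ^ 2)) := by fun_prop
    have hsw : (∫ x in -L..L, ∫ y in -L..L, (lam / 2 * (W (x, y) ^ 4 * T' y) -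
        lam ^ 2 * (W (x, y) ^ 6 * T y ^ 2))) =
        ∫ y in -L..L, (lam / 2 * (a y * T' y) - lam ^ 2 * (b y * T y ^ 2)) := by
      rw [intervalIntegral_intervalIntegral_swap]
      · apply intervalIntegral.integral_congr
        intro y _
        simp only [ha_def, hb_def]
        rw [intervalIntegral.integral_sub, intervalIntegral.integral_const_mul,
          intervalIntegral.integral_const_mul, intervalIntegral.integral_mul_const,
          intervalIntegral.integral_mul_const]
        all_goals apply Continuous.intervalIntegrable; fun_prop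
      · rw [uIoc_of_le hLL]
        apply (ContinuousOn.integrableOn_compact (isCompact_Icc.prod isCompact_Icc)
          hcont.continuousOn).mono_set
        exact prod_mono Ioc_subset_Icc_self Ioc_subset_Icc_self
    have hYb : (∫ y in -L..L, (lam / 2 * (a y * T' y) - lam ^ 2 * (b y * T y ^ 2))) ≤
        ∫ x in -L..L, ∫ y in -L..L, Wy (x, y) ^ 2 := by
      rw [← hsw]
      apply intervalIntegral.integral_mono_on hLL
      · have : Continuous fun x => ∫ y in -L..L, (lam / 2 * (W (x, y) ^ 4 * T' y) -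
            lam ^ 2 * (W (x, y) ^ 6 * T y ^ 2)) :=
          intervalIntegral.continuous_parametric_intervalIntegral_of_continuous'
            (f := fun x y => (lam / 2 * (W (x, y) ^ 4 * T' y) -
            lam ^ 2 * (W (x, y) ^ 6 * T y ^ 2))) hcont _ _
        exact this.intervalIntegrable _ _
      · exact (hmy.comp_swap.pow 2).inner _ _ _ _ hLL
      · intro x _
        exact hy x
    -- pointwise
    have hpt : ∀ y, m₀ * (5 * Real.pi / (3 * α)) * (b y + b y * T y ^ 2) -
        lam ^ 2 * (b y * T y ^ 2) - mu * a y ≤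
        e y + (lam / 2 * (a y * T' y) - lam ^ 2 * (b y * T y ^ 2)) := by
      intro y
      have hv : 0 < √(1 + T y ^ 2) := Real.sqrt_pos.2 (by positivity)
      have hv2 : √(1 + T y ^ 2) ^ 2 = 1 + T y ^ 2 := Real.sq_sqrt (by positivity)
      have h1 := plane_pointwise (he0 y) (ha0 y) (hb0 y) hα hβ hv (hline y)
      rw [hv2] at h1
      have h2 := mul_le_mul_of_nonneg_left h1 hm0.le
      have h3 : lam / 2 * (a y * T' y) =
          m₀ * (lam / 2 * (a y * (b y / (β * (3 / 4 / √(1 + T y ^ 2) ^ 5))))) := by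
        simp only [hT']; ring
      have h4 : m₀ * e y ≤ 1 * e y := mul_le_mul_of_nonneg_right hm0'' (he0 y)
      have hmu0 : 0 ≤ mu := by positivity
      have h5 : m₀ * (mu * a y) ≤ 1 * (mu * a y) :=
        mul_le_mul_of_nonneg_right hm0'' (mul_nonneg hmu0 (ha0 y))
      rw [h3]
      have h6 : m₀ * (5 * Real.pi / (3 * α) * ((1 + T y ^ 2) * b y)) =
          m₀ * (5 * Real.pi / (3 * α)) * (b y + b y * T y ^ 2) := by ring
      rw [h6, mul_add, mul_add] at h2
      linarith
    have hfin : m₀ * (5 * Real.pi / (3 * α)) * (β + β * m₁) - lam ^ 2 * (β * m₁) - mu * α ≤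
        E := by
      have h7 : m₀ * (5 * Real.pi / (3 * α)) * (β + β * m₁) - lam ^ 2 * (β * m₁) - mu * α =
          ∫ y in -L..L, (m₀ * (5 * Real.pi / (3 * α)) * (b y + b y * T y ^ 2) -
            lam ^ 2 * (b y * T y ^ 2) - mu * a y) := by
        rw [intervalIntegral.integral_sub, intervalIntegral.integral_sub,
          intervalIntegral.integral_const_mul, intervalIntegral.integral_const_mul,
          intervalIntegral.integral_const_mul, intervalIntegral.integral_add, hTm]
        all_goals apply Continuous.intervalIntegrable; fun_prop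
      have h8 : (∫ y in -L..L, (m₀ * (5 * Real.pi / (3 * α)) * (b y + b y * T y ^ 2) -
            lam ^ 2 * (b y * T y ^ 2) - mu * a y)) ≤
          ∫ y in -L..L, (e y + (lam / 2 * (a y * T' y) - lam ^ 2 * (b y * T y ^ 2))) := by
        apply intervalIntegral.integral_mono_on hLL
        · apply Continuous.intervalIntegrable; fun_prop
        · apply hei.add
          apply Continuous.intervalIntegrable; fun_prop
        · intro y _
          exact hpt y
      rw [intervalIntegral.integral_add hei (by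
        apply Continuous.intervalIntegrable; fun_prop)] at h8
      rw [h7]
      exact h8.trans (by rw [hE_def]; linarith)
    have h9 := mul_le_mul_of_nonneg_right hfin hα.le
    have h10 : (m₀ * (5 * Real.pi / (3 * α)) * (β + β * m₁) - lam ^ 2 * (β * m₁) - mu * α) * α =
        Real.pi * β * (5 / 3 * m₀ * (1 + m₁) - m₁ - 1) := by
      rw [hlam2, hmu]
      field_simp
      try ring
    rw [h10] at h9
    refine le_trans ?_ h9
    obtain ⟨h12, h13⟩ := abs_le.1 hm1
    have h14 : 1 - 20 * δ ≤ 5 / 3 * m₀ * (1 + m₁) - m₁ - 1 := by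
      have h15 : (1 - δ) * (3 / 2 - δ) ≤ m₀ * (1 + m₁) := by
        apply mul_le_mul hm0' (by linarith) (by linarith) hm0.le
      nlinarith
    have h16 : 0 < Real.pi * β := by positivity
    calc Real.pi * β - (20 * Real.pi * β) * δ
        = Real.pi * β * (1 - 20 * δ) := by ring
      _ ≤ _ := mul_le_mul_of_nonneg_left h14 h16.le
  exact le_of_forall_small main

end CT96
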