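import Pool.Agent.CT96.Sheet

/-!
Polar coordinates on the unit disc and the radial divergence identity.
-/

open MeasureTheory Set Filter Topology

namespace CT96

theorem disc_polar (f : ℝ × ℝ → ℝ) (hf : Continuous f) :
    ∫ x in {x : ℝ × ℝ | nsq x < 1}, f x =
      ∫ φ in -Real.pi..Real.pi, ∫ s in (0 : ℝ)..1, s * f (s * Real.cos φ, s * Real.sin φ) := by
  have hD : MeasurableSet {x : ℝ × ℝ | nsq x < 1} :=
    (isOpen_lt continuous_nsq continuous_const).measurableSet
  rw [← integral_indicator hD, ← integral_comp_polarCoord_symm]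
  have h1 : ∀ p ∈ polarCoord.target, p.1 • ({x : ℝ × ℝ | nsq x < 1}.indicator f)
      (polarCoord.symm p) = (Ioo (0 : ℝ) 1 ×ˢ Ioo (-Real.pi) Real.pi).indicator
        (fun p : ℝ × ℝ => p.1 * f (p.1 * Real.cos p.2, p.1 * Real.sin p.2)) p := by
    intro p hp
    rw [polarCoord_target] at hp
    have h2 : polarCoord.symm p = (p.1 * Real.cos p.2, p.1 * Real.sin p.2) := rfl
    have h3 : nsq (p.1 * Real.cos p.2, p.1 * Real.sin p.2) = p.1 ^ 2 := by
      simp only [nsq]
      have := Real.sin_sq_add_cos_sq p.2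
      nlinarith
    have hp0 : 0 < p.1 := hp.1
    by_cases h4 : p.1 < 1
    · rw [indicator_of_mem, indicator_of_mem, h2, smul_eq_mul]
      · exact ⟨⟨hp0, h4⟩, hp.2⟩
      · rw [h2, mem_ofPred_eq, h3]
        nlinarith
    · rw [indicator_of_notMem, indicator_of_notMem, smul_zero]
      · intro h5
        exact h4 h5.1.2
      · rw [h2, mem_ofPred_eq, h3]
        push Not at h4 ⊢
        nlinarith
  have hmeasT : MeasurableSet polarCoord.target := polarCoord.open_target.measurableSet
  rw [setIntegral_congr_fun hmeasT h1, setIntegral_indicator (measurableSet_Ioo.prod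
    measurableSet_Ioo)]
  have h6 : polarCoord.target ∩ Ioo (0 : ℝ) 1 ×ˢ Ioo (-Real.pi) Real.pi =
      Ioo (0 : ℝ) 1 ×ˢ Ioo (-Real.pi) Real.pi := by
    rw [polarCoord_target]
    apply inter_eq_self_of_subset_right
    exact prod_mono Ioo_subset_Ioi_self subset_rfl
  rw [h6, Measure.volume_eq_prod, ← setIntegral_prod_swap, setIntegral_prod]
  · rw [intervalIntegral.integral_of_le (by linarith [Real.pi_pos]),
      integral_Ioc_eq_integral_Ioo]
    apply setIntegral_congr_fun measurableSet_Ioo
    intro φ _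
    simp only [Prod.swap_prod_mk]
    rw [intervalIntegral.integral_of_le zero_le_one, integral_Ioc_eq_integral_Ioo]
  · have hc : Continuous fun p : ℝ × ℝ =>
        p.swap.1 * f (p.swap.1 * Real.cos p.swap.2, p.swap.1 * Real.sin p.swap.2) := by
      simp only [Prod.swap]
      fun_prop
    apply (ContinuousOn.integrableOn_compact (isCompact_Icc.prod isCompact_Icc)
          hc.continuousOn).mono_set
    exact prod_mono Ioo_subset_Icc_self Ioo_subset_Icc_self

/-- Radial divergence identity: `∫ div (z(|x|²) w² x) = z(1) ∮ w²`. -/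
theorem div_identity {w : ℝ × ℝ → ℝ} (hw : ContDiff ℝ 1 w) (z z' : ℝ → ℝ)
    (hz : ∀ t, HasDerivAt z (z' t) t) (hz' : Continuous z') :
    ∫ x in {x : ℝ × ℝ | nsq x < 1}, (2 * (z (nsq x) + nsq x * z' (nsq x)) * w x ^ 2 +
      2 * z (nsq x) * w x * (x.1 * d1 w x + x.2 * d2 w x)) =
      z 1 * ∫ φ in -Real.pi..Real.pi, w (Real.cos φ, Real.sin φ) ^ 2 := by
  have hzc : Continuous z := continuous_iff_continuousAt.2 fun t => (hz t).continuousAt
  have hwc := hw.continuous
  have h1c := continuous_d1 hw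
  have h2c := continuous_d2 hw
  have hnc := continuous_nsq
  have hcont : Continuous fun x : ℝ × ℝ => (2 * (z (nsq x) + nsq x * z' (nsq x)) * w x ^ 2 +
      2 * z (nsq x) * w x * (x.1 * d1 w x + x.2 * d2 w x)) := by
    fun_prop
  rw [disc_polar _ hcont, ← intervalIntegral.integral_const_mul]
  apply intervalIntegral.integral_congr
  intro φ _
  simp only
  set c := Real.cos φ with hc
  set sn := Real.sin φ with hsn
  have hcs : c ^ 2 + sn ^ 2 = 1 := by rw [hc, hsn]; exact Real.cos_sq_add_sin_sq φ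
  have hd : ∀ s : ℝ, HasDerivAt (fun s => s ^ 2 * z (s ^ 2) * w (s * c, s * sn) ^ 2)
      (s * (2 * (z (nsq (s * c, s * sn)) + nsq (s * c, s * sn) * z' (nsq (s * c, s * sn))) *
        w (s * c, s * sn) ^ 2 + 2 * z (nsq (s * c, s * sn)) * w (s * c, s * sn) *
        ((s * c) * d1 w (s * c, s * sn) + (s * sn) * d2 w (s * c, s * sn)))) s := by
    intro s
    have hn : nsq (s * c, s * sn) = s ^ 2 := by
      simp only [nsq]
      calc (s * c) ^ 2 + (s * sn) ^ 2 = s ^ 2 * (c ^ 2 + sn ^ 2) := by ring
        _ = s ^ 2 := by rw [hcs, mul_one]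
    rw [hn]
    have hp : HasDerivAt (fun s : ℝ => s ^ 2) (2 * s) s := by simpa using hasDerivAt_pow 2 s
    have hz2 : HasDerivAt (fun s : ℝ => z (s ^ 2)) (z' (s ^ 2) * (2 * s)) s := (hz _).comp s hp
    have hcur : HasDerivAt (fun s : ℝ => (s * c, s * sn)) (1 * c, 1 * sn) s :=
      ((hasDerivAt_id s).mul_const c).prodMk ((hasDerivAt_id s).mul_const sn)
    have hww := ((hw.differentiable (by norm_num)).differentiableAt
      (x := (s * c, s * sn))).hasFDerivAt.comp_hasDerivAt s hcur
    refine ((hp.mul hz2).mul (hww.pow 2)).congr_deriv ?_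
    rw [fderiv_apply_eq]
    simp only [Function.comp, Pi.mul_apply, Pi.pow_apply]
    push_cast
    ring
  have h := intervalIntegral.integral_eq_sub_of_hasDerivAt (a := 0) (b := 1)
    (fun s _ => hd s) (by
      apply Continuous.intervalIntegrable
      have := hcont.comp (show Continuous fun s : ℝ => (s * c, s * sn) by fun_prop)
      exact continuous_id.mul this)
  rw [h]
  simp

end CT96
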