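import Mathlib

/-!
Partial derivatives of `V y = Γ(|y|²) w(ν(|y|²) y)` and the change of variables for radial maps.
-/

open MeasureTheory Set Filter Topology

namespace CT96

/-- squared norm in the plane -/
def nsq (p : ℝ × ℝ) : ℝ := p.1 ^ 2 + p.2 ^ 2

/-- first partial derivative -/
noncomputable def d1 (w : ℝ × ℝ → ℝ) (x : ℝ × ℝ) : ℝ := fderiv ℝ w x (1, 0)

/-- second partial derivative -/
noncomputable def d2 (w : ℝ × ℝ → ℝ) (x : ℝ × ℝ) : ℝ := fderiv ℝ w x (0, 1)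

theorem continuous_d1 {w : ℝ × ℝ → ℝ} (hw : ContDiff ℝ 1 w) : Continuous (d1 w) :=
  (hw.continuous_fderiv (by norm_num)).clm_apply continuous_const

theorem continuous_d2 {w : ℝ × ℝ → ℝ} (hw : ContDiff ℝ 1 w) : Continuous (d2 w) :=
  (hw.continuous_fderiv (by norm_num)).clm_apply continuous_const

theorem fderiv_apply_eq (w : ℝ × ℝ → ℝ) (x : ℝ × ℝ) (a b : ℝ) :
    fderiv ℝ w x (a, b) = a * d1 w x + b * d2 w x := by
  have h : ((a, b) : ℝ × ℝ) = a • ((1, 0) : ℝ × ℝ) + b • ((0, 1) : ℝ × ℝ) := by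
    simp
  rw [h, map_add, map_smul, map_smul]
  simp [d1, d2]

theorem continuous_nsq : Continuous nsq := by unfold nsq; fun_prop

/-- first partial derivative of `V` in terms of the values of `Γ, Γ', ν, ν'` at `|y|²` -/
noncomputable def D1 (w : ℝ × ℝ → ℝ) (Γ Γ' ν ν' : ℝ) (y : ℝ × ℝ) : ℝ :=
  2 * y.1 * Γ' * w (ν * y.1, ν * y.2) + Γ * ((ν + 2 * y.1 ^ 2 * ν') * d1 w (ν * y.1, ν * y.2) +
    2 * y.1 * y.2 * ν' * d2 w (ν * y.1, ν * y.2))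

/-- second partial derivative of `V` in terms of the values of `Γ, Γ', ν, ν'` at `|y|²` -/
noncomputable def D2 (w : ℝ × ℝ → ℝ) (Γ Γ' ν ν' : ℝ) (y : ℝ × ℝ) : ℝ :=
  2 * y.2 * Γ' * w (ν * y.1, ν * y.2) + Γ * (2 * y.1 * y.2 * ν' * d1 w (ν * y.1, ν * y.2) +
    (ν + 2 * y.2 ^ 2 * ν') * d2 w (ν * y.1, ν * y.2))

theorem hasDerivAt_V1 {w : ℝ × ℝ → ℝ} (hw : ContDiff ℝ 1 w) (Γ ν : ℝ → ℝ) (Γ' ν' : ℝ)
    (x y : ℝ) (hΓ : HasDerivAt Γ Γ' (x ^ 2 + y ^ 2)) (hν : HasDerivAt ν ν' (x ^ 2 + y ^ 2)) :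
    HasDerivAt (fun s => Γ (s ^ 2 + y ^ 2) *
      w (ν (s ^ 2 + y ^ 2) * s, ν (s ^ 2 + y ^ 2) * y))
      (D1 w (Γ (x ^ 2 + y ^ 2)) Γ' (ν (x ^ 2 + y ^ 2)) ν' (x, y)) x := by
  have hr : HasDerivAt (fun s : ℝ => s ^ 2 + y ^ 2) (2 * x) x := by
    simpa using (hasDerivAt_pow 2 x).add_const (y ^ 2)
  have h1 : HasDerivAt (fun s => Γ (s ^ 2 + y ^ 2)) (Γ' * (2 * x)) x := hΓ.comp x hr
  have h2 : HasDerivAt (fun s => ν (s ^ 2 + y ^ 2)) (ν' * (2 * x)) x := hν.comp x hr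
  have h3 : HasDerivAt (fun s => (ν (s ^ 2 + y ^ 2) * s, ν (s ^ 2 + y ^ 2) * y))
      (ν' * (2 * x) * x + ν (x ^ 2 + y ^ 2) * 1, ν' * (2 * x) * y) x :=
    (h2.mul (hasDerivAt_id x)).prodMk (h2.mul_const y)
  have h4 := ((hw.differentiable (by norm_num)).differentiableAt
    (x := (ν (x ^ 2 + y ^ 2) * x, ν (x ^ 2 + y ^ 2) * y))).hasFDerivAt.comp_hasDerivAt x h3
  refine (h1.mul h4).congr_deriv ?_
  rw [fderiv_apply_eq]
  simp only [D1, Function.comp]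
  ring

theorem hasDerivAt_V2 {w : ℝ × ℝ → ℝ} (hw : ContDiff ℝ 1 w) (Γ ν : ℝ → ℝ) (Γ' ν' : ℝ)
    (x y : ℝ) (hΓ : HasDerivAt Γ Γ' (x ^ 2 + y ^ 2)) (hν : HasDerivAt ν ν' (x ^ 2 + y ^ 2)) :
    HasDerivAt (fun s => Γ (x ^ 2 + s ^ 2) *
      w (ν (x ^ 2 + s ^ 2) * x, ν (x ^ 2 + s ^ 2) * s))
      (D2 w (Γ (x ^ 2 + y ^ 2)) Γ' (ν (x ^ 2 + y ^ 2)) ν' (x, y)) y := by
  have hr : HasDerivAt (fun s : ℝ => x ^ 2 + s ^ 2) (2 * y) y := by
    simpa using (hasDerivAt_pow 2 y).const_add (x ^ 2)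
  have h1 : HasDerivAt (fun s => Γ (x ^ 2 + s ^ 2)) (Γ' * (2 * y)) y := hΓ.comp y hr
  have h2 : HasDerivAt (fun s => ν (x ^ 2 + s ^ 2)) (ν' * (2 * y)) y := hν.comp y hr
  have h3 : HasDerivAt (fun s => (ν (x ^ 2 + s ^ 2) * x, ν (x ^ 2 + s ^ 2) * s))
      (ν' * (2 * y) * x, ν' * (2 * y) * y + ν (x ^ 2 + y ^ 2) * 1) y :=
    (h2.mul_const x).prodMk (h2.mul (hasDerivAt_id y))
  have h4 := ((hw.differentiable (by norm_num)).differentiableAt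
    (x := (ν (x ^ 2 + y ^ 2) * x, ν (x ^ 2 + y ^ 2) * y))).hasFDerivAt.comp_hasDerivAt y h3
  refine (h1.mul h4).congr_deriv ?_
  rw [fderiv_apply_eq]
  simp only [D2, Function.comp]
  ring

/-- The squared gradient in radial and angular parts. -/
theorem grad_sq (w : ℝ × ℝ → ℝ) (Γ Γ' ν ν' : ℝ) (y : ℝ × ℝ) :
    nsq y * (D1 w Γ Γ' ν ν' y ^ 2 + D2 w Γ Γ' ν ν' y ^ 2) =
      (2 * nsq y * Γ' * w (ν * y.1, ν * y.2) + Γ * (ν + 2 * nsq y * ν') *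
        (y.1 * d1 w (ν * y.1, ν * y.2) + y.2 * d2 w (ν * y.1, ν * y.2))) ^ 2 +
      (Γ * ν * (y.1 * d2 w (ν * y.1, ν * y.2) - y.2 * d1 w (ν * y.1, ν * y.2))) ^ 2 := by
  simp only [D1, D2, nsq]
  ring

/-- The unit circle is a null set. -/
theorem circle_null : volume {p : ℝ × ℝ | nsq p = 1} = 0 := by
  have hm : MeasurableSet {p : ℝ × ℝ | nsq p = 1} :=
    (isClosed_eq continuous_nsq continuous_const).measurableSet
  rw [Measure.volume_eq_prod, Measure.measure_prod_null hm]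
  refine ae_of_all _ fun x => ?_
  have hsub : Prod.mk x ⁻¹' {p : ℝ × ℝ | nsq p = 1} ⊆ {√(1 - x ^ 2), -√(1 - x ^ 2)} := by
    intro y hy
    simp only [mem_preimage, mem_ofPred_eq, nsq] at hy
    have h1 : √(1 - x ^ 2) = |y| := by
      rw [show 1 - x ^ 2 = y ^ 2 by linarith, Real.sqrt_sq_eq_abs]
    rw [h1]
    simp only [mem_insert_iff, mem_singleton_iff]
    rcases abs_choice y with h | h <;> rw [h] <;> simp
  exact measure_mono_null hsub (Set.Finite.measure_zero (by simp) _)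

/-- punctured unit disc -/
def PD : Set (ℝ × ℝ) := {x | 0 < nsq x ∧ nsq x < 1}

theorem measurableSet_PD : MeasurableSet PD := by
  apply MeasurableSet.inter
  · exact (isOpen_lt continuous_const continuous_nsq).measurableSet
  · exact (isOpen_lt continuous_nsq continuous_const).measurableSet

/-- The radial map `x ↦ m(|x|²) x`. -/
noncomputable def rmap (m : ℝ → ℝ) (x : ℝ × ℝ) : ℝ × ℝ := (m (nsq x) * x.1, m (nsq x) * x.2)

/-- Its derivative. -/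
noncomputable def rmap' (m m' : ℝ → ℝ) (x : ℝ × ℝ) : ℝ × ℝ →L[ℝ] ℝ × ℝ :=
  (Matrix.toLin (Module.Basis.finTwoProd ℝ) (Module.Basis.finTwoProd ℝ)
    !![m (nsq x) + 2 * x.1 ^ 2 * m' (nsq x), 2 * x.1 * x.2 * m' (nsq x);
      2 * x.1 * x.2 * m' (nsq x), m (nsq x) + 2 * x.2 ^ 2 * m' (nsq x)]).toContinuousLinearMap

theorem hasFDerivAt_nsq (x : ℝ × ℝ) :
    HasFDerivAt nsq ((2 * x.1) • ContinuousLinearMap.fst ℝ ℝ ℝ +
      (2 * x.2) • ContinuousLinearMap.snd ℝ ℝ ℝ) x := by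
  have ha : HasFDerivAt (fun p : ℝ × ℝ => p.1) (ContinuousLinearMap.fst ℝ ℝ ℝ) x :=
    hasFDerivAt_fst
  have hb : HasFDerivAt (fun p : ℝ × ℝ => p.2) (ContinuousLinearMap.snd ℝ ℝ ℝ) x :=
    hasFDerivAt_snd
  refine ((ha.pow 2).add (hb.pow 2)).congr_fderiv ?_
  ext <;> simp

theorem hasFDerivAt_rmap (m m' : ℝ → ℝ) (x : ℝ × ℝ) (hm : HasDerivAt m (m' (nsq x)) (nsq x)) :
    HasFDerivAt (rmap m) (rmap' m m' x) x := by
  unfold rmap rmap'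
  rw [Matrix.toLin_finTwoProd_toContinuousLinearMap]
  have h0 : HasFDerivAt (fun p => m (nsq p)) (m' (nsq x) • ((2 * x.1) •
      ContinuousLinearMap.fst ℝ ℝ ℝ + (2 * x.2) • ContinuousLinearMap.snd ℝ ℝ ℝ)) x :=
    hm.comp_hasFDerivAt x (hasFDerivAt_nsq x)
  refine ((h0.mul hasFDerivAt_fst).prodMk (h0.mul hasFDerivAt_snd)).congr_fderiv ?_
  ext <;> simp <;> ring

theorem det_rmap' (m m' : ℝ → ℝ) (x : ℝ × ℝ) :
    (rmap' m m' x).det = m (nsq x) * (m (nsq x) + 2 * nsq x * m' (nsq x)) := by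
  unfold rmap'
  rw [ContinuousLinearMap.det, LinearMap.coe_toContinuousLinearMap, LinearMap.det_toLin,
    Matrix.det_fin_two_of]
  simp only [nsq]
  ring

theorem nsq_rmap (m : ℝ → ℝ) (x : ℝ × ℝ) : nsq (rmap m x) = nsq x * m (nsq x) ^ 2 := by
  simp only [nsq, rmap]
  ring

theorem injOn_rmap (m : ℝ → ℝ) (hpos : ∀ t ∈ Ioo (0 : ℝ) 1, 0 < m t)
    (hinj : InjOn (fun t => t * m t ^ 2) (Ioo 0 1)) : InjOn (rmap m) PD := by
  intro x hx y hy hxy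
  have h1 : nsq x = nsq y := by
    apply hinj hx hy
    simp only
    rw [← nsq_rmap, ← nsq_rmap, hxy]
  have h2 := hpos _ hx
  simp only [rmap, Prod.mk.injEq] at hxy
  rw [← h1] at hxy
  ext
  · exact mul_left_cancel₀ h2.ne' hxy.1
  · exact mul_left_cancel₀ h2.ne' hxy.2

theorem image_rmap (m : ℝ → ℝ) (hpos : ∀ t ∈ Ioo (0 : ℝ) 1, 0 < m t) :
    rmap m '' PD = {y | nsq y ∈ (fun t => t * m t ^ 2) '' Ioo 0 1} := by
  ext y
  constructor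
  · rintro ⟨x, hx, rfl⟩
    exact ⟨nsq x, hx, (nsq_rmap m x).symm⟩
  · rintro ⟨t, ht, hty⟩
    have h1 := hpos t ht
    have h2 : nsq ((m t)⁻¹ * y.1, (m t)⁻¹ * y.2) = t := by
      have : nsq ((m t)⁻¹ * y.1, (m t)⁻¹ * y.2) = (m t)⁻¹ ^ 2 * nsq y := by
        simp only [nsq]; ring
      rw [this, ← hty]
      field_simp
    refine ⟨((m t)⁻¹ * y.1, (m t)⁻¹ * y.2), ?_, ?_⟩
    · simp only [PD, mem_ofPred_eq, h2]
      exact ht
    · simp only [rmap, h2]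
      ext <;> field_simp

theorem radial_cv (m m' j : ℝ → ℝ) (hm : ∀ t ∈ Ioo (0 : ℝ) 1, HasDerivAt m (m' t) t)
    (hpos : ∀ t ∈ Ioo (0 : ℝ) 1, 0 < m t)
    (hj : ∀ t ∈ Ioo (0 : ℝ) 1, |m t * (m t + 2 * t * m' t)| = j t)
    (hinj : InjOn (fun t => t * m t ^ 2) (Ioo 0 1)) (f : ℝ × ℝ → ℝ) :
    ∫ y in rmap m '' PD, f y = ∫ x in PD, j (nsq x) * f (rmap m x) := by
  rw [integral_image_eq_integral_abs_det_fderiv_smul volume measurableSet_PD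
    (fun x hx => (hasFDerivAt_rmap m m' x (hm _ hx)).hasFDerivWithinAt)
    (injOn_rmap m hpos hinj) f]
  apply setIntegral_congr_fun measurableSet_PD
  intro x hx
  simp only [det_rmap', smul_eq_mul]
  rw [hj _ hx]

theorem radial_cv_integrable (m m' j : ℝ → ℝ) (hm : ∀ t ∈ Ioo (0 : ℝ) 1, HasDerivAt m (m' t) t)
    (hpos : ∀ t ∈ Ioo (0 : ℝ) 1, 0 < m t)
    (hj : ∀ t ∈ Ioo (0 : ℝ) 1, |m t * (m t + 2 * t * m' t)| = j t)
    (hinj : InjOn (fun t => t * m t ^ 2) (Ioo 0 1)) (f : ℝ × ℝ → ℝ)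
    (hf : IntegrableOn f (rmap m '' PD)) :
    IntegrableOn (fun x => j (nsq x) * f (rmap m x)) PD := by
  rw [integrableOn_image_iff_integrableOn_abs_det_fderiv_smul volume measurableSet_PD
    (fun x hx => (hasFDerivAt_rmap m m' x (hm _ hx)).hasFDerivWithinAt)
    (injOn_rmap m hpos hinj) f] at hf
  refine hf.congr_fun ?_ measurableSet_PD
  intro x hx
  simp only [det_rmap', smul_eq_mul]
  rw [hj _ hx]

end CT96
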