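import Pool.Agent.CT96.Energy
import Pool.Agent.CT96.Plane
import Pool.Agent.CT96.Polar

/-!
Splitting integrals over a square into the two sheets, and regularity of the truncated
transplanted function.
-/

open MeasureTheory Set Filter Topology

namespace CT96

theorem nsq_eq_zero {p : ℝ × ℝ} (h : nsq p = 0) : p = 0 := by
  unfold nsq at h
  have h1 : p.1 = 0 := by nlinarith [sq_nonneg p.1, sq_nonneg p.2]
  have h2 : p.2 = 0 := by nlinarith [sq_nonneg p.1, sq_nonneg p.2]
  ext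
  · exact h1
  · exact h2

theorem measurableSet_disc : MeasurableSet {x : ℝ × ℝ | nsq x < 1} :=
  (isOpen_lt continuous_nsq continuous_const).measurableSet

theorem PD_ae : PD =ᵐ[volume] {x : ℝ × ℝ | nsq x < 1} := by
  have h0 : volume ({0} : Set (ℝ × ℝ)) = 0 := measure_singleton 0
  have h : PD = {x : ℝ × ℝ | nsq x < 1} \ {0} := by
    ext x
    constructor
    · rintro ⟨h1, h2⟩
      refine ⟨h2, ?_⟩
      intro h3
      rw [mem_singleton_iff] at h3
      rw [h3] at h1
      simp [nsq] at h1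
    · rintro ⟨h1, h2⟩
      refine ⟨lt_of_le_of_ne (nsq_nonneg x) ?_, h1⟩
      intro h3
      exact h2 (nsq_eq_zero h3.symm)
  rw [h]
  exact sdiff_null_ae_eq_self h0

theorem box_split (f : ℝ × ℝ → ℝ) (hf : BM f) (L : ℝ) (hL : 0 < L)
    (h0 : ∀ p, L ^ 2 ≤ nsq p → f p = 0) :
    Integrable f ∧ ∫ y in -L..L, ∫ x in -L..L, f (x, y) =
      (∫ x in PD, cJ1 (nsq x) * f (rmap m1 x)) +
        ∫ x in PD, cJ2 (nsq x) / nsq x ^ 2 * f (rmap m2 x) := by
  have hLL : -L ≤ L := by linarith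
  set box : Set (ℝ × ℝ) := Ioc (-L) L ×ˢ Ioc (-L) L with hbox
  have hz : ∀ p, p ∉ box → f p = 0 := by
    intro p hp
    apply h0
    by_contra hcon
    push Not at hcon
    apply hp
    unfold nsq at hcon
    have h1 : |p.1| < L := by
      apply abs_lt_of_sq_lt_sq _ hL.le
      nlinarith [sq_nonneg p.2]
    have h2 : |p.2| < L := by
      apply abs_lt_of_sq_lt_sq _ hL.le
      nlinarith [sq_nonneg p.1]
    rw [abs_lt] at h1 h2
    exact ⟨⟨h1.1, h1.2.le⟩, ⟨h2.1, h2.2.le⟩⟩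
  have hint_box : IntegrableOn f box :=
    hf.integrable _ _ measure_Ioc_lt_top measure_Ioc_lt_top
  have hint : Integrable f := by
    rw [← integrableOn_iff_integrable_of_support_subset (s := box)]
    · exact hint_box
    · intro p hp
      by_contra hcon
      exact hp (hz p hcon)
  refine ⟨hint, ?_⟩
  have e1 : ∫ y in -L..L, ∫ x in -L..L, f (x, y) = ∫ p, f p := by
    rw [← hf.swap, ← setIntegral_eq_integral_of_forall_compl_eq_zero hz, hbox,
      Measure.volume_eq_prod, setIntegral_prod _ hint_box]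
    rw [intervalIntegral.integral_of_le hLL]
    apply setIntegral_congr_fun measurableSet_Ioc
    intro x _
    simp only
    rw [intervalIntegral.integral_of_le hLL]
  have hU2 : MeasurableSet {y : ℝ × ℝ | 1 < nsq y} :=
    (isOpen_lt continuous_const continuous_nsq).measurableSet
  have e2 : ∫ p, f p = (∫ p in {y : ℝ × ℝ | 0 < nsq y ∧ nsq y < 1}, f p) +
      ∫ p in {y : ℝ × ℝ | 1 < nsq y}, f p := by
    have hdis : Disjoint {y : ℝ × ℝ | 0 < nsq y ∧ nsq y < 1} {y : ℝ × ℝ | 1 < nsq y} := by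
      rw [disjoint_left]
      rintro y ⟨_, h1⟩ h2
      have h3 : 1 < nsq y := h2
      linarith
    rw [← setIntegral_union hdis hU2 hint.integrableOn hint.integrableOn, ← setIntegral_univ]
    apply setIntegral_congr_set
    have hnull : volume ({y : ℝ × ℝ | nsq y = 1} ∪ {0}) = 0 :=
      measure_union_null circle_null (measure_singleton 0)
    have h4 : ({y : ℝ × ℝ | 0 < nsq y ∧ nsq y < 1} ∪ {y : ℝ × ℝ | 1 < nsq y}) =
        univ \ ({y : ℝ × ℝ | nsq y = 1} ∪ {0}) := by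
      ext y
      simp only [mem_union, mem_ofPred_eq, Set.mem_sdiff, mem_univ, true_and, mem_singleton_iff,
        not_or]
      constructor
      · rintro (⟨h1, h2⟩ | h1)
        · exact ⟨h2.ne, fun h => by rw [h] at h1; simp [nsq] at h1⟩
        · exact ⟨h1.ne', fun h => by rw [h] at h1; simp [nsq] at h1; linarith⟩
      · rintro ⟨h1, h2⟩
        rcases lt_or_gt_of_ne h1 with h3 | h3
        · left
          exact ⟨lt_of_le_of_ne (nsq_nonneg y) fun h => h2 (nsq_eq_zero h.symm), h3⟩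
        · right; exact h3
    rw [h4]
    exact (sdiff_null_ae_eq_self hnull).symm
  rw [e1, e2, ← image1, ← image2,
    radial_cv m1 m1' cJ1 (fun _ ht => hasDerivAt_m1 ht) (fun _ ht => m1_pos ht)
      (fun _ ht => jac1 ht) inj1 f,
    radial_cv m2 m2' (fun t => cJ2 t / t ^ 2) (fun _ ht => hasDerivAt_m2 ht)
      (fun _ ht => m2_pos ht) (fun _ ht => jac2 ht) inj2 f]

theorem split_integrable1 (f : ℝ × ℝ → ℝ) (hf : Integrable f) :
    IntegrableOn (fun x => cJ1 (nsq x) * f (rmap m1 x)) PD :=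
  radial_cv_integrable m1 m1' cJ1 (fun _ ht => hasDerivAt_m1 ht) (fun _ ht => m1_pos ht)
      (fun _ ht => jac1 ht) inj1 f hf.integrableOn

theorem split_integrable2 (f : ℝ × ℝ → ℝ) (hf : Integrable f) :
    IntegrableOn (fun x => cJ2 (nsq x) / nsq x ^ 2 * f (rmap m2 x)) PD :=
  radial_cv_integrable m2 m2' (fun t => cJ2 t / t ^ 2) (fun _ ht => hasDerivAt_m2 ht)
      (fun _ ht => m2_pos ht) (fun _ ht => jac2 ht) inj2 f hf.integrableOn

/-! derivatives of the transplanted function -/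

theorem Wt_deriv1 {w : ℝ × ℝ → ℝ} (hw : ContDiff ℝ 1 w) (x y : ℝ) (h : x ^ 2 + y ^ 2 ≠ 1) :
    HasDerivAt (fun s => Wt w (s, y)) (G1 w (x, y)) x := by
  have hc : Continuous fun s : ℝ => s ^ 2 + y ^ 2 := by fun_prop
  rcases lt_or_gt_of_ne h with h1 | h1
  · have hmem : x ^ 2 + y ^ 2 ∈ Icc (0 : ℝ) 1 := ⟨by positivity, h1.le⟩
    have h2 := hasDerivAt_V1 hw Ga1 nu1 _ _ x y (hasDerivAt_Ga1 hmem) (hasDerivAt_nu1 hmem)
    have h3 : G1 w (x, y) = D1 w (Ga1 (x ^ 2 + y ^ 2)) (Ga1' (x ^ 2 + y ^ 2))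
        (nu1 (x ^ 2 + y ^ 2)) (nu1' (x ^ 2 + y ^ 2)) (x, y) := by
      unfold G1
      exact if_pos h1.le
    rw [h3]
    refine h2.congr_of_eventuallyEq ?_
    filter_upwards [hc.continuousAt.eventually (gt_mem_nhds h1)] with s hs
    unfold Wt
    exact if_pos (le_of_lt hs)
  · have h2 := hasDerivAt_V1 hw Ga2 nu2 _ _ x y (hasDerivAt_Ga2 (le_of_lt h1))
      (hasDerivAt_nu2 (le_of_lt h1))
    have h3 : G1 w (x, y) = D1 w (Ga2 (x ^ 2 + y ^ 2)) (Ga2' (x ^ 2 + y ^ 2))
        (nu2 (x ^ 2 + y ^ 2)) (nu2' (x ^ 2 + y ^ 2)) (x, y) := by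
      unfold G1
      exact if_neg (not_le.2 h1)
    rw [h3]
    refine h2.congr_of_eventuallyEq ?_
    filter_upwards [hc.continuousAt.eventually (lt_mem_nhds h1)] with s hs
    unfold Wt
    exact if_neg (not_le.2 hs)

theorem Wt_deriv2 {w : ℝ × ℝ → ℝ} (hw : ContDiff ℝ 1 w) (x y : ℝ) (h : x ^ 2 + y ^ 2 ≠ 1) :
    HasDerivAt (fun s => Wt w (x, s)) (G2 w (x, y)) y := by
  have hc : Continuous fun s : ℝ => x ^ 2 + s ^ 2 := by fun_prop
  rcases lt_or_gt_of_ne h with h1 | h1
  · have hmem : x ^ 2 + y ^ 2 ∈ Icc (0 : ℝ) 1 := ⟨by positivity, h1.le⟩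
    have h2 := hasDerivAt_V2 hw Ga1 nu1 _ _ x y (hasDerivAt_Ga1 hmem) (hasDerivAt_nu1 hmem)
    have h3 : G2 w (x, y) = D2 w (Ga1 (x ^ 2 + y ^ 2)) (Ga1' (x ^ 2 + y ^ 2))
        (nu1 (x ^ 2 + y ^ 2)) (nu1' (x ^ 2 + y ^ 2)) (x, y) := by
      unfold G2
      exact if_pos h1.le
    rw [h3]
    refine h2.congr_of_eventuallyEq ?_
    filter_upwards [hc.continuousAt.eventually (gt_mem_nhds h1)] with s hs
    unfold Wt
    exact if_pos (le_of_lt hs)
  · have h2 := hasDerivAt_V2 hw Ga2 nu2 _ _ x y (hasDerivAt_Ga2 (le_of_lt h1))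
      (hasDerivAt_nu2 (le_of_lt h1))
    have h3 : G2 w (x, y) = D2 w (Ga2 (x ^ 2 + y ^ 2)) (Ga2' (x ^ 2 + y ^ 2))
        (nu2 (x ^ 2 + y ^ 2)) (nu2' (x ^ 2 + y ^ 2)) (x, y) := by
      unfold G2
      exact if_neg (not_le.2 h1)
    rw [h3]
    refine h2.congr_of_eventuallyEq ?_
    filter_upwards [hc.continuousAt.eventually (lt_mem_nhds h1)] with s hs
    unfold Wt
    exact if_neg (not_le.2 hs)

theorem finite_sol (c : ℝ) : {s : ℝ | s ^ 2 + c = 1}.Countable := by
  have hsub : {s : ℝ | s ^ 2 + c = 1} ⊆ {√(1 - c), -√(1 - c)} := by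
    intro s hs
    have hs' : s ^ 2 + c = 1 := hs
    have h1 : √(1 - c) = |s| := by
      rw [show 1 - c = s ^ 2 by linarith, Real.sqrt_sq_eq_abs]
    rw [h1]
    simp only [mem_insert_iff, mem_singleton_iff]
    rcases abs_choice s with h | h <;> rw [h] <;> simp
  exact (Set.toFinite _).countable.mono hsub

/-! boundedness and measurability of the gradient -/

theorem D1_contOn {w : ℝ × ℝ → ℝ} (hw : ContDiff ℝ 1 w) {s : Set (ℝ × ℝ)}
    {Γ Γ' ν ν' : ℝ × ℝ → ℝ} (h1 : ContinuousOn Γ s) (h2 : ContinuousOn Γ' s)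
    (h3 : ContinuousOn ν s) (h4 : ContinuousOn ν' s) :
    ContinuousOn (fun y => D1 w (Γ y) (Γ' y) (ν y) (ν' y) y) s := by
  have a := scal_contOn hw.continuous h3
  have b := scal_contOn (continuous_d1 hw) h3
  have c := scal_contOn (continuous_d2 hw) h3
  have key : ∀ A B C : ℝ × ℝ → ℝ, ContinuousOn A s → ContinuousOn B s → ContinuousOn C s →
      ContinuousOn (fun y => 2 * y.1 * Γ' y * A y + Γ y * ((ν y + 2 * y.1 ^ 2 * ν' y) * B y +
        2 * y.1 * y.2 * ν' y * C y)) s := by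
    intro A B C hA hB hC
    fun_prop
  exact key _ _ _ a b c

theorem D2_contOn {w : ℝ × ℝ → ℝ} (hw : ContDiff ℝ 1 w) {s : Set (ℝ × ℝ)}
    {Γ Γ' ν ν' : ℝ × ℝ → ℝ} (h1 : ContinuousOn Γ s) (h2 : ContinuousOn Γ' s)
    (h3 : ContinuousOn ν s) (h4 : ContinuousOn ν' s) :
    ContinuousOn (fun y => D2 w (Γ y) (Γ' y) (ν y) (ν' y) y) s := by
  have a := scal_contOn hw.continuous h3
  have b := scal_contOn (continuous_d1 hw) h3
  have c := scal_contOn (continuous_d2 hw) h3
  have key : ∀ A B C : ℝ × ℝ → ℝ, ContinuousOn A s → ContinuousOn B s → ContinuousOn C s →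
      ContinuousOn (fun y => 2 * y.2 * Γ' y * A y + Γ y * (2 * y.1 * y.2 * ν' y * B y +
        (ν y + 2 * y.2 ^ 2 * ν' y) * C y)) s := by
    intro A B C hA hB hC
    fun_prop
  exact key _ _ _ a b c

theorem Ga1'_meas : Measurable Ga1' := by
  have h1 := (cg'_cont.comp tau1_cont).measurable
  have h2 := (cg_cont.comp tau1_cont).measurable
  have h3 := (cJ1_cont.comp tau1_cont).measurable
  exact (h1.div (measurable_const.mul (Real.continuous_sqrt.measurable.comp h2))).mul h3.inv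

theorem nu1_meas : Measurable nu1 := by
  have h2 := (cR_cont.comp tau1_cont).measurable
  exact (Real.continuous_sqrt.measurable.comp h2).inv

theorem nu1'_meas : Measurable nu1' := by
  have h1 := (cR'_cont.comp tau1_cont).measurable
  have h2 := (cR_cont.comp tau1_cont).measurable
  have h3 := (cJ1_cont.comp tau1_cont).measurable
  exact ((h1.div (measurable_const.mul
    ((Real.continuous_sqrt.measurable.comp h2).pow_const 3))).neg).mul h3.inv

theorem tau2_inv_meas : Measurable fun ρ : ℝ => tau2 ρ⁻¹ :=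
  tau2_cont.measurable.comp measurable_inv

theorem Ga2_meas : Measurable Ga2 := by
  have h := tau2_inv_meas
  exact Real.continuous_sqrt.measurable.comp (h.mul (cH_cont.measurable.comp h))

theorem Ga2'_meas : Measurable Ga2' := by
  have h := tau2_inv_meas
  exact ((cH1_cont.measurable.comp h).div (measurable_const.mul
    (Real.continuous_sqrt.measurable.comp (h.mul (cH_cont.measurable.comp h))))).mul
    ((h.pow_const 2).div (cJ2_cont.measurable.comp h)).neg

theorem nu2_meas : Measurable nu2 := by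
  have h := tau2_inv_meas
  exact h.div (Real.continuous_sqrt.measurable.comp (cS_cont.measurable.comp h))

theorem nu2'_meas : Measurable nu2' := by
  have h := tau2_inv_meas
  exact (((measurable_const.mul (cS_cont.measurable.comp h)).sub
    (h.mul (cS'_cont.measurable.comp h))).div (measurable_const.mul
    ((Real.continuous_sqrt.measurable.comp (cS_cont.measurable.comp h)).pow_const 3))).mul
    ((h.pow_const 2).div (cJ2_cont.measurable.comp h)).neg

theorem scal_meas {F : ℝ × ℝ → ℝ} {ν : ℝ × ℝ → ℝ} (hF : Measurable F)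
    (hν : Measurable ν) : Measurable (fun y => F (ν y * y.1, ν y * y.2)) :=
  hF.comp ((hν.mul measurable_fst).prodMk (hν.mul measurable_snd))

theorem D1_meas {w : ℝ × ℝ → ℝ} (hw : ContDiff ℝ 1 w)
    {Γ Γ' ν ν' : ℝ × ℝ → ℝ} (h1 : Measurable Γ) (h2 : Measurable Γ')
    (h3 : Measurable ν) (h4 : Measurable ν') :
    Measurable (fun y => D1 w (Γ y) (Γ' y) (ν y) (ν' y) y) := by
  have a := scal_meas hw.continuous.measurable h3
  have b := scal_meas (continuous_d1 hw).measurable h3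
  have c := scal_meas (continuous_d2 hw).measurable h3
  have key : ∀ A B C : ℝ × ℝ → ℝ, Measurable A → Measurable B → Measurable C →
      Measurable (fun y => 2 * y.1 * Γ' y * A y + Γ y * ((ν y + 2 * y.1 ^ 2 * ν' y) * B y +
        2 * y.1 * y.2 * ν' y * C y)) := by
    intro A B C hA hB hC
    fun_prop
  exact key _ _ _ a b c

theorem D2_meas {w : ℝ × ℝ → ℝ} (hw : ContDiff ℝ 1 w)
    {Γ Γ' ν ν' : ℝ × ℝ → ℝ} (h1 : Measurable Γ) (h2 : Measurable Γ')
    (h3 : Measurable ν) (h4 : Measurable ν') :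
    Measurable (fun y => D2 w (Γ y) (Γ' y) (ν y) (ν' y) y) := by
  have a := scal_meas hw.continuous.measurable h3
  have b := scal_meas (continuous_d1 hw).measurable h3
  have c := scal_meas (continuous_d2 hw).measurable h3
  have key : ∀ A B C : ℝ × ℝ → ℝ, Measurable A → Measurable B → Measurable C →
      Measurable (fun y => 2 * y.2 * Γ' y * A y + Γ y * (2 * y.1 * y.2 * ν' y * B y +
        (ν y + 2 * y.2 ^ 2 * ν' y) * C y)) := by
    intro A B C hA hB hC
    fun_prop
  exact key _ _ _ a b c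

theorem meas_le : MeasurableSet {y : ℝ × ℝ | nsq y ≤ 1} :=
  (isClosed_le continuous_nsq continuous_const).measurableSet

theorem G1_meas {w : ℝ × ℝ → ℝ} (hw : ContDiff ℝ 1 w) : Measurable (G1 w) := by
  have hn := continuous_nsq.measurable
  unfold G1
  exact Measurable.ite meas_le
    (D1_meas hw (Ga1_cont.measurable.comp hn) (Ga1'_meas.comp hn) (nu1_meas.comp hn)
      (nu1'_meas.comp hn))
    (D1_meas hw (Ga2_meas.comp hn) (Ga2'_meas.comp hn) (nu2_meas.comp hn)
      (nu2'_meas.comp hn))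

theorem G2_meas {w : ℝ × ℝ → ℝ} (hw : ContDiff ℝ 1 w) : Measurable (G2 w) := by
  have hn := continuous_nsq.measurable
  unfold G2
  exact Measurable.ite meas_le
    (D2_meas hw (Ga1_cont.measurable.comp hn) (Ga1'_meas.comp hn) (nu1_meas.comp hn)
      (nu1'_meas.comp hn))
    (D2_meas hw (Ga2_meas.comp hn) (Ga2'_meas.comp hn) (nu2_meas.comp hn)
      (nu2'_meas.comp hn))

theorem compact_annulus (a L : ℝ) (hL : 0 ≤ L) :
    IsCompact {y : ℝ × ℝ | a ≤ nsq y ∧ nsq y ≤ L ^ 2} := by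
  apply ((isCompact_Icc (a := -L) (b := L)).prod
    (isCompact_Icc (a := -L) (b := L))).of_isClosed_subset
  · exact (isClosed_le continuous_const continuous_nsq).inter
      (isClosed_le continuous_nsq continuous_const)
  · rintro y ⟨_, hy⟩
    unfold nsq at hy
    exact ⟨abs_le.1 (abs_le_of_sq_le_sq (by nlinarith [sq_nonneg y.2]) hL),
      abs_le.1 (abs_le_of_sq_le_sq (by nlinarith [sq_nonneg y.1]) hL)⟩

/-- General boundedness of a truncated piecewise function. -/
theorem bounded_aux {w : ℝ × ℝ → ℝ} {ε L : ℝ} (hε : 0 < ε) (hL : 1 < L)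
    (hdec : ∀ y, L ^ 2 ≤ nsq y → Wt w y ≤ ε) (F1 F2 : ℝ × ℝ → ℝ)
    (h1 : ContinuousOn F1 {y | nsq y ≤ 1}) (h2 : ContinuousOn F2 {y | 1 ≤ nsq y}) :
    ∃ K, ∀ y, |th ε (Wt w y) * (if nsq y ≤ 1 then F1 y else F2 y)| ≤ K := by
  obtain ⟨K1, hK1⟩ := (compact_annulus 0 1 zero_le_one).exists_bound_of_continuousOn
    (h1.mono fun y hy => by have := hy.2; rw [one_pow] at this; exact this)
  obtain ⟨K2, hK2⟩ := (compact_annulus 1 L (by linarith)).exists_bound_of_continuousOn
    (h2.mono fun y hy => hy.1)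
  refine ⟨|K1| + |K2|, ?_⟩
  intro y
  rw [abs_mul, abs_of_nonneg (th_nonneg _ _)]
  by_cases hy : nsq y ≤ 1
  · rw [if_pos hy]
    have h3 := hK1 y ⟨nsq_nonneg y, by rw [one_pow]; exact hy⟩
    rw [Real.norm_eq_abs] at h3
    have h4 : th ε (Wt w y) * |F1 y| ≤ 1 * |F1 y| :=
      mul_le_mul_of_nonneg_right (th_le_one _ _) (abs_nonneg _)
    have := le_abs_self K1
    have := abs_nonneg K2
    linarith
  · rw [if_neg hy]
    push Not at hy
    by_cases hy2 : L ^ 2 ≤ nsq y
    · rw [th_zero hε (hdec y hy2), zero_mul]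
      positivity
    · push Not at hy2
      have h3 := hK2 y ⟨hy.le, hy2.le⟩
      rw [Real.norm_eq_abs] at h3
      have h4 : th ε (Wt w y) * |F2 y| ≤ 1 * |F2 y| :=
        mul_le_mul_of_nonneg_right (th_le_one _ _) (abs_nonneg _)
      have := le_abs_self K2
      have := abs_nonneg K1
      linarith

theorem profile1_contOn {F : ℝ → ℝ} (hF : ContinuousOn F (Icc 0 1)) :
    ContinuousOn (fun y : ℝ × ℝ => F (nsq y)) {y | nsq y ≤ 1} :=
  hF.comp continuous_nsq.continuousOn fun y hy => ⟨nsq_nonneg y, hy⟩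

theorem profile2_contOn {F : ℝ → ℝ} (hF : ContinuousOn F (Ici 1)) :
    ContinuousOn (fun y : ℝ × ℝ => F (nsq y)) {y | 1 ≤ nsq y} :=
  hF.comp continuous_nsq.continuousOn fun _ hy => hy

theorem BM_G1 {w : ℝ × ℝ → ℝ} (hw : ContDiff ℝ 1 w) {ε L : ℝ} (hε : 0 < ε) (hL : 1 < L)
    (hdec : ∀ y, L ^ 2 ≤ nsq y → Wt w y ≤ ε) : BM (fun y => th ε (Wt w y) * G1 w y) := by
  refine ⟨((th_cont ε).comp (Wt_cont hw.continuous)).measurable.mul (G1_meas hw), ?_⟩
  exact bounded_aux hε hL hdec _ _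
    (D1_contOn hw (profile1_contOn Ga1_cont.continuousOn) (profile1_contOn Ga1'_contOn)
      (profile1_contOn nu1_contOn) (profile1_contOn nu1'_contOn))
    (D1_contOn hw (profile2_contOn Ga2_contOn) (profile2_contOn Ga2'_contOn)
      (profile2_contOn nu2_contOn) (profile2_contOn nu2'_contOn))

theorem BM_G2 {w : ℝ × ℝ → ℝ} (hw : ContDiff ℝ 1 w) {ε L : ℝ} (hε : 0 < ε) (hL : 1 < L)
    (hdec : ∀ y, L ^ 2 ≤ nsq y → Wt w y ≤ ε) : BM (fun y => th ε (Wt w y) * G2 w y) := by
  refine ⟨((th_cont ε).comp (Wt_cont hw.continuous)).measurable.mul (G2_meas hw), ?_⟩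
  exact bounded_aux hε hL hdec _ _
    (D2_contOn hw (profile1_contOn Ga1_cont.continuousOn) (profile1_contOn Ga1'_contOn)
      (profile1_contOn nu1_contOn) (profile1_contOn nu1'_contOn))
    (D2_contOn hw (profile2_contOn Ga2_contOn) (profile2_contOn Ga2'_contOn)
      (profile2_contOn nu2_contOn) (profile2_contOn nu2'_contOn))

theorem BM_W {w : ℝ × ℝ → ℝ} (hw : Continuous w) (h0 : ∀ x, 0 ≤ w x) {ε L : ℝ} (hε : 0 < ε)
    (hL : 1 < L) (hdec : ∀ y, L ^ 2 ≤ nsq y → Wt w y ≤ ε) : BM (fun y => ph ε (Wt w y)) := by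
  have hc : Continuous fun y => ph ε (Wt w y) := (ph_cont ε).comp (Wt_cont hw)
  refine ⟨hc.measurable, ?_⟩
  obtain ⟨K, hK⟩ := (compact_annulus 0 L (by linarith)).exists_bound_of_continuousOn
    hc.continuousOn
  refine ⟨|K|, fun y => ?_⟩
  by_cases hy : L ^ 2 ≤ nsq y
  · have h5 : ph ε (Wt w y) = 0 := ph_zero hε (Wt_nonneg h0 y) (hdec y hy)
    simp only [h5, abs_zero]
    positivity
  · push Not at hy
    exact (hK y ⟨nsq_nonneg y, hy.le⟩).trans (le_abs_self K)

end CT96
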