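import Pool.Agent.CT96.Basic
import Pool.Agent.CT96.CertData
import Pool.Agent.CT96.Sheet

/-!
The inverse radial maps of the two sheets and the profiles of the transplanted function.
-/

open MeasureTheory Set Filter Topology

namespace CT96

theorem cR_pos' {t : ℝ} (ht : t ∈ Icc (0 : ℝ) 1) : 0 < cR t := by
  obtain ⟨h0, h1⟩ := ht; unfold cR; positivity

theorem cJ1_pos' {t : ℝ} (ht : t ∈ Icc (0 : ℝ) 1) : 0 < cJ1 t := by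
  obtain ⟨h0, h1⟩ := ht; unfold cJ1; positivity

theorem cS_pos' {t : ℝ} (ht : t ∈ Icc (0 : ℝ) 1) : 0 < cS t := by
  obtain ⟨h0, h1⟩ := ht; unfold cS; nlinarith

theorem cJ2_pos' (t : ℝ) : 0 < cJ2 t := by unfold cJ2; positivity

theorem cg_pos' {t : ℝ} (ht : t ∈ Icc (0 : ℝ) 1) : 0 < cg t := by
  obtain ⟨h0, h1⟩ := ht; unfold cg; nlinarith

theorem cH_pos' {t : ℝ} (ht : t ∈ Icc (0 : ℝ) 1) : 0 < cH t := by
  obtain ⟨h0, h1⟩ := ht; unfold cH; nlinarith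

theorem cR_cont : Continuous cR := by unfold cR; fun_prop
theorem cR'_cont : Continuous cR' := by unfold cR'; fun_prop
theorem cJ1_cont : Continuous cJ1 := by unfold cJ1; fun_prop
theorem cS_cont : Continuous cS := by unfold cS; fun_prop
theorem cS'_cont : Continuous cS' := by unfold cS'; fun_prop
theorem cJ2_cont : Continuous cJ2 := by unfold cJ2; fun_prop
theorem cg_cont : Continuous cg := by unfold cg; fun_prop
theorem cg'_cont : Continuous cg' := by unfold cg'; fun_prop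
theorem cH_cont : Continuous cH := by unfold cH; fun_prop
theorem cH1_cont : Continuous cH1 := by unfold cH1; fun_prop
theorem cz_cont : Continuous cz := by unfold cz; fun_prop

theorem hasDerivAt_poly2 (a b c t : ℝ) :
    HasDerivAt (fun t : ℝ => a + b * t + c * t ^ 2) (b + 2 * c * t) t := by
  have h := (((hasDerivAt_id t).const_mul b).const_add a).add ((hasDerivAt_pow 2 t).const_mul c)
  refine h.congr_deriv ?_
  push_cast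
  ring

theorem hasDerivAt_cR (t : ℝ) : HasDerivAt cR (cR' t) t :=
  (hasDerivAt_poly2 _ _ _ t).congr_deriv (by unfold cR'; ring)

theorem hasDerivAt_cS (t : ℝ) : HasDerivAt cS (cS' t) t := by
  have h := hasDerivAt_poly2 (677 / 1000) (533 / 1000) (-(210 / 1000)) t
  have e : cS = fun t : ℝ => 677 / 1000 + 533 / 1000 * t + -(210 / 1000) * t ^ 2 := by
    funext t; unfold cS; ring
  rw [e]
  exact h.congr_deriv (by unfold cS'; ring)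

theorem hasDerivAt_cg (t : ℝ) : HasDerivAt cg (cg' t) t := by
  have h := hasDerivAt_poly2 1 (-(447 / 1000)) (87 / 1000) t
  have e : cg = fun t : ℝ => 1 + -(447 / 1000) * t + 87 / 1000 * t ^ 2 := by
    funext t; unfold cg; ring
  rw [e]
  exact h.congr_deriv (by unfold cg'; ring)

theorem hasDerivAt_tcH (t : ℝ) : HasDerivAt (fun t => t * cH t) (cH1 t) t := by
  have h := hasDerivAt_poly2 (725 / 1000) (-(29 / 1000)) (-(56 / 1000)) t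
  have e : cH = fun t : ℝ => 725 / 1000 + -(29 / 1000) * t + -(56 / 1000) * t ^ 2 := by
    funext t; unfold cH; ring
  rw [e]
  exact ((hasDerivAt_id t).mul h).congr_deriv (by unfold cH1; simp only [id]; ring)

theorem hasDerivAt_tcR (t : ℝ) : HasDerivAt (fun t => t * cR t) (cJ1 t) t :=
  ((hasDerivAt_id t).mul (hasDerivAt_cR t)).congr_deriv
    (by unfold cJ1 cR cR'; simp only [id]; ring)

theorem hasDerivAt_kap {t : ℝ} (ht : t ∈ Icc (0 : ℝ) 1) :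
    HasDerivAt (fun t => t / cS t) (cJ2 t / cS t ^ 2) t :=
  ((hasDerivAt_id t).div (hasDerivAt_cS t) (cS_pos' ht).ne').congr_deriv
    (by unfold cJ2 cS'; simp only [id]; congr 1; unfold cS; ring)

theorem exists_tau1 : ∃ ψ : ℝ → ℝ, Continuous ψ ∧ (∀ t ∈ Icc (0 : ℝ) 1, ψ (t * cR t) = t) ∧
    (∀ y ∈ Icc (0 : ℝ) 1, ψ y ∈ Icc (0 : ℝ) 1 ∧ ψ y * cR (ψ y) = y ∧
      HasDerivAt ψ (cJ1 (ψ y))⁻¹ y) := by
  obtain ⟨ψ, h1, h2, h3, _⟩ := exists_inv (fun t => t * cR t) cJ1 0 1 zero_le_one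
    (fun t _ => hasDerivAt_tcR t) cJ1_cont.continuousOn (fun t ht => cJ1_pos' ht)
  refine ⟨ψ, h1, h2, ?_⟩
  have e0 : (0 : ℝ) * cR 0 = 0 := by ring
  have e1 : (1 : ℝ) * cR 1 = 1 := by unfold cR; norm_num
  rw [e0, e1] at h3
  exact h3

theorem exists_tau2 : ∃ ψ : ℝ → ℝ, Continuous ψ ∧ (∀ t ∈ Icc (0 : ℝ) 1, ψ (t / cS t) = t) ∧
    (∀ y ∈ Icc (0 : ℝ) 1, ψ y ∈ Icc (0 : ℝ) 1 ∧ ψ y / cS (ψ y) = y ∧
      HasDerivAt ψ (cJ2 (ψ y) / cS (ψ y) ^ 2)⁻¹ y) := by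
  obtain ⟨ψ, h1, h2, h3, _⟩ := exists_inv (fun t => t / cS t) (fun t => cJ2 t / cS t ^ 2) 0 1
    zero_le_one (fun t ht => hasDerivAt_kap ht)
    (cJ2_cont.continuousOn.div (cS_cont.continuousOn.pow 2)
      (fun t ht => (pow_pos (cS_pos' ht) 2).ne'))
    (fun t ht => div_pos (cJ2_pos' t) (pow_pos (cS_pos' ht) 2))
  refine ⟨ψ, h1, h2, ?_⟩
  have e0 : (0 : ℝ) / cS 0 = 0 := by simp
  have e1 : (1 : ℝ) / cS 1 = 1 := by unfold cS; norm_num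
  rw [e0, e1] at h3
  exact h3

/-- inverse of `t ↦ t R t` -/
noncomputable def tau1 : ℝ → ℝ := Classical.choose exists_tau1
/-- inverse of `t ↦ t / S t` -/
noncomputable def tau2 : ℝ → ℝ := Classical.choose exists_tau2

theorem tau1_cont : Continuous tau1 := (Classical.choose_spec exists_tau1).1
theorem tau1_left {t : ℝ} (ht : t ∈ Icc (0 : ℝ) 1) : tau1 (t * cR t) = t :=
  (Classical.choose_spec exists_tau1).2.1 t ht
theorem tau1_mem {y : ℝ} (hy : y ∈ Icc (0 : ℝ) 1) : tau1 y ∈ Icc (0 : ℝ) 1 :=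
  ((Classical.choose_spec exists_tau1).2.2 y hy).1
theorem tau1_right {y : ℝ} (hy : y ∈ Icc (0 : ℝ) 1) : tau1 y * cR (tau1 y) = y :=
  ((Classical.choose_spec exists_tau1).2.2 y hy).2.1
theorem tau1_deriv {y : ℝ} (hy : y ∈ Icc (0 : ℝ) 1) : HasDerivAt tau1 (cJ1 (tau1 y))⁻¹ y :=
  ((Classical.choose_spec exists_tau1).2.2 y hy).2.2

theorem tau2_cont : Continuous tau2 := (Classical.choose_spec exists_tau2).1
theorem tau2_left {t : ℝ} (ht : t ∈ Icc (0 : ℝ) 1) : tau2 (t / cS t) = t :=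
  (Classical.choose_spec exists_tau2).2.1 t ht
theorem tau2_mem {y : ℝ} (hy : y ∈ Icc (0 : ℝ) 1) : tau2 y ∈ Icc (0 : ℝ) 1 :=
  ((Classical.choose_spec exists_tau2).2.2 y hy).1
theorem tau2_right {y : ℝ} (hy : y ∈ Icc (0 : ℝ) 1) : tau2 y / cS (tau2 y) = y :=
  ((Classical.choose_spec exists_tau2).2.2 y hy).2.1
theorem tau2_deriv {y : ℝ} (hy : y ∈ Icc (0 : ℝ) 1) :
    HasDerivAt tau2 (cJ2 (tau2 y) / cS (tau2 y) ^ 2)⁻¹ y :=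
  ((Classical.choose_spec exists_tau2).2.2 y hy).2.2

theorem tau1_one : tau1 1 = 1 := by
  have := tau1_left (t := 1) (by norm_num)
  rwa [show (1 : ℝ) * cR 1 = 1 by unfold cR; norm_num] at this

theorem tau2_one : tau2 1 = 1 := by
  have := tau2_left (t := 1) (by norm_num)
  rwa [show (1 : ℝ) / cS 1 = 1 by unfold cS; norm_num] at this

theorem tau2_zero : tau2 0 = 0 := by
  have := tau2_left (t := 0) (by norm_num)
  rwa [zero_div] at this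

/-! profiles -/

/-- weight, sheet 1 -/
noncomputable def Ga1 (ρ : ℝ) : ℝ := √(cg (tau1 ρ))
/-- its derivative -/
noncomputable def Ga1' (ρ : ℝ) : ℝ := cg' (tau1 ρ) / (2 * √(cg (tau1 ρ))) * (cJ1 (tau1 ρ))⁻¹
/-- radial factor, sheet 1 -/
noncomputable def nu1 (ρ : ℝ) : ℝ := (√(cR (tau1 ρ)))⁻¹
/-- its derivative -/
noncomputable def nu1' (ρ : ℝ) : ℝ :=
  -(cR' (tau1 ρ) / (2 * √(cR (tau1 ρ)) ^ 3)) * (cJ1 (tau1 ρ))⁻¹
/-- weight, sheet 2 -/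
noncomputable def Ga2 (ρ : ℝ) : ℝ := √(tau2 ρ⁻¹ * cH (tau2 ρ⁻¹))
/-- its derivative -/
noncomputable def Ga2' (ρ : ℝ) : ℝ :=
  cH1 (tau2 ρ⁻¹) / (2 * √(tau2 ρ⁻¹ * cH (tau2 ρ⁻¹))) * (-(tau2 ρ⁻¹ ^ 2 / cJ2 (tau2 ρ⁻¹)))
/-- radial factor, sheet 2 -/
noncomputable def nu2 (ρ : ℝ) : ℝ := tau2 ρ⁻¹ / √(cS (tau2 ρ⁻¹))
/-- its derivative -/
noncomputable def nu2' (ρ : ℝ) : ℝ :=
  (2 * cS (tau2 ρ⁻¹) - tau2 ρ⁻¹ * cS' (tau2 ρ⁻¹)) / (2 * √(cS (tau2 ρ⁻¹)) ^ 3) *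
    (-(tau2 ρ⁻¹ ^ 2 / cJ2 (tau2 ρ⁻¹)))

theorem hasDerivAt_Ga1 {ρ : ℝ} (hρ : ρ ∈ Icc (0 : ℝ) 1) : HasDerivAt Ga1 (Ga1' ρ) ρ := by
  have h1 := tau1_deriv hρ
  have h2 := cg_pos' (tau1_mem hρ)
  have h3 : HasDerivAt (fun ρ => cg (tau1 ρ)) (cg' (tau1 ρ) * (cJ1 (tau1 ρ))⁻¹) ρ :=
    (hasDerivAt_cg _).comp ρ h1
  refine (h3.sqrt h2.ne').congr_deriv ?_
  unfold Ga1'
  ring

theorem hasDerivAt_nu1 {ρ : ℝ} (hρ : ρ ∈ Icc (0 : ℝ) 1) : HasDerivAt nu1 (nu1' ρ) ρ := by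
  have h1 := tau1_deriv hρ
  have h2 := cR_pos' (tau1_mem hρ)
  have h3 : HasDerivAt (fun ρ => cR (tau1 ρ)) (cR' (tau1 ρ) * (cJ1 (tau1 ρ))⁻¹) ρ :=
    (hasDerivAt_cR _).comp ρ h1
  have h4 : √(cR (tau1 ρ)) ≠ 0 := (Real.sqrt_pos.2 h2).ne'
  refine ((h3.sqrt h2.ne').inv h4).congr_deriv ?_
  unfold nu1'
  field_simp

theorem tau2_inv_deriv {ρ : ℝ} (hρ : 1 ≤ ρ) :
    HasDerivAt (fun ρ : ℝ => tau2 ρ⁻¹) (-(tau2 ρ⁻¹ ^ 2 / cJ2 (tau2 ρ⁻¹))) ρ := by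
  have hρ0 : 0 < ρ := by linarith
  have hmem : ρ⁻¹ ∈ Icc (0 : ℝ) 1 := ⟨by positivity, inv_le_one_of_one_le₀ hρ⟩
  have h1 := tau2_deriv hmem
  have h2 := hasDerivAt_inv hρ0.ne'
  have h3 := h1.comp ρ h2
  refine h3.congr_deriv ?_
  have h4 := tau2_right hmem
  have h5 := cS_pos' (tau2_mem hmem)
  have h6 := cJ2_pos' (tau2 ρ⁻¹)
  have h7 : tau2 ρ⁻¹ = ρ⁻¹ * cS (tau2 ρ⁻¹) := by
    rw [div_eq_iff h5.ne'] at h4
    exact h4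
  have h8 : tau2 ρ⁻¹ ^ 2 = cS (tau2 ρ⁻¹) ^ 2 / ρ ^ 2 := by
    calc tau2 ρ⁻¹ ^ 2 = (ρ⁻¹ * cS (tau2 ρ⁻¹)) ^ 2 := by rw [← h7]
      _ = _ := by field_simp
  rw [h8]
  field_simp

theorem tau2_inv_mem {ρ : ℝ} (hρ : 1 ≤ ρ) : tau2 ρ⁻¹ ∈ Icc (0 : ℝ) 1 :=
  tau2_mem ⟨by positivity, inv_le_one_of_one_le₀ hρ⟩

theorem tau2_inv_pos {ρ : ℝ} (hρ : 1 ≤ ρ) : 0 < tau2 ρ⁻¹ := by
  have hρ0 : 0 < ρ := by linarith
  have hmem : ρ⁻¹ ∈ Icc (0 : ℝ) 1 := ⟨by positivity, inv_le_one_of_one_le₀ hρ⟩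
  have h4 := tau2_right hmem
  have h5 := cS_pos' (tau2_mem hmem)
  rw [div_eq_iff h5.ne'] at h4
  rw [h4]
  positivity

theorem hasDerivAt_Ga2 {ρ : ℝ} (hρ : 1 ≤ ρ) : HasDerivAt Ga2 (Ga2' ρ) ρ := by
  have h1 := tau2_inv_deriv hρ
  have h2 := cH_pos' (tau2_inv_mem hρ)
  have h0 := tau2_inv_pos hρ
  have h3 : HasDerivAt (fun ρ => tau2 ρ⁻¹ * cH (tau2 ρ⁻¹))
      (cH1 (tau2 ρ⁻¹) * (-(tau2 ρ⁻¹ ^ 2 / cJ2 (tau2 ρ⁻¹)))) ρ :=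
    (hasDerivAt_tcH _).comp ρ h1
  refine (h3.sqrt (mul_pos h0 h2).ne').congr_deriv ?_
  unfold Ga2'
  ring

theorem hasDerivAt_nu2 {ρ : ℝ} (hρ : 1 ≤ ρ) : HasDerivAt nu2 (nu2' ρ) ρ := by
  have h1 := tau2_inv_deriv hρ
  have h2 := cS_pos' (tau2_inv_mem hρ)
  have h3 : HasDerivAt (fun ρ => cS (tau2 ρ⁻¹))
      (cS' (tau2 ρ⁻¹) * (-(tau2 ρ⁻¹ ^ 2 / cJ2 (tau2 ρ⁻¹)))) ρ :=
    (hasDerivAt_cS _).comp ρ h1
  have h4 : 0 < √(cS (tau2 ρ⁻¹)) := Real.sqrt_pos.2 h2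
  have h5 : √(cS (tau2 ρ⁻¹)) ^ 2 = cS (tau2 ρ⁻¹) := Real.sq_sqrt h2.le
  refine (h1.div (h3.sqrt h2.ne') h4.ne').congr_deriv ?_
  unfold nu2'
  have h6 := cJ2_pos' (tau2 ρ⁻¹)
  generalize √(cS (tau2 ρ⁻¹)) = r at *
  rw [← h5]
  field_simp
  ring

end CT96
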