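import Mathlib

/-!
A `C^1` truncation `φ ε` with `0 ≤ φ' ≤ 1`, vanishing on `[0, ε]` and with `φ t ≥ t - 2 ε`.
-/

open MeasureTheory Set Filter Topology

namespace CT96

/-- Derivative of the truncation. -/
noncomputable def th (ε s : ℝ) : ℝ := max 0 (min 1 ((s - ε) / ε))

/-- The truncation. -/
noncomputable def ph (ε t : ℝ) : ℝ := ∫ s in (0 : ℝ)..t, th ε s

theorem th_nonneg (ε s : ℝ) : 0 ≤ th ε s := le_max_left _ _

theorem th_le_one (ε s : ℝ) : th ε s ≤ 1 := max_le zero_le_one (min_le_left _ _)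

theorem th_cont (ε : ℝ) : Continuous (th ε) := by
  unfold th
  fun_prop

theorem th_zero {ε s : ℝ} (hε : 0 < ε) (hs : s ≤ ε) : th ε s = 0 := by
  unfold th
  apply max_eq_left
  refine (min_le_right _ _).trans ?_
  apply div_nonpos_of_nonpos_of_nonneg <;> linarith

theorem th_one {ε s : ℝ} (hε : 0 < ε) (hs : 2 * ε ≤ s) : th ε s = 1 := by
  unfold th
  have h1 : (1 : ℝ) ≤ (s - ε) / ε := by
    rw [le_div_iff₀ hε]; linarith
  rw [min_eq_left h1]
  simp

theorem ph_hasDerivAt (ε t : ℝ) : HasDerivAt (ph ε) (th ε t) t :=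
  intervalIntegral.integral_hasDerivAt_right ((th_cont ε).intervalIntegrable 0 t)
    ((th_cont ε).stronglyMeasurableAtFilter _ _) (th_cont ε).continuousAt

theorem ph_cont (ε : ℝ) : Continuous (ph ε) :=
  continuous_iff_continuousAt.2 fun t => (ph_hasDerivAt ε t).continuousAt

theorem ph_zero {ε t : ℝ} (hε : 0 < ε) (ht : 0 ≤ t) (h : t ≤ ε) : ph ε t = 0 := by
  unfold ph
  rw [intervalIntegral.integral_congr (g := fun _ => 0)]
  · simp
  · intro s hs
    rw [uIcc_of_le ht] at hs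
    exact th_zero hε (hs.2.trans h)

theorem ph_nonneg {ε t : ℝ} (ht : 0 ≤ t) : 0 ≤ ph ε t :=
  intervalIntegral.integral_nonneg ht fun s _ => th_nonneg ε s

theorem ph_le {ε t : ℝ} (ht : 0 ≤ t) : ph ε t ≤ t := by
  have h := intervalIntegral.integral_mono_on (μ := volume) ht
    ((th_cont ε).intervalIntegrable 0 t) (continuous_const.intervalIntegrable 0 t)
    (fun s _ => th_le_one ε s)
  simpa [ph] using h

theorem ph_ge {ε t : ℝ} (hε : 0 < ε) (ht : 0 ≤ t) : t - 2 * ε ≤ ph ε t := by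
  rcases le_total t (2 * ε) with h | h
  · have := ph_nonneg (ε := ε) ht
    linarith
  · have h1 : ph ε t = ph ε (2 * ε) + ∫ s in (2 * ε)..t, th ε s := by
      unfold ph
      rw [intervalIntegral.integral_add_adjacent_intervals]
      · exact (th_cont ε).intervalIntegrable _ _
      · exact (th_cont ε).intervalIntegrable _ _
    have h2 : ∫ s in (2 * ε)..t, th ε s = t - 2 * ε := by
      rw [intervalIntegral.integral_congr (g := fun _ => 1)]
      · simp
      · intro s hs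
        rw [uIcc_of_le h] at hs
        exact th_one hε hs.1
    have h3 := ph_nonneg (ε := ε) (t := 2 * ε) (by linarith)
    rw [h1, h2]
    linarith

/-- Sixth powers are almost preserved. -/
theorem ph_pow_six {ε t : ℝ} (hε : 0 < ε) (ht : 0 ≤ t) : t ^ 6 - 12 * ε * t ^ 5 ≤ ph ε t ^ 6 := by
  rcases le_total t (2 * ε) with h | h
  · have h1 : 0 ≤ ph ε t ^ 6 := pow_nonneg (ph_nonneg ht) 6
    have h2 : t ^ 6 - 12 * ε * t ^ 5 = t ^ 5 * (t - 12 * ε) := by ring
    have h3 : t ^ 5 * (t - 12 * ε) ≤ 0 :=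
      mul_nonpos_of_nonneg_of_nonpos (by positivity) (by linarith)
    linarith
  · have h1 : (t - 2 * ε) ^ 6 ≤ ph ε t ^ 6 :=
      pow_le_pow_left₀ (by linarith) (ph_ge hε ht) 6
    have h2 : t ^ 6 - 12 * ε * t ^ 5 ≤ (t - 2 * ε) ^ 6 := by
      obtain ⟨s, hs⟩ : ∃ s, t = s + 2 * ε := ⟨t - 2 * ε, by ring⟩
      have hs0 : 0 ≤ s := by linarith
      subst hs
      have e1 : (s + 2 * ε - 2 * ε) ^ 6 - ((s + 2 * ε) ^ 6 - 12 * ε * (s + 2 * ε) ^ 5) =
        60 * s ^ 4 * ε ^ 2 + 320 * s ^ 3 * ε ^ 3 + 720 * s ^ 2 * ε ^ 4 + 768 * s * ε ^ 5 +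
          320 * ε ^ 6 := by ring
      have e2 : 0 ≤ 60 * s ^ 4 * ε ^ 2 + 320 * s ^ 3 * ε ^ 3 + 720 * s ^ 2 * ε ^ 4 +
          768 * s * ε ^ 5 + 320 * ε ^ 6 := by positivity
      linarith
    exact h2.trans h1

end CT96
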