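import Pool.Agent.CT96.Tau
import Pool.Agent.CT96.Trunc
import Pool.Agent.CT96.Box

/-!
The transplanted function on the plane.
-/

open MeasureTheory Set Filter Topology

namespace CT96

/-- the radial stretching of sheet 1 -/
noncomputable def m1 (t : ℝ) : ℝ := √(cR t)
/-- its derivative -/
noncomputable def m1' (t : ℝ) : ℝ := cR' t / (2 * √(cR t))
/-- the radial stretching of sheet 2 -/
noncomputable def m2 (t : ℝ) : ℝ := √(cS t) / t
/-- its derivative -/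
noncomputable def m2' (t : ℝ) : ℝ := (cS' t / (2 * √(cS t)) * t - √(cS t) * 1) / t ^ 2

theorem m1_pos {t : ℝ} (ht : t ∈ Ioo (0 : ℝ) 1) : 0 < m1 t :=
  Real.sqrt_pos.2 (cR_pos' (Ioo_subset_Icc_self ht))

theorem m2_pos {t : ℝ} (ht : t ∈ Ioo (0 : ℝ) 1) : 0 < m2 t :=
  div_pos (Real.sqrt_pos.2 (cS_pos' (Ioo_subset_Icc_self ht))) ht.1

theorem m1_sq {t : ℝ} (ht : t ∈ Ioo (0 : ℝ) 1) : m1 t ^ 2 = cR t :=
  Real.sq_sqrt (cR_pos' (Ioo_subset_Icc_self ht)).le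

theorem m2_sq {t : ℝ} (ht : t ∈ Ioo (0 : ℝ) 1) : m2 t ^ 2 = cS t / t ^ 2 := by
  unfold m2
  rw [div_pow, Real.sq_sqrt (cS_pos' (Ioo_subset_Icc_self ht)).le]

theorem hasDerivAt_m1 {t : ℝ} (ht : t ∈ Ioo (0 : ℝ) 1) : HasDerivAt m1 (m1' t) t :=
  (hasDerivAt_cR t).sqrt (cR_pos' (Ioo_subset_Icc_self ht)).ne'

theorem hasDerivAt_m2 {t : ℝ} (ht : t ∈ Ioo (0 : ℝ) 1) : HasDerivAt m2 (m2' t) t :=
  ((hasDerivAt_cS t).sqrt (cS_pos' (Ioo_subset_Icc_self ht)).ne').div (hasDerivAt_id t) ht.1.ne'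

theorem jac1 {t : ℝ} (ht : t ∈ Ioo (0 : ℝ) 1) : |m1 t * (m1 t + 2 * t * m1' t)| = cJ1 t := by
  have h1 := cR_pos' (Ioo_subset_Icc_self ht)
  have h2 := cJ1_pos' (Ioo_subset_Icc_self ht)
  have h3 : 0 < √(cR t) := Real.sqrt_pos.2 h1
  have h4 : √(cR t) ^ 2 = cR t := Real.sq_sqrt h1.le
  have h5 : m1 t * (m1 t + 2 * t * m1' t) = cJ1 t := by
    have h6 : m1 t * (m1 t + 2 * t * m1' t) = √(cR t) ^ 2 + t * cR' t := by
      unfold m1 m1'
      field_simp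
    rw [h6, h4]
    unfold cR cR' cJ1
    ring
  rw [h5, abs_of_pos h2]

theorem jac2 {t : ℝ} (ht : t ∈ Ioo (0 : ℝ) 1) :
    |m2 t * (m2 t + 2 * t * m2' t)| = cJ2 t / t ^ 2 := by
  have h1 := cS_pos' (Ioo_subset_Icc_self ht)
  have h2 := cJ2_pos' t
  have ht0 := ht.1
  have h3 : 0 < √(cS t) := Real.sqrt_pos.2 h1
  have h4 : √(cS t) ^ 2 = cS t := Real.sq_sqrt h1.le
  have h5 : m2 t * (m2 t + 2 * t * m2' t) = -(cJ2 t / t ^ 2) := by
    have h6 : m2 t * (m2 t + 2 * t * m2' t) = -(√(cS t) ^ 2 - t * cS' t) / t ^ 2 := by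
      unfold m2 m2'
      field_simp
      ring
    rw [h6, h4]
    unfold cS cS' cJ2
    ring
  rw [h5, abs_neg, abs_of_pos (by positivity)]

theorem inj1 : InjOn (fun t => t * m1 t ^ 2) (Ioo 0 1) := by
  intro s hs t ht hst
  simp only [m1_sq hs, m1_sq ht] at hst
  rw [← tau1_left (Ioo_subset_Icc_self hs), ← tau1_left (Ioo_subset_Icc_self ht), hst]

theorem inj2 : InjOn (fun t => t * m2 t ^ 2) (Ioo 0 1) := by
  intro s hs t ht hst
  simp only [m2_sq hs, m2_sq ht] at hst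
  have hs0 := hs.1
  have ht0 := ht.1
  have h1 := cS_pos' (Ioo_subset_Icc_self hs)
  have h2 := cS_pos' (Ioo_subset_Icc_self ht)
  have h3 : s / cS s = t / cS t := by
    field_simp at hst ⊢
    linarith
  rw [← tau2_left (Ioo_subset_Icc_self hs), ← tau2_left (Ioo_subset_Icc_self ht), h3]

theorem tcR_lt {t : ℝ} (ht : t ∈ Ioo (0 : ℝ) 1) : t * cR t < 1 := by
  obtain ⟨h0, h1⟩ := ht
  unfold cR
  nlinarith [mul_pos h0 h0]

theorem lt_cS {t : ℝ} (ht : t ∈ Ioo (0 : ℝ) 1) : t < cS t := by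
  obtain ⟨h0, h1⟩ := ht
  unfold cS
  nlinarith

theorem img1 : (fun t => t * m1 t ^ 2) '' Ioo 0 1 = Ioo 0 1 := by
  ext ρ
  constructor
  · rintro ⟨t, ht, rfl⟩
    simp only [m1_sq ht]
    exact ⟨mul_pos ht.1 (cR_pos' (Ioo_subset_Icc_self ht)), tcR_lt ht⟩
  · intro hρ
    have hρ' := Ioo_subset_Icc_self hρ
    have h1 := tau1_mem hρ'
    have h2 := tau1_right hρ'
    have h3 : tau1 ρ ∈ Ioo (0 : ℝ) 1 := by
      refine ⟨lt_of_le_of_ne h1.1 ?_, lt_of_le_of_ne h1.2 ?_⟩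
      · intro h
        rw [← h, zero_mul] at h2
        exact hρ.1.ne h2
      · intro h
        rw [h] at h2
        have : (1 : ℝ) * cR 1 = 1 := by unfold cR; norm_num
        rw [this] at h2
        exact hρ.2.ne' h2
    refine ⟨tau1 ρ, h3, ?_⟩
    simp only [m1_sq h3]
    exact h2

theorem img2 : (fun t => t * m2 t ^ 2) '' Ioo 0 1 = Ioi 1 := by
  ext ρ
  constructor
  · rintro ⟨t, ht, rfl⟩
    simp only [m2_sq ht]
    have h1 := lt_cS ht
    have ht0 := ht.1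
    have h2 : t * (cS t / t ^ 2) = cS t / t := by field_simp
    rw [h2, mem_Ioi, lt_div_iff₀ ht0, one_mul]
    exact h1
  · intro hρ
    have hρ1 : (1 : ℝ) < ρ := hρ
    have hρ0 : 0 < ρ := by linarith
    have hmem : ρ⁻¹ ∈ Icc (0 : ℝ) 1 := ⟨by positivity, inv_le_one_of_one_le₀ hρ1.le⟩
    have h1 := tau2_mem hmem
    have h2 := tau2_right hmem
    have h5 := cS_pos' h1
    have h3 : tau2 ρ⁻¹ ∈ Ioo (0 : ℝ) 1 := by
      refine ⟨tau2_inv_pos hρ1.le, lt_of_le_of_ne h1.2 ?_⟩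
      intro h
      rw [h] at h2
      have : (1 : ℝ) / cS 1 = 1 := by unfold cS; norm_num
      rw [this] at h2
      have : ρ⁻¹ < 1 := inv_lt_one_of_one_lt₀ hρ1
      linarith
    refine ⟨tau2 ρ⁻¹, h3, ?_⟩
    simp only [m2_sq h3]
    have h4 : tau2 ρ⁻¹ * (cS (tau2 ρ⁻¹) / tau2 ρ⁻¹ ^ 2) = (tau2 ρ⁻¹ / cS (tau2 ρ⁻¹))⁻¹ := by
      have := h3.1
      field_simp
    rw [h4, h2, inv_inv]

theorem image1 : rmap m1 '' PD = {y | 0 < nsq y ∧ nsq y < 1} := by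
  rw [image_rmap m1 (fun t ht => m1_pos ht), img1]
  rfl

theorem image2 : rmap m2 '' PD = {y | 1 < nsq y} := by
  rw [image_rmap m2 (fun t ht => m2_pos ht), img2]
  rfl

/-! values at the image points -/

theorem nsq1 {x : ℝ × ℝ} (hx : x ∈ PD) : nsq (rmap m1 x) = nsq x * cR (nsq x) := by
  rw [nsq_rmap, m1_sq hx]

theorem nsq2 {x : ℝ × ℝ} (hx : x ∈ PD) : nsq (rmap m2 x) = cS (nsq x) / nsq x := by
  rw [nsq_rmap, m2_sq hx]
  have := hx.1
  field_simp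

theorem tau_nsq1 {x : ℝ × ℝ} (hx : x ∈ PD) : tau1 (nsq (rmap m1 x)) = nsq x := by
  rw [nsq1 hx, tau1_left (Ioo_subset_Icc_self hx)]

theorem tau_nsq2 {x : ℝ × ℝ} (hx : x ∈ PD) : tau2 (nsq (rmap m2 x))⁻¹ = nsq x := by
  rw [nsq2 hx, inv_div, tau2_left (Ioo_subset_Icc_self hx)]

theorem nu1_rmap {x : ℝ × ℝ} (hx : x ∈ PD) : (nu1 (nsq (rmap m1 x)) * (rmap m1 x).1,
    nu1 (nsq (rmap m1 x)) * (rmap m1 x).2) = x := by
  have h1 := (m1_pos hx).ne'
  have h2 : nu1 (nsq (rmap m1 x)) = (m1 (nsq x))⁻¹ := by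
    unfold nu1
    rw [tau_nsq1 hx]
    rfl
  rw [h2]
  unfold rmap
  ext <;> simp only <;> field_simp

theorem nu2_rmap {x : ℝ × ℝ} (hx : x ∈ PD) : (nu2 (nsq (rmap m2 x)) * (rmap m2 x).1,
    nu2 (nsq (rmap m2 x)) * (rmap m2 x).2) = x := by
  have h1 := (m2_pos hx).ne'
  have h2 : nu2 (nsq (rmap m2 x)) = (m2 (nsq x))⁻¹ := by
    unfold nu2
    rw [tau_nsq2 hx]
    unfold m2
    rw [inv_div]
  rw [h2]
  unfold rmap
  ext <;> simp only <;> field_simp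

/-- The transplanted function. -/
noncomputable def Wt (w : ℝ × ℝ → ℝ) (y : ℝ × ℝ) : ℝ :=
  if nsq y ≤ 1 then Ga1 (nsq y) * w (nu1 (nsq y) * y.1, nu1 (nsq y) * y.2)
  else Ga2 (nsq y) * w (nu2 (nsq y) * y.1, nu2 (nsq y) * y.2)

theorem Wt_rmap1 (w : ℝ × ℝ → ℝ) {x : ℝ × ℝ} (hx : x ∈ PD) :
    Wt w (rmap m1 x) = √(cg (nsq x)) * w x := by
  have h1 : nsq (rmap m1 x) ≤ 1 := by rw [nsq1 hx]; exact (tcR_lt hx).le
  unfold Wt
  rw [if_pos h1, nu1_rmap hx]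
  unfold Ga1
  rw [tau_nsq1 hx]

theorem Wt_rmap2 (w : ℝ × ℝ → ℝ) {x : ℝ × ℝ} (hx : x ∈ PD) :
    Wt w (rmap m2 x) = √(nsq x * cH (nsq x)) * w x := by
  have h1 : ¬ nsq (rmap m2 x) ≤ 1 := by
    rw [nsq2 hx, not_le, lt_div_iff₀ hx.1, one_mul]
    exact lt_cS hx
  unfold Wt
  rw [if_neg h1, nu2_rmap hx]
  unfold Ga2
  rw [tau_nsq2 hx]

theorem Wt_nonneg {w : ℝ × ℝ → ℝ} (h0 : ∀ x, 0 ≤ w x) (y : ℝ × ℝ) : 0 ≤ Wt w y := by
  unfold Wt Ga1 Ga2
  split_ifs <;> exact mul_nonneg (Real.sqrt_nonneg _) (h0 _)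

/-! continuity of the profiles -/

theorem Ga1_cont : Continuous Ga1 := by
  have := cg_cont
  have := tau1_cont
  unfold Ga1
  fun_prop

theorem nu1_contOn : ContinuousOn nu1 (Icc 0 1) := by
  unfold nu1
  apply ContinuousOn.inv₀
  · exact (Real.continuous_sqrt.comp (cR_cont.comp tau1_cont)).continuousOn
  · intro ρ hρ
    exact (Real.sqrt_pos.2 (cR_pos' (tau1_mem hρ))).ne'

theorem Ga1'_contOn : ContinuousOn Ga1' (Icc 0 1) := by
  unfold Ga1'
  apply ContinuousOn.mul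
  · apply ContinuousOn.div
    · exact (cg'_cont.comp tau1_cont).continuousOn
    · exact (continuous_const.mul (Real.continuous_sqrt.comp
        (cg_cont.comp tau1_cont))).continuousOn
    · intro ρ hρ
      have := Real.sqrt_pos.2 (cg_pos' (tau1_mem hρ))
      positivity
  · apply ContinuousOn.inv₀
    · exact (cJ1_cont.comp tau1_cont).continuousOn
    · intro ρ hρ
      exact (cJ1_pos' (tau1_mem hρ)).ne'

theorem nu1'_contOn : ContinuousOn nu1' (Icc 0 1) := by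
  unfold nu1'
  apply ContinuousOn.mul
  · apply ContinuousOn.neg
    apply ContinuousOn.div
    · exact (cR'_cont.comp tau1_cont).continuousOn
    · exact (continuous_const.mul ((Real.continuous_sqrt.comp
        (cR_cont.comp tau1_cont)).pow 3)).continuousOn
    · intro ρ hρ
      have := Real.sqrt_pos.2 (cR_pos' (tau1_mem hρ))
      positivity
  · apply ContinuousOn.inv₀
    · exact (cJ1_cont.comp tau1_cont).continuousOn
    · intro ρ hρ
      exact (cJ1_pos' (tau1_mem hρ)).ne'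

theorem tau2_inv_contOn : ContinuousOn (fun ρ : ℝ => tau2 ρ⁻¹) (Ici 1) := by
  apply tau2_cont.comp_continuousOn
  apply ContinuousOn.inv₀ continuousOn_id
  intro ρ hρ
  have : (1 : ℝ) ≤ ρ := hρ
  simp only [id]
  linarith

theorem Ga2_contOn : ContinuousOn Ga2 (Ici 1) := by
  unfold Ga2
  exact Real.continuous_sqrt.comp_continuousOn
    (tau2_inv_contOn.mul (cH_cont.comp_continuousOn tau2_inv_contOn))

theorem nu2_contOn : ContinuousOn nu2 (Ici 1) := by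
  unfold nu2
  apply tau2_inv_contOn.div
  · exact Real.continuous_sqrt.comp_continuousOn (cS_cont.comp_continuousOn tau2_inv_contOn)
  · intro ρ hρ
    exact (Real.sqrt_pos.2 (cS_pos' (tau2_inv_mem hρ))).ne'

theorem fac2_contOn : ContinuousOn (fun ρ : ℝ => -(tau2 ρ⁻¹ ^ 2 / cJ2 (tau2 ρ⁻¹))) (Ici 1) := by
  apply ContinuousOn.neg
  apply (tau2_inv_contOn.pow 2).div (cJ2_cont.comp_continuousOn tau2_inv_contOn)
  intro ρ _
  exact (cJ2_pos' _).ne'

theorem Ga2'_contOn : ContinuousOn Ga2' (Ici 1) := by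
  unfold Ga2'
  apply ContinuousOn.mul _ fac2_contOn
  apply ContinuousOn.div
  · exact cH1_cont.comp_continuousOn tau2_inv_contOn
  · apply continuousOn_const.mul
    exact Real.continuous_sqrt.comp_continuousOn
      (tau2_inv_contOn.mul (cH_cont.comp_continuousOn tau2_inv_contOn))
  · intro ρ hρ
    have := Real.sqrt_pos.2 (mul_pos (tau2_inv_pos hρ) (cH_pos' (tau2_inv_mem hρ)))
    positivity

theorem nu2'_contOn : ContinuousOn nu2' (Ici 1) := by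
  unfold nu2'
  apply ContinuousOn.mul _ fac2_contOn
  apply ContinuousOn.div
  · exact (continuousOn_const.mul (cS_cont.comp_continuousOn tau2_inv_contOn)).sub
      (tau2_inv_contOn.mul (cS'_cont.comp_continuousOn tau2_inv_contOn))
  · apply continuousOn_const.mul
    exact (Real.continuous_sqrt.comp_continuousOn
      (cS_cont.comp_continuousOn tau2_inv_contOn)).pow 3
  · intro ρ hρ
    have := Real.sqrt_pos.2 (cS_pos' (tau2_inv_mem hρ))
    positivity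

theorem nsq_nonneg (y : ℝ × ℝ) : 0 ≤ nsq y := by unfold nsq; positivity

theorem nu1n_contOn : ContinuousOn (fun y : ℝ × ℝ => nu1 (nsq y)) {y | nsq y ≤ 1} :=
  nu1_contOn.comp continuous_nsq.continuousOn fun y hy => ⟨nsq_nonneg y, hy⟩

theorem nu2n_contOn : ContinuousOn (fun y : ℝ × ℝ => nu2 (nsq y)) {y | 1 ≤ nsq y} :=
  nu2_contOn.comp continuous_nsq.continuousOn fun _ hy => hy

theorem scal_contOn {F : ℝ × ℝ → ℝ} {ν : ℝ × ℝ → ℝ} {s : Set (ℝ × ℝ)} (hF : Continuous F)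
    (hν : ContinuousOn ν s) : ContinuousOn (fun y => F (ν y * y.1, ν y * y.2)) s :=
  hF.comp_continuousOn ((hν.mul continuous_fst.continuousOn).prodMk
    (hν.mul continuous_snd.continuousOn))

theorem Wt_cont {w : ℝ × ℝ → ℝ} (hw : Continuous w) : Continuous (Wt w) := by
  unfold Wt
  apply continuous_if_le continuous_nsq continuous_const
  · exact (Ga1_cont.comp continuous_nsq).continuousOn.mul (scal_contOn hw nu1n_contOn)
  · exact (Ga2_contOn.comp continuous_nsq.continuousOn fun _ hy => hy).mul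
      (scal_contOn hw nu2n_contOn)
  · intro y hy
    rw [hy]
    have e1 : Ga1 1 = Ga2 1 := by
      unfold Ga1 Ga2
      rw [inv_one, tau1_one, tau2_one]
      unfold cg cH
      norm_num
    have e2 : nu1 1 = nu2 1 := by
      unfold nu1 nu2
      rw [inv_one, tau1_one, tau2_one]
      unfold cR cS
      norm_num
    rw [e1, e2]

theorem Wt_decay {w : ℝ × ℝ → ℝ} (hw : Continuous w) {ε : ℝ} (hε : 0 < ε) :
    ∃ L : ℝ, 1 < L ∧ ∀ y, L ^ 2 ≤ nsq y → Wt w y ≤ ε := by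
  have hcomp : IsCompact (Icc (-1 : ℝ) 1 ×ˢ Icc (-1 : ℝ) 1) := isCompact_Icc.prod isCompact_Icc
  obtain ⟨K, hK⟩ := hcomp.exists_bound_of_continuousOn hw.continuousOn
  have hlim : Tendsto Ga2 atTop (𝓝 0) := by
    have h1 : Continuous fun s : ℝ => √(tau2 s * cH (tau2 s)) := by
      have := cH_cont
      have := tau2_cont
      fun_prop
    have h2 := (h1.tendsto 0).comp (tendsto_inv_atTop_zero (𝕜 := ℝ))
    rw [tau2_zero, zero_mul, Real.sqrt_zero] at h2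
    exact h2
  have hK1 : 0 < |K| + 1 := by positivity
  have hev : ∀ᶠ ρ in atTop, Ga2 ρ < ε / (|K| + 1) :=
    hlim.eventually (gt_mem_nhds (by positivity))
  obtain ⟨ρ₀, h3⟩ := eventually_atTop.1 hev
  refine ⟨max ρ₀ 2, by simp, ?_⟩
  intro y hy
  have hL2 : (2 : ℝ) ≤ max ρ₀ 2 := le_max_right _ _
  have h4 : max ρ₀ 2 ≤ (max ρ₀ 2) ^ 2 := by nlinarith
  have h5 : 1 < nsq y := by linarith
  unfold Wt
  rw [if_neg (not_le.2 h5)]
  have h6 := h3 (nsq y) ((le_max_left _ _).trans (h4.trans hy))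
  have h7 : nsq (nu2 (nsq y) * y.1, nu2 (nsq y) * y.2) ≤ 1 := by
    have e1 : nsq (nu2 (nsq y) * y.1, nu2 (nsq y) * y.2) = nu2 (nsq y) ^ 2 * nsq y := by
      unfold nsq; ring
    have h8 := tau2_inv_mem h5.le
    have h9 := cS_pos' h8
    have hmem : (nsq y)⁻¹ ∈ Icc (0 : ℝ) 1 :=
      ⟨by have := nsq_nonneg y; positivity, inv_le_one_of_one_le₀ h5.le⟩
    have h10 := tau2_right hmem
    have h11 : nsq y = cS (tau2 (nsq y)⁻¹) / tau2 (nsq y)⁻¹ := by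
      rw [← inv_div, h10, inv_inv]
    have h12 := tau2_inv_pos h5.le
    have e2 : nu2 (nsq y) ^ 2 * nsq y = tau2 (nsq y)⁻¹ := by
      have e3 : ∀ τ c : ℝ, 0 < τ → 0 < c → τ ^ 2 / c * (c / τ) = τ := by
        intro τ c hτ hc
        field_simp
      unfold nu2
      rw [div_pow, Real.sq_sqrt h9.le]
      calc tau2 (nsq y)⁻¹ ^ 2 / cS (tau2 (nsq y)⁻¹) * nsq y
          = tau2 (nsq y)⁻¹ ^ 2 / cS (tau2 (nsq y)⁻¹) *
            (cS (tau2 (nsq y)⁻¹) / tau2 (nsq y)⁻¹) := by rw [← h11]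
        _ = _ := e3 _ _ h12 h9
    rw [e1, e2]
    exact h8.2
  have h13 : (nu2 (nsq y) * y.1, nu2 (nsq y) * y.2) ∈ Icc (-1 : ℝ) 1 ×ˢ Icc (-1 : ℝ) 1 := by
    generalize (nu2 (nsq y) * y.1, nu2 (nsq y) * y.2) = p at h7
    unfold nsq at h7
    refine ⟨abs_le.1 (abs_le_one_iff_mul_self_le_one.2 (by nlinarith [sq_nonneg p.2])),
      abs_le.1 (abs_le_one_iff_mul_self_le_one.2 (by nlinarith [sq_nonneg p.1]))⟩
  have h14 := hK _ h13
  rw [Real.norm_eq_abs] at h14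
  have h15 : w (nu2 (nsq y) * y.1, nu2 (nsq y) * y.2) ≤ |K| + 1 := by
    have := le_abs_self (w (nu2 (nsq y) * y.1, nu2 (nsq y) * y.2))
    have := le_abs_self K
    linarith
  have h16 : 0 ≤ Ga2 (nsq y) := Real.sqrt_nonneg _
  calc Ga2 (nsq y) * w (nu2 (nsq y) * y.1, nu2 (nsq y) * y.2)
      ≤ Ga2 (nsq y) * (|K| + 1) := mul_le_mul_of_nonneg_left h15 h16
    _ ≤ ε / (|K| + 1) * (|K| + 1) := mul_le_mul_of_nonneg_right h6.le hK1.le
    _ = ε := by field_simp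

end CT96
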